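import Mathlib
set_option autoImplicit false

/-! Polynomial phases: definitions. -/

namespace Pool.Agent.J4.H87.PP

open MeasureTheory Set MvPolynomial
open scoped ENNReal NNReal RealInnerProductSpace

abbrev E (n : ℕ) := EuclideanSpace ℝ (Fin n)

/-- real polynomials in two variables -/
abbrev Pol := MvPolynomial (Fin 2) ℝ

/-- the value of `p` at `x` -/
noncomputable def ev (p : Pol) (x : E 2) : ℝ := eval (fun i => x i) p

/-- the partial derivative `∂_i p` at `x` -/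
noncomputable def d1 (p : Pol) (i : Fin 2) (x : E 2) : ℝ := ev (pderiv i p) x

/-- the second partial derivative `∂_i ∂_j p` at `x` -/
noncomputable def d2 (p : Pol) (i j : Fin 2) (x : E 2) : ℝ := ev (pderiv i (pderiv j p)) x

/-- the Hessian determinant, as a polynomial -/
noncomputable def Jp (p : Pol) : Pol :=
  pderiv 0 (pderiv 0 p) * pderiv 1 (pderiv 1 p) - pderiv 0 (pderiv 1 p) * pderiv 1 (pderiv 0 p)

/-- `p - t |x|^2` -/
noncomputable def ph (p : Pol) (t : ℝ) : Pol := p - C t * (X 0 ^ 2 + X 1 ^ 2)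

/-- `e^{ir}` -/
noncomputable def ex (r : ℝ) : ℂ := Complex.exp ((r : ℂ) * Complex.I)

/-- the Fourier transform -/
noncomputable def FF (f : E 2 → ℂ) (y : E 2) : ℂ := ∫ x, ex (-⟪x, y⟫) * f x

/-- half-open dyadic square of side `2^-k` -/
def sq (k : ℕ) (a : Fin 2 → ℤ) : Set (E 2) :=
  {x | ∀ i, (a i : ℝ) / 2 ^ k ≤ x i ∧ x i < ((a i : ℝ) + 1) / 2 ^ k}

/-- closed dyadic square of side `2^-k` -/
def cl (k : ℕ) (a : Fin 2 → ℤ) : Set (E 2) :=
  {x | ∀ i, (a i : ℝ) / 2 ^ k ≤ x i ∧ x i ≤ ((a i : ℝ) + 1) / 2 ^ k}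

/-- the lower left corner -/
noncomputable def co (k : ℕ) (a : Fin 2 → ℤ) : E 2 := WithLp.toLp 2 fun i => (a i : ℝ) / 2 ^ k

/-- the index of the dyadic square of level `k` which contains `x` -/
noncomputable def ix (k : ℕ) (x : E 2) : Fin 2 → ℤ := fun i => ⌊2 ^ k * x i⌋

/-- the index of the parent -/
def par (a : Fin 2 → ℤ) : Fin 2 → ℤ := fun i => a i / 2

/-- all second derivatives are at most `4^k` on the closed square `cl k a` -/
def Good (p : Pol) (k : ℕ) (a : Fin 2 → ℤ) : Prop := ∀ x ∈ cl k a, ∀ i j, |d2 p i j x| ≤ 4 ^ k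

/-- the square `a` of level `k + 1` is good, its parent is not -/
def MaxG (p : Pol) (k : ℕ) (a : Fin 2 → ℤ) : Prop := Good p (k + 1) a ∧ ¬ Good p k (par a)

/-- the class of the square `a` of level `k + 1`: the least `l` such that `|J| ≤ 2^l 4^(k+1)` -/
noncomputable def lev (p : Pol) (k : ℕ) (a : Fin 2 → ℤ) : ℕ :=
  sInf {l : ℕ | ∀ x ∈ cl (k + 1) a, |ev (Jp p) x| ≤ 2 ^ l * 4 ^ (k + 1)}

open Classical in
/-- the maximal good squares of level `k + 1` and class `l` in `[-1,1)^2` -/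
noncomputable def T (p : Pol) (k l : ℕ) : Finset (Fin 2 → ℤ) :=
  (Fintype.piFinset fun _ => Finset.Ico (-2 ^ (k + 1) : ℤ) (2 ^ (k + 1))).filter
    fun a => MaxG p k a ∧ lev p k a = l

/-- their union -/
def A (p : Pol) (k l : ℕ) : Set (E 2) := ⋃ a ∈ T p k l, sq (k + 1) a

/-- the square `[-1,1)^2` -/
def SS : Set (E 2) := {x | ∀ i, -1 ≤ x i ∧ x i < 1}

noncomputable def kap (s : ℝ) : ℝ := (1 + |s|)⁻¹

/-- `2^(-max(l, c k))` -/
noncomputable def zz (c : ℝ) (k l : ℕ) : ℝ := (2 : ℝ) ^ (-max (l : ℝ) (c * k))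

/-- the average of `g` over the dyadic square of level `k` -/
noncomputable def av (g : E 2 → ℂ) (k : ℕ) (x : E 2) : ℂ := (4 : ℂ) ^ k * ∫ z in sq k (ix k x), g z

end Pool.Agent.J4.H87.PP
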