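import Mathlib
import Pool.Agent.J4.H87.PP.Defs
import Pool.Agent.Helper186_L38.U1
set_option autoImplicit false

/-! Nondegenerate common zeros of two real polynomials in two variables. -/

namespace Pool.Agent.J4.H87.PP

open MeasureTheory Set MvPolynomial
open scoped ENNReal NNReal RealInnerProductSpace

namespace Bz

lemma ev_mul (f g : Pol) (x : E 2) : ev (f * g) x = ev f x * ev g x := by
  unfold ev
  rw [map_mul]

lemma ev_zero (x : E 2) : ev 0 x = 0 := by
  unfold ev
  rw [map_zero]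

lemma ev_add (f g : Pol) (x : E 2) : ev (f + g) x = ev f x + ev g x := by
  unfold ev
  rw [map_add]

lemma ev_sub (f g : Pol) (x : E 2) : ev (f - g) x = ev f x - ev g x := by
  unfold ev
  rw [map_sub]

lemma ev_C (c : ℝ) (x : E 2) : ev (C c) x = c := by
  unfold ev
  rw [eval_C]

lemma d1_mul (f g : Pol) (i : Fin 2) (x : E 2) :
    d1 (f * g) i x = d1 f i x * ev g x + ev f x * d1 g i x := by
  unfold d1
  rw [pderiv_mul, ev_add, ev_mul, ev_mul]

lemma d1_zero (i : Fin 2) (x : E 2) : d1 0 i x = 0 := by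
  unfold d1
  rw [map_zero, ev_zero]

end Bz

open Bz

theorem bz (f g : Pol) (F : Finset (E 2))
    (hF : ∀ x ∈ F, ev f x = 0 ∧ ev g x = 0 ∧ d1 f 0 x * d1 g 1 x - d1 f 1 x * d1 g 0 x ≠ 0) :
    F.card ≤ f.totalDegree * g.totalDegree := by
  classical
  rcases F.eq_empty_or_nonempty with rfl | ⟨x₀, hx₀⟩
  · simp
  have hf0 : f ≠ 0 := by
    rintro rfl
    apply (hF x₀ hx₀).2.2
    rw [d1_zero, d1_zero]
    ring
  have hg0 : g ≠ 0 := by
    rintro rfl
    apply (hF x₀ hx₀).2.2
    rw [d1_zero, d1_zero]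
    ring
  obtain ⟨f', g', c, hrel, hf, hg⟩ := UniqueFactorizationMonoid.exists_reduced_factors f hf0 g
  have hc0 : c ≠ 0 := by
    rintro rfl
    exact hf0 (by rw [← hf, zero_mul])
  have hf'0 : f' ≠ 0 := by
    rintro rfl
    exact hf0 (by rw [← hf, mul_zero])
  have hg'0 : g' ≠ 0 := by
    rintro rfl
    exact hg0 (by rw [← hg, mul_zero])
  have hinj : Function.Injective fun (x : E 2) (i : Fin 2) => x i := by
    intro x y hxy
    ext i
    exact congrFun hxy i
  have hz : ∀ x ∈ F, ev f' x = 0 ∧ ev g' x = 0 := by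
    intro x hx
    obtain ⟨h1, h2, h3⟩ := hF x hx
    have hc : ev c x ≠ 0 := by
      intro hc
      apply h3
      rw [← hf, ← hg, d1_mul, d1_mul, d1_mul, d1_mul, hc]
      ring
    rw [← hf, ev_mul] at h1
    rw [← hg, ev_mul] at h2
    exact ⟨(mul_eq_zero.1 h1).resolve_left hc, (mul_eq_zero.1 h2).resolve_left hc⟩
  have hcard := Pool.Agent.Helper186_L38.U1aux.card_zeros f' g' hg'0 hrel
    (F.image fun (x : E 2) (i : Fin 2) => x i) (by
      intro q hq
      obtain ⟨x, hx, rfl⟩ := Finset.mem_image.1 hq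
      exact hz x hx)
  rw [Finset.card_image_of_injective _ hinj] at hcard
  refine hcard.trans (Nat.mul_le_mul ?_ ?_)
  · rw [← hf, totalDegree_mul_of_isDomain hc0 hf'0]
    exact Nat.le_add_left _ _
  · rw [← hg, totalDegree_mul_of_isDomain hc0 hg'0]
    exact Nat.le_add_left _ _

end Pool.Agent.J4.H87.PP
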