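import Mathlib
import Pool.Agent.J4.H87.PP.Bz
import Pool.Agent.H422IV.Area
set_option autoImplicit false

/-! The area formula for the gradient of a real polynomial in two variables. -/

namespace Pool.Agent.J4.H87.PP

open MeasureTheory Set MvPolynomial
open scoped ENNReal NNReal RealInnerProductSpace

namespace Ar

open Bz

lemma totalDegree_pderiv_le (i : Fin 2) (p : Pol) :
    (pderiv i p).totalDegree ≤ p.totalDegree := by
  classical
  unfold totalDegree
  apply Finset.sup_le
  intro m hm
  rw [mem_support_iff, coeff_pderiv] at hm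
  have h1 : m + Finsupp.single i 1 ∈ p.support := by
    rw [mem_support_iff]
    intro h0
    rw [h0, zero_mul] at hm
    exact hm rfl
  have h2 := Finset.le_sup (f := fun s : Fin 2 →₀ ℕ => s.sum fun _ e => e) h1
  refine le_trans ?_ h2
  rw [Finsupp.sum_add_index' (by simp) (by simp)]
  exact Nat.le_add_right _ _

lemma ev_X (j : Fin 2) (x : E 2) : ev (X j) x = x j := by
  unfold ev
  rw [eval_X]

lemma contDiff_ev (q : Pol) : ContDiff ℝ 1 fun x : E 2 => ev q x := by
  induction q using MvPolynomial.induction_on with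
  | C a =>
    simp only [ev_C]
    exact contDiff_const
  | add p q hp hq =>
    simp only [ev_add]
    exact hp.add hq
  | mul_X p j hp =>
    simp only [ev_mul, ev_X]
    exact hp.mul (EuclideanSpace.proj (𝕜 := ℝ) j).contDiff

/-- the derivative of a polynomial -/
lemma hasFDerivAt_ev (q : Pol) (x : E 2) :
    HasFDerivAt (fun x : E 2 => ev q x)
      (d1 q 0 x • (EuclideanSpace.proj (𝕜 := ℝ) (0 : Fin 2) : E 2 →L[ℝ] ℝ) +
        d1 q 1 x • (EuclideanSpace.proj (𝕜 := ℝ) (1 : Fin 2) : E 2 →L[ℝ] ℝ)) x := by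
  induction q using MvPolynomial.induction_on with
  | C a =>
    simp only [ev_C, d1, pderiv_C, ev_zero, zero_smul, add_zero]
    exact hasFDerivAt_const _ _
  | add p q hp hq =>
    have h := hp.add hq
    have e : (fun x : E 2 => ev (p + q) x) = (fun x : E 2 => ev p x) + fun x : E 2 => ev q x := by
      funext x
      exact ev_add _ _ _
    rw [e]
    refine h.congr_fderiv ?_
    have e0 : ∀ i, d1 (p + q) i x = d1 p i x + d1 q i x := fun i => by
      unfold d1
      rw [map_add, ev_add]
    rw [e0, e0]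
    module
  | mul_X p j hp =>
    have h := hp.mul (EuclideanSpace.proj (𝕜 := ℝ) j : E 2 →L[ℝ] ℝ).hasFDerivAt
    have e : (fun x : E 2 => ev (p * X j) x) =
        (fun x : E 2 => ev p x) * fun x : E 2 => (EuclideanSpace.proj (𝕜 := ℝ) j : E 2 →L[ℝ] ℝ) x := by
      funext x
      simp only [ev_mul, ev_X, Pi.mul_apply]
      rfl
    rw [e]
    refine h.congr_fderiv ?_
    have e0 : ∀ i, d1 (p * X j) i x = d1 p i x * x j + ev p x * (if j = i then 1 else 0) := by
      intro i
      rw [d1_mul, ev_X]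
      congr 2
      unfold d1
      rw [pderiv_X]
      by_cases hij : j = i
      · subst hij
        rw [Pi.single_eq_same, if_pos rfl, ← C_1, ev_C]
      · rw [if_neg hij, Pi.single_eq_of_ne hij, ev_zero]
    have e1 : (EuclideanSpace.proj (𝕜 := ℝ) j : E 2 →L[ℝ] ℝ) x = x j := rfl
    rw [e0, e0, e1]
    fin_cases j
    · simp only [Fin.zero_eta, Fin.isValue, if_true, if_neg (show (0 : Fin 2) ≠ 1 by decide)]
      module
    · simp only [Fin.mk_one, Fin.isValue, if_true, if_neg (show (1 : Fin 2) ≠ 0 by decide)]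
      module

/-- the gradient map -/
noncomputable def Gam (p : Pol) (x : E 2) : E 2 := WithLp.toLp 2 fun i => d1 p i x

lemma contDiff_Gam (p : Pol) : ContDiff ℝ 1 (Gam p) := by
  rw [contDiff_euclidean]
  intro i
  exact contDiff_ev (pderiv i p)

lemma fderiv_Gam (p : Pol) (x : E 2) (i j : Fin 2) :
    (fderiv ℝ (Gam p) x (EuclideanSpace.single j 1)) i = d1 (pderiv i p) j x := by
  have h1 : HasFDerivAt (Gam p) (fderiv ℝ (Gam p) x) x :=
    ((contDiff_Gam p).differentiable (by norm_num) x).hasFDerivAt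
  have h2 := ((EuclideanSpace.proj (𝕜 := ℝ) i : E 2 →L[ℝ] ℝ).hasFDerivAt (x := Gam p x)).comp x h1
  have h3 : HasFDerivAt (fun x : E 2 => (Gam p x) i) _ x := hasFDerivAt_ev (pderiv i p) x
  have h4 := h2.unique h3
  have h5 := congrArg (fun L : E 2 →L[ℝ] ℝ => L (EuclideanSpace.single j 1)) h4
  have e : ∀ (k : Fin 2) (v : E 2), (EuclideanSpace.proj (𝕜 := ℝ) k : E 2 →L[ℝ] ℝ) v = v k :=
    fun _ _ => rfl
  simp only [ContinuousLinearMap.comp_apply, add_apply, smul_apply, e, smul_eq_mul] at h5
  rw [h5]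
  fin_cases j <;> simp

lemma det_eq (p : Pol) (x : E 2) : (fderiv ℝ (Gam p) x).det = ev (Jp p) x := by
  have hdet : (fderiv ℝ (Gam p) x).det =
      LinearMap.det ((fderiv ℝ (Gam p) x : E 2 →L[ℝ] E 2) : E 2 →ₗ[ℝ] E 2) := rfl
  rw [hdet, ← LinearMap.det_toMatrix (EuclideanSpace.basisFun (Fin 2) ℝ).toBasis,
    Matrix.det_fin_two]
  have e : ∀ i j, LinearMap.toMatrix (EuclideanSpace.basisFun (Fin 2) ℝ).toBasis
      (EuclideanSpace.basisFun (Fin 2) ℝ).toBasis
      ((fderiv ℝ (Gam p) x : E 2 →L[ℝ] E 2) : E 2 →ₗ[ℝ] E 2) i j = d1 (pderiv i p) j x := by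
    intro i j
    rw [LinearMap.toMatrix_apply]
    simp only [OrthonormalBasis.coe_toBasis, OrthonormalBasis.coe_toBasis_repr_apply,
      EuclideanSpace.basisFun_apply, EuclideanSpace.basisFun_repr, ContinuousLinearMap.coe_coe]
    exact fderiv_Gam p x i j
  rw [e, e, e, e]
  unfold Jp d1
  rw [ev_sub, ev_mul, ev_mul]
  ring

lemma box_vol (z : E 2) (r : ℝ) (hr : 0 < r) :
    volume {w : E 2 | ∀ i, |w i - z i| ≤ r} = ENNReal.ofReal ((2 * r) ^ 2) := by
  have h1 : {w : E 2 | ∀ i, |w i - z i| ≤ r} =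
      (WithLp.ofLp : E 2 → (Fin 2 → ℝ)) ⁻¹' Icc (fun i => z i - r) (fun i => z i + r) := by
    ext w
    simp only [Set.mem_ofPred_eq, mem_preimage, mem_Icc, Pi.le_def]
    constructor
    · intro h
      exact ⟨fun i => by have := abs_le.1 (h i); linarith, fun i => by have := abs_le.1 (h i); linarith⟩
    · rintro ⟨h2, h3⟩ i
      rw [abs_le]
      have := h2 i
      have := h3 i
      constructor <;> linarith
  rw [h1, (PiLp.volume_preserving_ofLp (Fin 2)).measure_preimage measurableSet_Icc.nullMeasurableSet,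
    Real.volume_Icc_pi]
  simp only [Fin.prod_univ_two]
  rw [← ENNReal.ofReal_mul (by linarith)]
  congr 1
  ring

end Ar

open Ar Bz

theorem ar (p : Pol) (z : E 2) (r lam : ℝ) (hr : 0 < r) (hl : 0 < lam) :
    volume {x : E 2 | (∀ i, |d1 p i x - z i| ≤ r) ∧ lam ≤ |ev (Jp p) x|} ≤
      ENNReal.ofReal ((p.totalDegree : ℝ) ^ 2 * (2 * r) ^ 2 / lam) := by
  classical
  set D : Set (E 2) := {x : E 2 | (∀ i, |d1 p i x - z i| ≤ r) ∧ lam ≤ |ev (Jp p) x|} with hD
  have hcont : ∀ q : Pol, Continuous fun x : E 2 => ev q x := fun q => (contDiff_ev q).continuous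
  have hDc : IsClosed D := by
    have h1 : D = (⋂ i, {x : E 2 | |d1 p i x - z i| ≤ r}) ∩ {x : E 2 | lam ≤ |ev (Jp p) x|} := by
      ext x
      simp [hD]
    rw [h1]
    refine IsClosed.inter (isClosed_iInter fun i => ?_) ?_
    · exact isClosed_le (((hcont (pderiv i p)).sub continuous_const).abs) continuous_const
    · exact isClosed_le continuous_const (hcont (Jp p)).abs
  have hDm : MeasurableSet D := hDc.measurableSet
  have hdet : ∀ x ∈ D, (fderiv ℝ (Gam p) x).det ≠ 0 := by
    intro x hx h0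
    rw [det_eq] at h0
    have := hx.2
    rw [h0, abs_zero] at this
    linarith
  obtain ⟨hmeas, harea⟩ := Pool.Agent.H422IV.area (Gam p) (contDiff_Gam p) D hDm hdet
  set B : Set (E 2) := {w : E 2 | ∀ i, |w i - z i| ≤ r} with hB
  have hBm : MeasurableSet B := by
    have h1 : B = ⋂ i, {w : E 2 | |w i - z i| ≤ r} := by
      ext x
      simp [hB]
    rw [h1]
    refine MeasurableSet.iInter fun i => (isClosed_le ?_ continuous_const).measurableSet
    exact ((EuclideanSpace.proj (𝕜 := ℝ) i).continuous.sub continuous_const).abs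
  have hcnt : ∀ w, Pool.Agent.H422IV.cnt (Gam p) D w ≤
      B.indicator (fun _ => ((p.totalDegree ^ 2 : ℕ) : ℝ≥0∞)) w := by
    intro w
    unfold Pool.Agent.H422IV.cnt
    by_cases hw : w ∈ B
    · rw [indicator_of_mem hw]
      have hfin : ∀ F : Finset (E 2), (F : Set (E 2)) ⊆ D ∩ Gam p ⁻¹' {w} →
          F.card ≤ p.totalDegree ^ 2 := by
        intro F hF
        have hb := bz (pderiv 0 p - C (w 0)) (pderiv 1 p - C (w 1)) F (by
          intro x hx
          obtain ⟨h1, h2⟩ := hF hx
          have h3 : Gam p x = w := h2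
          refine ⟨?_, ?_, ?_⟩
          · rw [ev_sub, ev_C, ← h3]
            exact sub_self _
          · rw [ev_sub, ev_C, ← h3]
            exact sub_self _
          · have h4 : ev (Jp p) x ≠ 0 := by
              intro h0
              have := h1.2
              rw [h0, abs_zero] at this
              linarith
            intro h5
            apply h4
            unfold Jp
            rw [ev_sub, ev_mul, ev_mul]
            unfold d1 at h5
            simp only [map_sub, pderiv_C, sub_zero] at h5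
            linarith)
        refine hb.trans ?_
        rw [pow_two]
        exact Nat.mul_le_mul ((totalDegree_sub_C_le _ _).trans (totalDegree_pderiv_le _ _))
          ((totalDegree_sub_C_le _ _).trans (totalDegree_pderiv_le _ _))
      have hSf : (D ∩ Gam p ⁻¹' {w}).Finite := by
        by_contra hinf
        obtain ⟨F, hF, hFc⟩ := (Set.not_finite.1 hinf).exists_subset_card_eq (p.totalDegree ^ 2 + 1)
        have := hfin F hF
        omega
      rw [Measure.count_apply_finite _ hSf]
      have := hfin hSf.toFinset (by rw [Set.Finite.coe_toFinset])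
      exact_mod_cast this
    · rw [indicator_of_notMem hw]
      have h1 : D ∩ Gam p ⁻¹' {w} = ∅ := by
        ext x
        simp only [mem_inter_iff, mem_preimage, mem_singleton_iff, mem_empty_iff_false, iff_false]
        rintro ⟨h2, h3⟩
        apply hw
        intro i
        rw [← h3]
        exact h2.1 i
      rw [h1, measure_empty]
  have h1 : ENNReal.ofReal lam * volume D ≤ ((p.totalDegree ^ 2 : ℕ) : ℝ≥0∞) * ENNReal.ofReal ((2 * r) ^ 2) := by
    calc ENNReal.ofReal lam * volume D = ∫⁻ _ in D, ENNReal.ofReal lam := by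
          rw [setLIntegral_const]
      _ ≤ ∫⁻ x in D, ENNReal.ofReal |(fderiv ℝ (Gam p) x).det| := by
          refine setLIntegral_mono' hDm fun x hx => ENNReal.ofReal_le_ofReal ?_
          rw [det_eq]
          exact hx.2
      _ = ∫⁻ w, Pool.Agent.H422IV.cnt (Gam p) D w := harea.symm
      _ ≤ ∫⁻ w, B.indicator (fun _ => ((p.totalDegree ^ 2 : ℕ) : ℝ≥0∞)) w := lintegral_mono hcnt
      _ = ((p.totalDegree ^ 2 : ℕ) : ℝ≥0∞) * volume B := by
          rw [lintegral_indicator hBm, setLIntegral_const]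
      _ = _ := by rw [hB, box_vol z r hr]
  have h2 : ENNReal.ofReal ((p.totalDegree : ℝ) ^ 2 * (2 * r) ^ 2 / lam) =
      ((p.totalDegree ^ 2 : ℕ) : ℝ≥0∞) * ENNReal.ofReal ((2 * r) ^ 2) / ENNReal.ofReal lam := by
    rw [ENNReal.ofReal_div_of_pos hl, ENNReal.ofReal_mul (by positivity)]
    congr 2
    rw [← ENNReal.ofReal_natCast]
    congr 1
    push_cast
    rfl
  rw [h2, ENNReal.le_div_iff_mul_le (Or.inl (by simpa using hl)) (Or.inl ENNReal.ofReal_ne_top), mul_comm]
  exact h1

end Pool.Agent.J4.H87.PP
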