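import Pool.Agent.J4.H87.PP.Defs
set_option autoImplicit false

/-! Averages over dyadic squares. -/

namespace Pool.Agent.J4.H87.PP

open MeasureTheory Set MvPolynomial
open scoped ENNReal NNReal RealInnerProductSpace

theorem ix_iff (k : ℕ) (a : Fin 2 → ℤ) (x : E 2) : x ∈ sq k a ↔ ix k x = a := by
  have hp : (0 : ℝ) < 2 ^ k := by positivity
  unfold sq ix
  rw [Set.mem_ofPred_eq, funext_iff]
  refine forall_congr' fun i => ?_
  rw [Int.floor_eq_iff, div_le_iff₀ hp, lt_div_iff₀ hp, mul_comm (x i)]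

theorem par_ix (k : ℕ) (x : E 2) : par (ix (k + 1) x) = ix k x := by
  funext i
  unfold par ix
  have h1 := Int.floor_le (2 ^ k * x i)
  have h2 := Int.lt_floor_add_one (2 ^ k * x i)
  have h3 : 2 * ⌊2 ^ k * x i⌋ ≤ ⌊2 ^ (k + 1) * x i⌋ := by
    rw [Int.le_floor]
    push_cast
    rw [pow_succ]
    linarith
  have h4 : ⌊2 ^ (k + 1) * x i⌋ < 2 * ⌊2 ^ k * x i⌋ + 2 := by
    rw [Int.floor_lt]
    push_cast
    rw [pow_succ]
    linarith
  omega

lemma box_vol (a b : Fin 2 → ℝ) : volume {x : E 2 | ∀ i, a i ≤ x i ∧ x i < b i} =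
    ENNReal.ofReal (b 0 - a 0) * ENNReal.ofReal (b 1 - a 1) := by
  have h1 : {x : E 2 | ∀ i, a i ≤ x i ∧ x i < b i} =
      (MeasurableEquiv.toLp 2 (Fin 2 → ℝ)).symm ⁻¹' (Set.pi univ fun i => Ico (a i) (b i)) := by
    ext x
    simp only [Set.mem_ofPred_eq, mem_preimage, mem_pi, mem_univ, forall_true_left, mem_Ico]
    rfl
  rw [h1, (EuclideanSpace.volume_preserving_symm_measurableEquiv_toLp (Fin 2)).measure_preimage_equiv,
    Real.volume_pi_Ico, Fin.prod_univ_two]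

theorem sq_vol (k : ℕ) (a : Fin 2 → ℤ) : volume (sq k a) = ENNReal.ofReal (((4 : ℝ) ^ k)⁻¹) := by
  have h := box_vol (fun i => (a i : ℝ) / 2 ^ k) (fun i => ((a i : ℝ) + 1) / 2 ^ k)
  unfold sq
  rw [h, ← ENNReal.ofReal_mul]
  · congr 1
    have hp : (0 : ℝ) < 2 ^ k := by positivity
    have e : (4 : ℝ) ^ k = 2 ^ k * 2 ^ k := by rw [← mul_pow]; norm_num
    rw [e]
    field_simp
    ring
  · have hp : (0 : ℝ) < 2 ^ k := by positivity
    rw [← sub_div, add_sub_cancel_left]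
    positivity

theorem ix_meas (k : ℕ) : Measurable (ix k) := by
  refine measurable_pi_lambda _ fun i => ?_
  unfold ix
  exact Int.measurable_floor.comp (measurable_const.mul (by fun_prop))

theorem sq_meas (k : ℕ) (a : Fin 2 → ℤ) : MeasurableSet (sq k a) := by
  have h : sq k a = ix k ⁻¹' {a} := by
    ext x
    rw [ix_iff]
    rfl
  rw [h]
  exact ix_meas k (measurableSet_singleton a)

theorem av_meas (g : E 2 → ℂ) (k : ℕ) : Measurable (av g k) := by
  have h : av g k = (fun a : Fin 2 → ℤ => (4 : ℂ) ^ k * ∫ z in sq k a, g z) ∘ ix k := rfl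
  rw [h]
  exact Measurable.of_discrete.comp (ix_meas k)

theorem av_le (g : E 2 → ℂ) (hg : Integrable g) (h1 : ∀ x, ‖g x‖ ≤ 1) (k : ℕ) (x : E 2) : ‖av g k x‖ ≤ 1 := by
  unfold av
  have h4 : (0 : ℝ) < 4 ^ k := by positivity
  have h2 : ‖∫ z in sq k (ix k x), g z‖ ≤ 1 * (volume.real (sq k (ix k x))) := by
    apply norm_setIntegral_le_of_norm_le_const
    · rw [sq_vol]
      exact ENNReal.ofReal_lt_top
    · intro z _
      exact h1 z
  rw [Measure.real, sq_vol, ENNReal.toReal_ofReal (by positivity), one_mul] at h2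
  rw [norm_mul, norm_pow, Complex.norm_ofNat]
  calc (4 : ℝ) ^ k * ‖∫ z in sq k (ix k x), g z‖ ≤ 4 ^ k * ((4 : ℝ) ^ k)⁻¹ :=
        mul_le_mul_of_nonneg_left h2 h4.le
    _ = 1 := mul_inv_cancel₀ h4.ne'

/-- the difference to the average, pointwise -/
lemma av_sub (g : E 2 → ℂ) (hg : Integrable g) (k : ℕ) (x : E 2) :
    ‖av g k x - g x‖ₑ ≤ (4 : ℝ≥0∞) ^ k * ∫⁻ z in sq k (ix k x), ‖g z - g x‖ₑ := by
  have h4 : (0 : ℝ) < 4 ^ k := by positivity
  have hfin : volume (sq k (ix k x)) < ⊤ := by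
    rw [sq_vol]
    exact ENNReal.ofReal_lt_top
  have : IsFiniteMeasure (volume.restrict (sq k (ix k x))) := ⟨by rwa [Measure.restrict_apply_univ]⟩
  have h1 : av g k x - g x = (4 : ℂ) ^ k * ∫ z in sq k (ix k x), (g z - g x) := by
    rw [integral_sub hg.integrableOn (integrable_const _), integral_const, Measure.real,
      Measure.restrict_apply_univ, sq_vol, ENNReal.toReal_ofReal (by positivity), mul_sub]
    unfold av
    congr 1
    rw [Complex.real_smul]
    push_cast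
    have : (4 : ℂ) ^ k ≠ 0 := pow_ne_zero _ (by norm_num)
    rw [← mul_assoc, mul_inv_cancel₀ this, one_mul]
  rw [h1, enorm_mul]
  refine mul_le_mul' (le_of_eq ?_) (enorm_integral_le_lintegral_enorm _)
  rw [enorm_pow]
  congr 1
  rw [← ofReal_norm]
  norm_num

theorem av_mod (g : E 2 → ℂ) (hg : Integrable g) (V s : ℝ) (hs : 0 ≤ s) (hs1 : s ≤ 1) (hV : 0 ≤ V)
    (h : ∀ v : E 2, ∫⁻ x, ‖g (x + v) - g x‖ₑ ≤ ENNReal.ofReal (V * ‖v‖ ^ s)) (k : ℕ) :
    ∫⁻ x, ‖av g k x - g x‖ₑ ≤ ENNReal.ofReal (8 * V * (2 : ℝ) ^ (-(s * k))) := by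
  -- a measurable representative
  obtain ⟨g', hg', he⟩ : ∃ g' : E 2 → ℂ, StronglyMeasurable g' ∧ g =ᵐ[volume] g' :=
    ⟨hg.1.mk g, hg.1.stronglyMeasurable_mk, hg.1.ae_eq_mk⟩
  have hgi : Integrable g' := hg.congr he
  have hav : ∀ x, av g k x = av g' k x := by
    intro x
    unfold av
    congr 1
    exact integral_congr_ae (ae_restrict_of_ae he)
  have hsh : ∀ v : E 2, (fun x => g (x + v)) =ᵐ[volume] fun x => g' (x + v) := fun v =>
    (measurePreserving_add_right volume v).quasiMeasurePreserving.ae_eq_comp he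
  have h' : ∀ v : E 2, ∫⁻ x, ‖g' (x + v) - g' x‖ₑ ≤ ENNReal.ofReal (V * ‖v‖ ^ s) := by
    intro v
    refine le_trans (le_of_eq (lintegral_congr_ae ?_)) (h v)
    filter_upwards [he, hsh v] with x h1 h2
    have h2' : g (x + v) = g' (x + v) := h2
    rw [h1, h2']
  have hL : ∫⁻ x, ‖av g k x - g x‖ₑ = ∫⁻ x, ‖av g' k x - g' x‖ₑ := by
    refine lintegral_congr_ae ?_
    filter_upwards [he] with x h1
    rw [h1, hav]
  rw [hL]
  have hpk : (0 : ℝ) < 2 ^ k := by positivity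
  obtain ⟨Q, hQ⟩ : ∃ Q : Set (E 2), Q = {x : E 2 | ∀ i, -(1 / 2 ^ k : ℝ) ≤ x i ∧ x i < 1 / 2 ^ k} := ⟨_, rfl⟩
  have hQv : volume Q = ENNReal.ofReal (4 * ((4 : ℝ) ^ k)⁻¹) := by
    have h1 := box_vol (fun _ => -(1 / 2 ^ k : ℝ)) (fun _ => (1 / 2 ^ k : ℝ))
    rw [hQ, h1, ← ENNReal.ofReal_mul (by have : (0 : ℝ) < 1 / 2 ^ k := by positivity
                                         linarith)]
    congr 1
    have e : (4 : ℝ) ^ k = 2 ^ k * 2 ^ k := by rw [← mul_pow]; norm_num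
    rw [e]
    field_simp
    ring
  have hQm : MeasurableSet Q := by
    rw [hQ]
    have : {x : E 2 | ∀ i, -(1 / 2 ^ k : ℝ) ≤ x i ∧ x i < 1 / 2 ^ k} =
        ⋂ i, {x : E 2 | -(1 / 2 ^ k : ℝ) ≤ x i ∧ x i < 1 / 2 ^ k} := by
      ext x
      simp
    rw [this]
    refine MeasurableSet.iInter fun i => ?_
    have hm : Measurable fun x : E 2 => x i := by fun_prop
    exact (measurableSet_le measurable_const hm).inter (measurableSet_lt hm measurable_const)
  have hQn : ∀ v ∈ Q, ‖v‖ ^ s ≤ 2 * (2 : ℝ) ^ (-(s * k)) := by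
    intro v hv
    rw [hQ] at hv
    have h1 : ∀ i, (v i) ^ 2 ≤ (1 / 2 ^ k : ℝ) ^ 2 := by
      intro i
      apply sq_le_sq'
      · exact (hv i).1
      · exact (hv i).2.le
    have h2 : ‖v‖ ≤ 2 * (1 / 2 ^ k : ℝ) := by
      rw [EuclideanSpace.norm_eq]
      apply Real.sqrt_le_iff.2
      refine ⟨by positivity, ?_⟩
      rw [Fin.sum_univ_two]
      have h3 := h1 0
      have h4 := h1 1
      simp only [Real.norm_eq_abs, sq_abs]
      nlinarith [sq_nonneg (1 / 2 ^ k : ℝ)]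
    calc ‖v‖ ^ s ≤ (2 * (1 / 2 ^ k : ℝ)) ^ s := Real.rpow_le_rpow (norm_nonneg _) h2 hs
      _ = 2 ^ s * (1 / 2 ^ k : ℝ) ^ s := Real.mul_rpow (by norm_num) (by positivity)
      _ ≤ 2 * (2 : ℝ) ^ (-(s * k)) := by
          apply mul_le_mul _ (le_of_eq _) (by positivity) (by norm_num)
          · calc (2 : ℝ) ^ s ≤ 2 ^ (1 : ℝ) := Real.rpow_le_rpow_of_exponent_le (by norm_num) hs1
              _ = 2 := Real.rpow_one 2
          · rw [one_div, ← Real.rpow_natCast, ← Real.rpow_neg (by norm_num), ← Real.rpow_mul (by norm_num)]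
            congr 1
            ring
  -- pointwise
  have hpt : ∀ x : E 2, ‖av g' k x - g' x‖ₑ ≤ ∫⁻ v in Q, (4 : ℝ≥0∞) ^ k * ‖g' (x + v) - g' x‖ₑ := by
    intro x
    refine (av_sub g' hgi k x).trans ?_
    rw [lintegral_const_mul' _ _ (by finiteness)]
    refine mul_le_mul_right ?_ _
    rw [← lintegral_indicator (sq_meas _ _), ← lintegral_indicator hQm,
      ← lintegral_add_left_eq_self _ x]
    refine lintegral_mono fun v => ?_
    by_cases hv : x + v ∈ sq k (ix k x)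
    · rw [indicator_of_mem hv]
      have hvQ : v ∈ Q := by
        rw [hQ]
        intro i
        have h1 : x ∈ sq k (ix k x) := (ix_iff k _ x).2 rfl
        have h2 := h1 i
        have h3 := hv i
        have h4 : (x + v) i = x i + v i := rfl
        rw [h4] at h3
        have h5 : ((ix k x i : ℝ) + 1) / 2 ^ k = (ix k x i : ℝ) / 2 ^ k + 1 / 2 ^ k := by ring
        rw [h5] at h2 h3
        constructor
        · linarith [h2.2, h3.1]
        · linarith [h2.1, h3.2]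
      rw [indicator_of_mem hvQ]
    · rw [indicator_of_notMem hv]
      exact zero_le
  have hmeas : Measurable (fun p : E 2 × E 2 => (4 : ℝ≥0∞) ^ k * ‖g' (p.1 + p.2) - g' p.1‖ₑ) := by
    have hm := hg'.measurable
    exact measurable_const.mul ((hm.comp (measurable_fst.add measurable_snd)).sub
      (hm.comp measurable_fst)).enorm
  calc ∫⁻ x, ‖av g' k x - g' x‖ₑ ≤ ∫⁻ x, ∫⁻ v in Q, (4 : ℝ≥0∞) ^ k * ‖g' (x + v) - g' x‖ₑ :=
        lintegral_mono hpt
    _ = ∫⁻ v in Q, ∫⁻ x, (4 : ℝ≥0∞) ^ k * ‖g' (x + v) - g' x‖ₑ :=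
        lintegral_lintegral_swap hmeas.aemeasurable
    _ ≤ ∫⁻ v in Q, (4 : ℝ≥0∞) ^ k * ENNReal.ofReal (V * (2 * (2 : ℝ) ^ (-(s * k)))) := by
        refine setLIntegral_mono' hQm fun v hv => ?_
        rw [lintegral_const_mul' _ _ (by finiteness)]
        refine mul_le_mul_right ((h' v).trans ?_) _
        exact ENNReal.ofReal_le_ofReal (mul_le_mul_of_nonneg_left (hQn v hv) hV)
    _ = (4 : ℝ≥0∞) ^ k * ENNReal.ofReal (V * (2 * (2 : ℝ) ^ (-(s * k)))) *
        ENNReal.ofReal (4 * ((4 : ℝ) ^ k)⁻¹) := by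
        rw [setLIntegral_const, hQv]
    _ = ENNReal.ofReal (8 * V * (2 : ℝ) ^ (-(s * k))) := by
        have e : (4 : ℝ≥0∞) ^ k = ENNReal.ofReal ((4 : ℝ) ^ k) := by
          rw [ENNReal.ofReal_pow (by norm_num)]
          norm_num
        rw [e, ← ENNReal.ofReal_mul (by positivity), ← ENNReal.ofReal_mul (by positivity)]
        congr 1
        have h4 : (4 : ℝ) ^ k ≠ 0 := by positivity
        field_simp
        ring

end Pool.Agent.J4.H87.PP
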