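import Pool.Agent.J4.H87.PP.Defs

set_option autoImplicit false

/-! Counting the squares whose frequencies lie in a given box. -/

namespace Pool.Agent.J4.H87.PP

open MeasureTheory Set MvPolynomial
open scoped ENNReal NNReal RealInnerProductSpace

namespace Cnt

/-! ### Squares -/

lemma sq_pre (k : ℕ) (a : Fin 2 → ℤ) : sq k a = (WithLp.ofLp : E 2 → (Fin 2 → ℝ)) ⁻¹'
    (Set.pi Set.univ fun i => Ico ((a i : ℝ) / 2 ^ k) (((a i : ℝ) + 1) / 2 ^ k)) := by
  ext x
  simp only [sq, mem_ofPred_eq, mem_preimage, Set.mem_pi, mem_univ, true_imp_iff, mem_Ico]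

lemma sq_measurable (k : ℕ) (a : Fin 2 → ℤ) : MeasurableSet (sq k a) := by
  rw [sq_pre]
  exact (PiLp.volume_preserving_ofLp (Fin 2)).measurable
    (MeasurableSet.univ_pi fun i => measurableSet_Ico)

lemma sq_volume (k : ℕ) (a : Fin 2 → ℤ) :
    volume (sq k a) = ENNReal.ofReal (((4 : ℝ) ^ k)⁻¹) := by
  rw [sq_pre, (PiLp.volume_preserving_ofLp (Fin 2)).measure_preimage
    (MeasurableSet.univ_pi fun i => measurableSet_Ico).nullMeasurableSet, Real.volume_pi_Ico]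
  have h : ∀ i, ((a i : ℝ) + 1) / 2 ^ k - (a i : ℝ) / 2 ^ k = ((2 : ℝ) ^ k)⁻¹ := by
    intro i
    ring
  simp only [h]
  rw [Finset.prod_const, Finset.card_univ, Fintype.card_fin, ← ENNReal.ofReal_pow (by positivity)]
  congr 1
  rw [← inv_pow, ← inv_pow, ← pow_mul, mul_comm, pow_mul]
  norm_num

lemma sq_disj (k : ℕ) {a b : Fin 2 → ℤ} (h : a ≠ b) : Disjoint (sq k a) (sq k b) := by
  rw [Set.disjoint_left]
  intro x ha hb
  apply h
  funext i
  have h2 : (0 : ℝ) < 2 ^ k := by positivity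
  have h3 := (ha i).1.trans_lt (hb i).2
  have h4 := (hb i).1.trans_lt (ha i).2
  rw [div_lt_div_iff_of_pos_right h2] at h3 h4
  have h5 : a i < b i + 1 := by exact_mod_cast h3
  have h6 : b i < a i + 1 := by exact_mod_cast h4
  omega

lemma sq_cl (k : ℕ) (a : Fin 2 → ℤ) : sq k a ⊆ cl k a := fun _ hx i => ⟨(hx i).1, (hx i).2.le⟩

/-! ### Polynomials -/

lemma hasDerivAt_ev (f : Pol) (y v : E 2) (s : ℝ) :
    HasDerivAt (fun s : ℝ => ev f (y + s • v))
      (d1 f 0 (y + s • v) * v 0 + d1 f 1 (y + s • v) * v 1) s := by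
  induction f using MvPolynomial.induction_on with
  | C a =>
    simp only [ev, d1, eval_C, pderiv_C, map_zero, zero_mul, add_zero]
    exact hasDerivAt_const _ _
  | add f g hf hg =>
    have h := hf.add hg
    have e : (fun s : ℝ => ev (f + g) (y + s • v)) =
        (fun s : ℝ => ev f (y + s • v)) + fun s : ℝ => ev g (y + s • v) := by
      funext s
      simp only [ev, map_add, Pi.add_apply]
    rw [e]
    refine h.congr_deriv ?_
    simp only [d1, ev, map_add]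
    ring
  | mul_X f i hf =>
    have hl : HasDerivAt (fun s : ℝ => (y + s • v) i) (v i) s := by
      have h1 : (fun s : ℝ => (y + s • v) i) = fun s : ℝ => y i + s * v i := by
        funext s
        simp only [PiLp.add_apply, PiLp.smul_apply, smul_eq_mul]
      rw [h1]
      have h2 := ((hasDerivAt_id s).mul_const (v i)).const_add (y i)
      simpa using h2
    have h := hf.mul hl
    have e : (fun s : ℝ => ev (f * X i) (y + s • v)) =
        (fun s : ℝ => ev f (y + s • v)) * fun s : ℝ => (y + s • v) i := by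
      funext s
      simp only [ev, map_mul, eval_X, Pi.mul_apply]
    rw [e]
    refine h.congr_deriv ?_
    have hi : ∀ j : Fin 2, d1 (f * X i) j (y + s • v) =
        d1 f j (y + s • v) * (y + s • v) i + ev f (y + s • v) * (if i = j then 1 else 0) := by
      intro j
      simp only [d1, ev, pderiv_mul, map_add, map_mul, eval_X]
      congr 2
      by_cases hij : i = j
      · subst hij
        rw [pderiv_X_self, map_one, if_pos rfl]
      · rw [pderiv_X_of_ne hij, map_zero, if_neg hij]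
    rw [hi 0, hi 1]
    fin_cases i
    · simp
      ring
    · simp
      ring

lemma ev_bound (f : Pol) (x y : E 2) (M : ℝ)
    (h : ∀ s ∈ Icc (0 : ℝ) 1, ∀ j, |d1 f j (y + s • (x - y))| ≤ M) :
    |ev f x - ev f y| ≤ M * |x 0 - y 0| + M * |x 1 - y 1| := by
  have h1 := norm_image_sub_le_of_norm_deriv_le_segment_01'
    (f := fun s : ℝ => ev f (y + s • (x - y)))
    (f' := fun s : ℝ => d1 f 0 (y + s • (x - y)) * (x - y) 0 + d1 f 1 (y + s • (x - y)) * (x - y) 1)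
    (C := M * |x 0 - y 0| + M * |x 1 - y 1|)
    (fun s _ => (hasDerivAt_ev f y (x - y) s).hasDerivWithinAt) (by
      intro s hs
      rw [Real.norm_eq_abs]
      refine (abs_add_le _ _).trans (add_le_add ?_ ?_)
      · rw [abs_mul]
        exact mul_le_mul_of_nonneg_right (h s (Ico_subset_Icc_self hs) 0) (abs_nonneg _)
      · rw [abs_mul]
        exact mul_le_mul_of_nonneg_right (h s (Ico_subset_Icc_self hs) 1) (abs_nonneg _))
  simp only [one_smul, zero_smul, add_zero, add_sub_cancel, Real.norm_eq_abs] at h1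
  exact h1

lemma deg_pderiv (f : Pol) (i : Fin 2) : (pderiv i f).totalDegree ≤ f.totalDegree := by
  classical
  refine Finset.sup_le fun m hm => ?_
  rw [mem_support_iff, coeff_pderiv] at hm
  have h1 : m + Finsupp.single i 1 ∈ f.support := by
    rw [mem_support_iff]
    exact left_ne_zero_of_mul hm
  have h2 := le_totalDegree h1
  rw [Finsupp.sum_add_index' (fun _ => rfl) (fun _ _ _ => rfl),
    Finsupp.sum_single_index rfl] at h2
  omega

lemma deg_Jp (p : Pol) {n : ℕ} (h : p.totalDegree ≤ n) : (Jp p).totalDegree ≤ 2 * n := by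
  have h2 : ∀ i j : Fin 2, (pderiv i (pderiv j p)).totalDegree ≤ n := fun i j =>
    (deg_pderiv _ i).trans ((deg_pderiv p j).trans h)
  unfold Jp
  refine (totalDegree_sub _ _).trans (max_le ?_ ?_)
  · refine (totalDegree_mul _ _).trans ?_
    have := h2 0 0
    have := h2 1 1
    omega
  · refine (totalDegree_mul _ _).trans ?_
    have := h2 0 1
    have := h2 1 0
    omega

/-- the gradient on a good square -/
lemma grad (p : Pol) (k : ℕ) (a : Fin 2 → ℤ) (hG : Good p k a) (z : E 2) (i : Fin 2)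
    (hz : |d1 p i (co k a) - z i| ≤ 2 ^ k) (x : E 2) (hx : x ∈ cl k a) :
    |d1 p i x - z i| ≤ 3 * 2 ^ k := by
  have h2 : (0 : ℝ) < 2 ^ k := by positivity
  have hc : ∀ j, (co k a) j = (a j : ℝ) / 2 ^ k := fun j => rfl
  have hd : ∀ j, 0 ≤ x j - co k a j ∧ x j - co k a j ≤ 1 / 2 ^ k := by
    intro j
    have := hx j
    rw [hc, add_div] at *
    constructor <;> linarith [this.1, this.2]
  have h1 := ev_bound (pderiv i p) x (co k a) (4 ^ k) (by
    intro s hs j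
    refine hG _ ?_ j i
    intro m
    have hm := hd m
    have e : (co k a + s • (x - co k a)) m = co k a m + s * (x m - co k a m) := by
      simp only [PiLp.add_apply, PiLp.smul_apply, PiLp.sub_apply, smul_eq_mul]
    rw [e]
    have h3 : 0 ≤ s * (x m - co k a m) := mul_nonneg hs.1 hm.1
    have h4 : s * (x m - co k a m) ≤ 1 / 2 ^ k :=
      (mul_le_of_le_one_left hm.1 hs.2).trans hm.2
    rw [add_div, hc m] at *
    constructor <;> linarith)
  have h3 : ∀ j, |x j - co k a j| ≤ 1 / 2 ^ k := by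
    intro j
    rw [abs_of_nonneg (hd j).1]
    exact (hd j).2
  have h4 : (4 : ℝ) ^ k * (1 / 2 ^ k) = 2 ^ k := by
    have : (4 : ℝ) ^ k = 2 ^ k * 2 ^ k := by
      rw [← mul_pow]
      norm_num
    rw [this]
    field_simp
  have h5 : (4 : ℝ) ^ k * |x 0 - co k a 0| ≤ 2 ^ k := by
    rw [← h4]
    exact mul_le_mul_of_nonneg_left (h3 0) (by positivity)
  have h6 : (4 : ℝ) ^ k * |x 1 - co k a 1| ≤ 2 ^ k := by
    rw [← h4]
    exact mul_le_mul_of_nonneg_left (h3 1) (by positivity)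
  have h7 : |d1 p i x - d1 p i (co k a)| ≤ 2 * 2 ^ k := by
    change |ev (pderiv i p) x - ev (pderiv i p) (co k a)| ≤ 2 * 2 ^ k
    linarith
  calc |d1 p i x - z i| = |(d1 p i x - d1 p i (co k a)) + (d1 p i (co k a) - z i)| := by
        congr 1
        ring
    _ ≤ |d1 p i x - d1 p i (co k a)| + |d1 p i (co k a) - z i| := abs_add_le _ _
    _ ≤ 3 * 2 ^ k := by linarith

/-! ### Counting -/

lemma cover (k : ℕ) (F : Finset (Fin 2 → ℤ)) (S : Set (E 2))
    (h : ∀ a ∈ F, volume (sq k a) ≤ 2 * volume (sq k a ∩ S)) (B : ℝ) (hB : 0 ≤ B)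
    (hS : volume S ≤ ENNReal.ofReal B) : (F.card : ℝ) ≤ 2 * B * 4 ^ k := by
  have h1 : ∑ a ∈ F, volume (sq k a) ≤ 2 * volume S := by
    calc ∑ a ∈ F, volume (sq k a) ≤ ∑ a ∈ F, 2 * (volume.restrict S) (sq k a) := by
          refine Finset.sum_le_sum fun a ha => ?_
          rw [Measure.restrict_apply (sq_measurable k a)]
          exact h a ha
      _ = 2 * (volume.restrict S) (⋃ a ∈ F, sq k a) := by
          rw [measure_biUnion_finset (fun a _ b _ hab => sq_disj k hab)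
            fun a _ => sq_measurable k a, Finset.mul_sum]
      _ ≤ 2 * (volume.restrict S) Set.univ := by
          gcongr
          exact Set.subset_univ _
      _ = 2 * volume S := by rw [Measure.restrict_apply_univ]
  simp only [sq_volume] at h1
  rw [Finset.sum_const, nsmul_eq_mul] at h1
  have h2 : (F.card : ENNReal) * ENNReal.ofReal (((4 : ℝ) ^ k)⁻¹) ≤ 2 * ENNReal.ofReal B :=
    h1.trans (by gcongr)
  have h3 := ENNReal.toReal_mono (by
    exact ENNReal.mul_ne_top (by norm_num) ENNReal.ofReal_ne_top) h2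
  rw [ENNReal.toReal_mul, ENNReal.toReal_mul, ENNReal.toReal_natCast,
    ENNReal.toReal_ofReal (by positivity), ENNReal.toReal_ofReal hB] at h3
  have h4 : (0 : ℝ) < 4 ^ k := by positivity
  have h5 : (F.card : ℝ) = F.card * ((4 : ℝ) ^ k)⁻¹ * 4 ^ k := by
    field_simp
  rw [h5]
  refine mul_le_mul_of_nonneg_right ?_ h4.le
  simpa using h3

lemma six_pow (k : ℕ) (c : ℝ) :
    (3 * (2 : ℝ) ^ (k + 1) / 4 ^ k) ^ c = 6 ^ c * 2 ^ (-(c * k)) := by
  have h1 : 3 * (2 : ℝ) ^ (k + 1) / 4 ^ k = 6 / 2 ^ k := by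
    have : (4 : ℝ) ^ k = 2 ^ k * 2 ^ k := by
      rw [← mul_pow]
      norm_num
    rw [this, pow_succ]
    field_simp
    norm_num
  rw [h1, Real.div_rpow (by norm_num) (by positivity), ← Real.rpow_natCast, ← Real.rpow_mul (by norm_num),
    Real.rpow_neg (by norm_num), mul_comm (k : ℝ) c]
  rfl

lemma sub_SS (k : ℕ) (a : Fin 2 → ℤ) (h : ∀ i, (-2 ^ k : ℤ) ≤ a i ∧ a i < 2 ^ k) :
    sq k a ⊆ SS := by
  intro x hx i
  have h2 : (0 : ℝ) < 2 ^ k := by positivity
  obtain ⟨h3, h4⟩ := h i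
  have h5 : (-2 ^ k : ℝ) ≤ a i := by exact_mod_cast h3
  have h6 : (a i : ℝ) + 1 ≤ 2 ^ k := by exact_mod_cast h4
  constructor
  · refine le_trans ?_ (hx i).1
    rw [le_div_iff₀ h2]
    linarith
  · refine (hx i).2.trans_le ?_
    rw [div_le_iff₀ h2]
    linarith

lemma par_le (k : ℕ) (a : Fin 2 → ℤ) (h : ∀ i, (-2 ^ (k + 1) : ℤ) ≤ a i ∧ a i < 2 ^ (k + 1))
    (ξ : E 2) (hξ : ξ ∈ cl k (par a)) (i : Fin 2) : |ξ i| ≤ 1 := by
  have h2 : (0 : ℝ) < 2 ^ k := by positivity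
  obtain ⟨h3, h4⟩ := h i
  have h5 : (-2 ^ k : ℤ) ≤ par a i := by
    unfold par
    rw [pow_succ] at h3
    omega
  have h6 : par a i + 1 ≤ 2 ^ k := by
    unfold par
    rw [pow_succ] at h4
    omega
  have h5' : (-2 ^ k : ℝ) ≤ par a i := by exact_mod_cast h5
  have h6' : (par a i : ℝ) + 1 ≤ 2 ^ k := by exact_mod_cast h6
  rw [abs_le]
  constructor
  · refine le_trans ?_ (hξ i).1
    rw [le_div_iff₀ h2]
    linarith
  · refine (hξ i).2.trans ?_
    rw [div_le_iff₀ h2]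
    linarith

end Cnt

open Cnt in
open Classical in
theorem cnt_of
    (har : ∀ (p : Pol) (z : E 2) (r lam : ℝ), 0 < r → 0 < lam →
      volume {x : E 2 | (∀ i, |d1 p i x - z i| ≤ r) ∧ lam ≤ |ev (Jp p) x|} ≤
        ENNReal.ofReal ((p.totalDegree : ℝ) ^ 2 * (2 * r) ^ 2 / lam))
    (hhalf : ∀ n : ℕ, ∃ c : ℝ, 0 < c ∧ ∀ p : Pol, p.totalDegree ≤ n →
      ∀ (k : ℕ) (a : Fin 2 → ℤ) (M : ℝ), 0 < M →
        (∃ ξ : E 2, (∀ i, |ξ i - co k a i| ≤ 2 / 2 ^ k) ∧ M ≤ |ev p ξ|) →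
        2 * volume {x : E 2 | x ∈ sq k a ∧ |ev p x| < c * M} ≤ volume (sq k a))
    (hgr : ∀ n : ℕ, ∃ C c : ℝ, 0 < C ∧ 0 < c ∧ c ≤ 1 ∧ ∀ u : Pol, u.totalDegree ≤ n →
      ∀ (j : Fin 2) (M r : ℝ), 0 < M → 0 < r →
        (∃ ξ : E 2, (∀ i, |ξ i| ≤ 1) ∧ M ≤ |d1 u j ξ|) →
        volume {x : E 2 | x ∈ SS ∧ |ev u x| ≤ r} ≤ ENNReal.ofReal (C * (r / M) ^ c))
    (n : ℕ) : ∃ C c : ℝ, 0 < C ∧ 0 < c ∧ c ≤ 1 ∧ ∀ p : Pol, p.totalDegree ≤ n →
    ∀ (k l : ℕ) (z : E 2),
      (((T p k l).filter fun a => ∀ i, |d1 p i (co (k + 1) a) - z i| ≤ 2 ^ (k + 1)).card : ℝ) ≤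
        C * 4 ^ (k + 1) * zz c k l := by
  obtain ⟨ch, hch, hh⟩ := hhalf (2 * n)
  obtain ⟨Cg, cg, hCg, hcg, hcg1, hg⟩ := hgr n
  refine ⟨144 * n ^ 2 / ch + 2 * Cg * 6 ^ cg + 4, cg, by positivity, hcg, hcg1,
    fun p hp k l z => ?_⟩
  obtain ⟨F, hF⟩ : ∃ F : Finset (Fin 2 → ℤ), F = (T p k l).filter fun a =>
    ∀ i, |d1 p i (co (k + 1) a) - z i| ≤ 2 ^ (k + 1) := ⟨_, rfl⟩
  rw [← hF]
  have hFm : ∀ a ∈ F, (∀ i, (-2 ^ (k + 1) : ℤ) ≤ a i ∧ a i < 2 ^ (k + 1)) ∧ Good p (k + 1) a ∧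
      ¬ Good p k (par a) ∧ lev p k a = l ∧
      ∀ i, |d1 p i (co (k + 1) a) - z i| ≤ 2 ^ (k + 1) := by
    intro a ha
    rw [hF, Finset.mem_filter] at ha
    obtain ⟨ha1, ha2⟩ := ha
    unfold T at ha1
    rw [Finset.mem_filter, Fintype.mem_piFinset] at ha1
    obtain ⟨ha3, ha4, ha5⟩ := ha1
    exact ⟨fun i => by simpa using ha3 i, ha4.1, ha4.2, ha5, ha2⟩
  have hgrad : ∀ a ∈ F, ∀ x ∈ sq (k + 1) a, ∀ i, |d1 p i x - z i| ≤ 3 * 2 ^ (k + 1) :=
    fun a ha x hx i => grad p (k + 1) a (hFm a ha).2.1 z i ((hFm a ha).2.2.2.2 i) x (sq_cl _ _ hx)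
  have h4 : (0 : ℝ) < 4 ^ (k + 1) := by positivity
  have h44 : ((2 : ℝ) ^ (k + 1)) ^ 2 = 4 ^ (k + 1) := by
    rw [← pow_mul, mul_comm, pow_mul]
    norm_num
  -- the trivial bound
  have hD : (F.card : ℝ) ≤ 4 * 4 ^ (k + 1) := by
    have h1 : F ⊆ Fintype.piFinset fun _ => Finset.Ico (-2 ^ (k + 1) : ℤ) (2 ^ (k + 1)) := by
      intro a ha
      rw [Fintype.mem_piFinset]
      intro i
      rw [Finset.mem_Ico]
      exact (hFm a ha).1 i
    have h2 := Finset.card_le_card h1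
    rw [Fintype.card_piFinset, Finset.prod_const, Int.card_Ico, Finset.card_univ,
      Fintype.card_fin] at h2
    have h3 : ((2 : ℤ) ^ (k + 1) - -2 ^ (k + 1)).toNat = 2 * 2 ^ (k + 1) := by
      have : (2 : ℤ) ^ (k + 1) - -2 ^ (k + 1) = ((2 * 2 ^ (k + 1) : ℕ) : ℤ) := by
        push_cast
        ring
      rw [this, Int.toNat_natCast]
    rw [h3] at h2
    have h5 : (F.card : ℝ) ≤ ((2 : ℝ) * 2 ^ (k + 1)) ^ 2 := by exact_mod_cast h2
    rw [mul_pow, h44] at h5
    norm_num at h5 ⊢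
    linarith
  -- the parents are not good
  have hC : (F.card : ℝ) ≤ 2 * Cg * 6 ^ cg * 4 ^ (k + 1) * 2 ^ (-(cg * k)) := by
    rcases F.eq_empty_or_nonempty with h0 | ⟨a, ha⟩
    · rw [h0, Finset.card_empty, Nat.cast_zero]
      positivity
    · obtain ⟨hm, hgood, hng, -, -⟩ := hFm a ha
      unfold Good at hng
      push Not at hng
      obtain ⟨ξ, hξ, i, j, hij⟩ := hng
      obtain ⟨u, hu⟩ : ∃ u : Pol, u = pderiv j p - C (z j) := ⟨_, rfl⟩
      have hu1 : ∀ x, ev u x = d1 p j x - z j := by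
        intro x
        rw [hu]
        simp only [ev, d1, map_sub, eval_C]
      have hu2 : d1 u i ξ = d2 p i j ξ := by
        rw [hu]
        simp only [d1, d2, map_sub, pderiv_C, sub_zero]
      have hu3 : u.totalDegree ≤ n := by
        rw [hu]
        refine (totalDegree_sub _ _).trans (max_le ((deg_pderiv p j).trans hp) ?_)
        rw [totalDegree_C]
        exact Nat.zero_le _
      have h1 := hg u hu3 i (4 ^ k) (3 * 2 ^ (k + 1)) (by positivity) (by positivity)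
        ⟨ξ, par_le k a hm ξ hξ, by rw [hu2]; exact hij.le⟩
      have h2 := cover (k + 1) F _ (fun b hb => by
        have hsub : sq (k + 1) b ∩ {x : E 2 | x ∈ SS ∧ |ev u x| ≤ 3 * 2 ^ (k + 1)} =
            sq (k + 1) b := by
          refine inter_eq_left.2 fun x hx => ?_
          refine ⟨sub_SS (k + 1) b (hFm b hb).1 hx, ?_⟩
          rw [hu1]
          exact hgrad b hb x hx j
        rw [hsub]
        rw [two_mul]
        exact le_self_add) (Cg * (3 * 2 ^ (k + 1) / 4 ^ k) ^ cg) (by positivity) h1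
      rw [six_pow] at h2
      refine h2.trans_eq ?_
      ring
  -- the Hessian determinant is large
  have hB : 1 ≤ l → (F.card : ℝ) ≤ 144 * n ^ 2 / ch * 4 ^ (k + 1) * ((2 : ℝ) ^ l)⁻¹ := by
    intro hl
    obtain ⟨m, rfl⟩ : ∃ m, l = m + 1 := ⟨l - 1, by omega⟩
    obtain ⟨M, hM⟩ : ∃ M : ℝ, M = 2 ^ m * 4 ^ (k + 1) := ⟨_, rfl⟩
    have hM0 : 0 < M := by
      rw [hM]
      positivity
    have hr : (0 : ℝ) < 3 * 2 ^ (k + 1) := by positivity
    have h1 := har p z (3 * 2 ^ (k + 1)) (ch * M) hr (by positivity)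
    have h2 := cover (k + 1) F _ (fun a ha => by
      obtain ⟨hm, hgood, hng, hlev, hz⟩ := hFm a ha
      obtain ⟨S, hS⟩ : ∃ S : Set (E 2), S = {x : E 2 | (∀ i, |d1 p i x - z i| ≤ 3 * 2 ^ (k + 1)) ∧
        ch * M ≤ |ev (Jp p) x|} := ⟨_, rfl⟩
      rw [← hS]
      have hx : ∃ x ∈ cl (k + 1) a, M < |ev (Jp p) x| := by
        have h3 : m < lev p k a := by
          rw [hlev]
          exact Nat.lt_succ_self m
        have h5 := Nat.notMem_of_lt_sInf h3
        rw [mem_ofPred_eq] at h5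
        push Not at h5
        obtain ⟨x, hx, hx2⟩ := h5
        exact ⟨x, hx, by rw [hM]; exact hx2⟩
      obtain ⟨x, hx, hx2⟩ := hx
      have h3 := hh (Jp p) (deg_Jp p hp) (k + 1) a M hM0 ⟨x, fun i => by
        have hc : co (k + 1) a i = (a i : ℝ) / 2 ^ (k + 1) := rfl
        have h6 := hx i
        rw [add_div] at h6
        have h7 : (0 : ℝ) < 1 / 2 ^ (k + 1) := by positivity
        have h8 : (2 : ℝ) / 2 ^ (k + 1) = 1 / 2 ^ (k + 1) + 1 / 2 ^ (k + 1) := by ring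
        rw [hc, abs_le, h8]
        constructor <;> linarith [h6.1, h6.2], hx2.le⟩
      have h5 : volume (sq (k + 1) a) ≤ volume (sq (k + 1) a ∩ S) +
          volume {x : E 2 | x ∈ sq (k + 1) a ∧ |ev (Jp p) x| < ch * M} := by
        refine (measure_mono ?_).trans (measure_union_le _ _)
        intro y hy
        by_cases hy2 : |ev (Jp p) y| < ch * M
        · exact Or.inr ⟨hy, hy2⟩
        · refine Or.inl ⟨hy, ?_⟩
          rw [hS]
          exact ⟨fun i => hgrad a ha y hy i, not_lt.1 hy2⟩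
      have hfin : volume (sq (k + 1) a) ≠ ⊤ := by
        rw [sq_volume]
        exact ENNReal.ofReal_ne_top
      have h6 : volume (sq (k + 1) a) + volume (sq (k + 1) a) ≤
          2 * volume (sq (k + 1) a ∩ S) + volume (sq (k + 1) a) := by
        calc volume (sq (k + 1) a) + volume (sq (k + 1) a) = 2 * volume (sq (k + 1) a) := by
              rw [two_mul]
          _ ≤ 2 * (volume (sq (k + 1) a ∩ S) +
              volume {x : E 2 | x ∈ sq (k + 1) a ∧ |ev (Jp p) x| < ch * M}) := by gcongr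
          _ = 2 * volume (sq (k + 1) a ∩ S) +
              2 * volume {x : E 2 | x ∈ sq (k + 1) a ∧ |ev (Jp p) x| < ch * M} := by rw [mul_add]
          _ ≤ _ := by gcongr
      exact (ENNReal.add_le_add_iff_right hfin).1 h6) _ (by positivity) h1
    refine h2.trans ?_
    have hn : (p.totalDegree : ℝ) ≤ n := by exact_mod_cast hp
    have hn2 : (p.totalDegree : ℝ) ^ 2 ≤ (n : ℝ) ^ 2 := pow_le_pow_left₀ (Nat.cast_nonneg _) hn 2
    have e : 2 * ((p.totalDegree : ℝ) ^ 2 * (2 * (3 * 2 ^ (k + 1))) ^ 2 / (ch * M)) * 4 ^ (k + 1) =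
        (p.totalDegree : ℝ) ^ 2 * (144 / ch * 4 ^ (k + 1) * ((2 : ℝ) ^ (m + 1))⁻¹) := by
      have h7 : (2 * (3 * (2 : ℝ) ^ (k + 1))) ^ 2 = 36 * 4 ^ (k + 1) := by
        rw [← h44]
        ring
      rw [h7, hM, pow_succ (2 : ℝ) m]
      field_simp
      ring
    rw [e]
    calc (p.totalDegree : ℝ) ^ 2 * (144 / ch * 4 ^ (k + 1) * ((2 : ℝ) ^ (m + 1))⁻¹) ≤
        (n : ℝ) ^ 2 * (144 / ch * 4 ^ (k + 1) * ((2 : ℝ) ^ (m + 1))⁻¹) :=
          mul_le_mul_of_nonneg_right hn2 (by positivity)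
      _ = _ := by ring
  have q1 : 0 ≤ 144 * (n : ℝ) ^ 2 / ch := by positivity
  have q2 : 0 ≤ 2 * Cg * 6 ^ cg := by positivity
  unfold zz
  rcases le_or_gt (l : ℝ) (cg * k) with h | h
  · rw [max_eq_right h]
    refine hC.trans ?_
    have h1 : (0 : ℝ) ≤ 4 ^ (k + 1) * 2 ^ (-(cg * k)) := by positivity
    calc 2 * Cg * 6 ^ cg * 4 ^ (k + 1) * 2 ^ (-(cg * k)) =
        (2 * Cg * 6 ^ cg) * (4 ^ (k + 1) * 2 ^ (-(cg * k))) := by ring
      _ ≤ (144 * (n : ℝ) ^ 2 / ch + 2 * Cg * 6 ^ cg + 4) * (4 ^ (k + 1) * 2 ^ (-(cg * k))) :=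
          mul_le_mul_of_nonneg_right (by linarith) h1
      _ = _ := by ring
  · rw [max_eq_left h.le]
    have h1 : (0 : ℝ) ≤ 4 ^ (k + 1) * ((2 : ℝ) ^ l)⁻¹ := by positivity
    rw [Real.rpow_neg (by norm_num), Real.rpow_natCast]
    rcases Nat.eq_zero_or_pos l with h0 | h0
    · subst h0
      rw [pow_zero, inv_one, mul_one]
      refine hD.trans (mul_le_mul_of_nonneg_right (by linarith) h4.le)
    · refine (hB h0).trans ?_
      calc 144 * (n : ℝ) ^ 2 / ch * 4 ^ (k + 1) * ((2 : ℝ) ^ l)⁻¹ =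
          (144 * (n : ℝ) ^ 2 / ch) * (4 ^ (k + 1) * ((2 : ℝ) ^ l)⁻¹) := by ring
        _ ≤ (144 * (n : ℝ) ^ 2 / ch + 2 * Cg * 6 ^ cg + 4) * (4 ^ (k + 1) * ((2 : ℝ) ^ l)⁻¹) :=
            mul_le_mul_of_nonneg_right (by linarith) h1
        _ = _ := by ring

end Pool.Agent.J4.H87.PP
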