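import Pool.Agent.J4.H87.PP.Sub
set_option autoImplicit false

/-! A polynomial with a large derivative is large outside a small set. -/

namespace Pool.Agent.J4.H87.PP

open MeasureTheory Set MvPolynomial
open scoped ENNReal NNReal RealInnerProductSpace

namespace GrAux

/-- Markov's inequality with some constant -/
theorem markov (D : ℕ) : ∃ K : ℝ, 0 < K ∧ ∀ q : Polynomial ℝ, q.natDegree ≤ D → ∀ m : ℝ,
    (∀ x ∈ Icc (-1 : ℝ) 1, |q.eval x| ≤ m) → ∀ x ∈ Icc (-1 : ℝ) 1, |q.derivative.eval x| ≤ K * m := by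
  classical
  set v : ℕ → ℝ := fun i => (i : ℝ) / (D + 1) with hv
  have hvi : Set.InjOn v (Finset.range (D + 1) : Finset ℕ) := by
    intro a _ b _ h
    simp only [hv] at h
    have hD : (0 : ℝ) < D + 1 := by positivity
    rw [div_left_inj' hD.ne'] at h
    exact_mod_cast h
  have hK : ∀ i : ℕ, ∃ K : ℝ, ∀ x ∈ Icc (-1 : ℝ) 1,
      |(Lagrange.basis (Finset.range (D + 1)) v i).derivative.eval x| ≤ K := by
    intro i
    obtain ⟨K, hK⟩ := (isCompact_Icc (a := (-1 : ℝ)) (b := 1)).exists_bound_of_continuousOn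
      ((Lagrange.basis (Finset.range (D + 1)) v i).derivative.continuous.continuousOn)
    exact ⟨K, fun x hx => hK x hx⟩
  choose K hK using hK
  have hK0 : ∀ i, 0 ≤ K i := fun i => (abs_nonneg _).trans (hK i 0 (by constructor <;> norm_num))
  have hsum : 0 ≤ ∑ i ∈ Finset.range (D + 1), K i := Finset.sum_nonneg fun i _ => hK0 i
  refine ⟨∑ i ∈ Finset.range (D + 1), K i + 1, by linarith, ?_⟩
  intro q hq m hm x hx
  have hm0 : 0 ≤ m := (abs_nonneg _).trans (hm 0 (by constructor <;> norm_num))
  have hdeg : q.degree < (Finset.range (D + 1)).card := by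
    rw [Finset.card_range]
    exact lt_of_le_of_lt Polynomial.degree_le_natDegree (by exact_mod_cast Nat.lt_succ_of_le hq)
  have heq := Lagrange.eq_interpolate hvi hdeg
  have h1 : q.derivative.eval x = ∑ i ∈ Finset.range (D + 1),
      q.eval (v i) * (Lagrange.basis (Finset.range (D + 1)) v i).derivative.eval x := by
    conv_lhs => rw [heq]
    rw [Lagrange.interpolate_apply, Polynomial.derivative_sum, Polynomial.eval_finsetSum]
    refine Finset.sum_congr rfl fun i _ => ?_
    rw [Polynomial.derivative_C_mul, Polynomial.eval_mul, Polynomial.eval_C]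
  rw [h1]
  calc |∑ i ∈ Finset.range (D + 1),
        q.eval (v i) * (Lagrange.basis (Finset.range (D + 1)) v i).derivative.eval x|
      ≤ ∑ i ∈ Finset.range (D + 1),
        |q.eval (v i) * (Lagrange.basis (Finset.range (D + 1)) v i).derivative.eval x| :=
        Finset.abs_sum_le_sum_abs _ _
    _ ≤ ∑ i ∈ Finset.range (D + 1), m * K i := by
        refine Finset.sum_le_sum fun i hi => ?_
        rw [abs_mul]
        refine mul_le_mul (hm _ ?_) (hK i x hx) (abs_nonneg _) hm0
        have hi' : (i : ℝ) < D + 1 := by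
          exact_mod_cast Finset.mem_range.1 hi
        have hD : (0 : ℝ) < D + 1 := by positivity
        constructor
        · have : 0 ≤ (i : ℝ) / (D + 1) := by positivity
          simp only [hv]
          linarith
        · simp only [hv]
          rw [div_le_one hD]
          exact hi'.le
    _ ≤ (∑ i ∈ Finset.range (D + 1), K i + 1) * m := by
        rw [← Finset.mul_sum]
        nlinarith

theorem eval_aeval (p : Pol) (f : Fin 2 → Polynomial ℝ) (a : ℝ) :
    (MvPolynomial.aeval f p).eval a = eval (fun i => (f i).eval a) p := by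
  have h := congrArg (fun φ => φ p)
    (MvPolynomial.comp_aeval (R := ℝ) f (Polynomial.aeval a : Polynomial ℝ →ₐ[ℝ] ℝ))
  simp only [AlgHom.comp_apply] at h
  rw [Polynomial.coe_aeval_eq_eval] at h
  rw [← MvPolynomial.coe_aeval_eq_eval]
  exact h

theorem der_aeval (j : Fin 2) (f : Fin 2 → Polynomial ℝ)
    (hf : ∀ i, Polynomial.derivative (f i) = if i = j then 1 else 0) (p : Pol) :
    Polynomial.derivative (MvPolynomial.aeval f p) = MvPolynomial.aeval f (pderiv j p) := by
  induction p using MvPolynomial.induction_on with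
  | C a => simp
  | add p q hp hq => simp [hp, hq]
  | mul_X p i hp =>
    rw [map_mul, Polynomial.derivative_mul, hp, pderiv_mul, map_add, map_mul, map_mul, aeval_X, hf,
      pderiv_X]
    congr 2
    by_cases h : i = j
    · subst h; simp
    · rw [if_neg h, Pi.single_eq_of_ne h, map_zero]

/-- a point where the polynomial is large -/
theorem large (n : ℕ) : ∃ K : ℝ, 0 < K ∧ ∀ u : Pol, u.totalDegree ≤ n → ∀ (j : Fin 2) (M : ℝ), 0 < M →
    (∃ ξ : E 2, (∀ i, |ξ i| ≤ 1) ∧ M ≤ |d1 u j ξ|) →
      ∃ η : E 2, (∀ i, |η i| ≤ 1) ∧ M / K ≤ |ev u η| := by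
  obtain ⟨K, hK, h⟩ := markov n
  refine ⟨2 * K, by positivity, ?_⟩
  rintro u hu j M hM ⟨ξ, hξ, hw⟩
  set f : Fin 2 → Polynomial ℝ := fun i => if i = j then Polynomial.X else Polynomial.C (ξ i) with hf
  have hdf : ∀ i, Polynomial.derivative (f i) = if i = j then 1 else 0 := by
    intro i
    simp only [hf]
    split_ifs
    · simp
    · simp
  have hdeg : (MvPolynomial.aeval f u).natDegree ≤ n := by
    have := MvPolynomial.aeval_natDegree_le u hu f (n := 1) ?_
    · simpa using this
    · intro i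
      simp only [hf]
      split_ifs
      · exact Polynomial.natDegree_X_le
      · simp
  by_contra hcon
  push Not at hcon
  have h1 : ∀ x ∈ Icc (-1 : ℝ) 1, |(MvPolynomial.aeval f u).eval x| ≤ M / (2 * K) := by
    intro x hx
    rw [eval_aeval]
    have h2 := hcon (WithLp.toLp 2 fun i => if i = j then x else ξ i) ?_
    · refine le_of_eq_of_le ?_ h2.le
      unfold ev
      congr 3
      ext i
      simp only [hf]
      split_ifs <;> simp
    · intro i
      simp only
      split_ifs
      · exact abs_le.2 hx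
      · exact hξ i
  have h3 := h _ hdeg _ h1 (ξ j) (abs_le.1 (hξ j))
  rw [der_aeval j f hdf, eval_aeval] at h3
  have h4 : eval (fun i => (f i).eval (ξ j)) (pderiv j u) = d1 u j ξ := by
    unfold d1 ev
    congr 2
    ext i
    simp only [hf]
    split_ifs with h
    · rw [h]; simp
    · simp
  rw [h4] at h3
  have h5 : K * (M / (2 * K)) = M / 2 := by field_simp
  rw [h5] at h3
  linarith

end GrAux

open GrAux

theorem gr (n : ℕ) : ∃ C c : ℝ, 0 < C ∧ 0 < c ∧ c ≤ 1 ∧ ∀ u : Pol, u.totalDegree ≤ n →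
    ∀ (j : Fin 2) (M r : ℝ), 0 < M → 0 < r →
      (∃ ξ : E 2, (∀ i, |ξ i| ≤ 1) ∧ M ≤ |d1 u j ξ|) →
      volume {x : E 2 | x ∈ SS ∧ |ev u x| ≤ r} ≤ ENNReal.ofReal (C * (r / M) ^ c) := by
  obtain ⟨C, c, hC, hc, hc1, h⟩ := sub n
  obtain ⟨K, hK, hl⟩ := large n
  refine ⟨C * (2 * K) ^ c * 4, c, by positivity, hc, hc1, ?_⟩
  intro u hu j M r hM hr hξ
  obtain ⟨η, hη, hw⟩ := hl u hu j M hM hξ
  have h1 := h u hu (WithLp.toLp 2 fun _ => -1) 2 (M / K) (2 * K * (r / M)) (by norm_num)
    (by positivity) (by positivity) ⟨η, fun i => ?_, hw⟩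
  · refine le_trans (measure_mono ?_) (h1.trans (ENNReal.ofReal_le_ofReal (le_of_eq ?_)))
    · intro x hx
      refine ⟨fun i => ⟨(hx.1 i).1, lt_of_lt_of_le (hx.1 i).2 (by norm_num)⟩, lt_of_le_of_lt hx.2 ?_⟩
      have : 2 * K * (r / M) * (M / K) = 2 * r := by field_simp
      rw [this]
      linarith
    · rw [Real.mul_rpow (by positivity) (by positivity)]
      ring
  · have := abs_le.1 (hη i)
    simp only
    rw [abs_le]
    constructor <;> linarith [this.1, this.2]

end Pool.Agent.J4.H87.PP
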