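import Mathlib
import Pool.Agent.J4.H87.PP.Defs
set_option autoImplicit false

/-! Piece KER of project PP (helper87): an oscillatory integral over a good dyadic square. -/

namespace Pool.Agent.J4.H87.PP

open MeasureTheory Set MvPolynomial
open scoped ENNReal NNReal RealInnerProductSpace

namespace Ker

lemma norm_ex (r : ℝ) : ‖ex r‖ = 1 := by
  unfold ex; exact Complex.norm_exp_ofReal_mul_I r

lemma ex_add (r s : ℝ) : ex (r + s) = ex r * ex s := by
  unfold ex; rw [← Complex.exp_add]; congr 1; push_cast; ring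

lemma cont_ex : Continuous ex := by
  unfold ex; fun_prop

lemma hasDerivAt_ex {f : ℝ → ℝ} {f' x : ℝ} (h : HasDerivAt f f' x) :
    HasDerivAt (fun t => ex (f t)) ((f' : ℂ) * Complex.I * ex (f x)) x := by
  unfold ex
  have h1 : HasDerivAt (fun t => ((f t : ℝ) : ℂ) * Complex.I) ((f' : ℂ) * Complex.I) x :=
    h.ofReal_comp.mul_const Complex.I
  have h2 := h1.cexp
  convert h2 using 1
  ring

/-- the primitive of `e^{iws}` -/
noncomputable def K (w u : ℝ) : ℂ := ∫ s in u..1, ex (w * s)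

lemma cont_exw (w : ℝ) : Continuous fun s : ℝ => ex (w * s) := cont_ex.comp (by fun_prop)

lemma K_eq (w u : ℝ) : K w u = -∫ s in (1 : ℝ)..u, ex (w * s) := by
  unfold K; rw [intervalIntegral.integral_symm]

lemma hasDerivAt_K (w u : ℝ) : HasDerivAt (K w) (-ex (w * u)) u := by
  have h : K w = fun u => -∫ s in (1 : ℝ)..u, ex (w * s) := funext fun u => K_eq w u
  rw [h]
  exact (intervalIntegral.integral_hasDerivAt_right ((cont_exw w).intervalIntegrable _ _)
    ((cont_exw w).stronglyMeasurableAtFilter _ _) (cont_exw w).continuousAt).neg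

lemma cont_K (w : ℝ) : Continuous (K w) :=
  continuous_iff_continuousAt.2 fun u => (hasDerivAt_K w u).continuousAt

lemma K_one (w : ℝ) : K w 1 = 0 := by unfold K; simp

lemma norm_K (w u : ℝ) (hu : 0 ≤ u) (hu1 : u ≤ 1) : ‖K w u‖ ≤ 3 * kap w := by
  have h1 : ‖K w u‖ ≤ 1 := by
    have := intervalIntegral.norm_integral_le_of_norm_le_const (a := u) (b := 1)
      (f := fun s => ex (w * s)) (C := 1) (fun s _ => le_of_eq (norm_ex _))
    rw [abs_of_nonneg (by linarith)] at this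
    unfold K
    linarith
  have hpos : 0 < 1 + |w| := by positivity
  unfold kap
  rw [← div_eq_mul_inv, le_div_iff₀ hpos]
  by_cases hw : |w| ≤ 2
  · nlinarith [norm_nonneg (K w u)]
  · push Not at hw
    have hw0 : w ≠ 0 := by rintro rfl; simp at hw; linarith
    have hc : (w : ℂ) * Complex.I ≠ 0 := by simp [hw0]
    have h2 : K w u = (Complex.exp ((w : ℂ) * Complex.I * (1 : ℝ)) -
        Complex.exp ((w : ℂ) * Complex.I * u)) / ((w : ℂ) * Complex.I) := by
      rw [← integral_exp_mul_complex hc]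
      unfold K ex
      congr 1; funext s; congr 1; push_cast; ring
    have h3 : ‖K w u‖ ≤ 2 / |w| := by
      rw [h2, norm_div]
      have e1 : ‖(w : ℂ) * Complex.I‖ = |w| := by simp
      rw [e1]
      apply div_le_div_of_nonneg_right _ (abs_nonneg w)
      refine (norm_sub_le _ _).trans ?_
      have a1 : ‖Complex.exp ((w : ℂ) * Complex.I * (1 : ℝ))‖ = 1 := by
        simp
      have a2 : ‖Complex.exp ((w : ℂ) * Complex.I * u)‖ = 1 := by
        have := Complex.norm_exp_ofReal_mul_I (w * u)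
        rw [← this]; congr 2; push_cast; ring
      rw [a1, a2]; norm_num
    have h4 : ‖K w u‖ * |w| ≤ 2 := by
      rwa [le_div_iff₀ (by linarith)] at h3
    nlinarith

/-- integration by parts -/
lemma ibp (w : ℝ) (f f' : ℝ → ℂ) (hf : ∀ s, HasDerivAt f (f' s) s) (hf' : Continuous f') :
    ∫ s in (0 : ℝ)..1, ex (w * s) * f s = f 0 * K w 0 + ∫ u in (0 : ℝ)..1, f' u * K w u := by
  have h := intervalIntegral.integral_mul_deriv_eq_deriv_mul (a := 0) (b := 1) (u := f) (v := K w)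
    (u' := f') (v' := fun s => -ex (w * s)) (fun x _ => hf x) (fun x _ => hasDerivAt_K w x)
    (hf'.intervalIntegrable _ _) ((cont_exw w).neg.intervalIntegrable _ _)
  rw [K_one, mul_zero, zero_sub] at h
  have h2 : ∫ s in (0 : ℝ)..1, ex (w * s) * f s = -∫ x in (0 : ℝ)..1, f x * -ex (w * x) := by
    rw [← intervalIntegral.integral_neg]
    congr 1; funext s; ring
  rw [h2, h]; ring

/-- bound of an interval integral over `[0,1]` -/
lemma norm_int_le (g : ℝ → ℂ) (C : ℝ) (h : ∀ s, 0 ≤ s → s ≤ 1 → ‖g s‖ ≤ C) :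
    ‖∫ s in (0 : ℝ)..1, g s‖ ≤ C := by
  have := intervalIntegral.norm_integral_le_of_norm_le_const (a := 0) (b := 1)
      (f := g) (C := C) (fun s hs => by
        rw [uIoc_of_le zero_le_one] at hs; exact h s hs.1.le hs.2)
  simpa using this

lemma swap (F : ℝ → ℝ → ℂ) (hF : Continuous (Function.uncurry F)) :
    ∫ u in (0 : ℝ)..1, ∫ v in (0 : ℝ)..1, F u v = ∫ v in (0 : ℝ)..1, ∫ u in (0 : ℝ)..1, F u v := by
  simp only [intervalIntegral.integral_of_le zero_le_one]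
  refine integral_integral_swap ?_
  rw [Measure.prod_restrict]
  exact (hF.continuousOn.integrableOn_compact (K := Icc 0 1 ×ˢ Icc 0 1)
    (isCompact_Icc.prod isCompact_Icc)).mono_set (prod_mono Ioc_subset_Icc_self Ioc_subset_Icc_self)

lemma kap_nonneg (s : ℝ) : 0 ≤ kap s := by unfold kap; positivity

/-- the two dimensional estimate -/
lemma twoD (w1 w2 : ℝ) (A A1 A2 A21 : ℝ → ℝ → ℂ) (hA : Continuous (Function.uncurry A))
    (hA2 : Continuous (Function.uncurry A2)) (hA21 : Continuous (Function.uncurry A21))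
    (hA1 : Continuous fun u => A1 u 0)
    (e2 : ∀ u v, HasDerivAt (fun v => A u v) (A2 u v) v)
    (e1 : ∀ u, HasDerivAt (fun u => A u 0) (A1 u 0) u)
    (e21 : ∀ u v, HasDerivAt (fun u => A2 u v) (A21 u v) u)
    (b0 : ‖A 0 0‖ ≤ 1) (b1 : ∀ u, 0 ≤ u → u ≤ 1 → ‖A1 u 0‖ ≤ 2)
    (b2 : ∀ v, 0 ≤ v → v ≤ 1 → ‖A2 0 v‖ ≤ 2)
    (b21 : ∀ u v, 0 ≤ u → u ≤ 1 → 0 ≤ v → v ≤ 1 → ‖A21 u v‖ ≤ 5) :
    ‖∫ u in (0 : ℝ)..1, ex (w1 * u) * ∫ v in (0 : ℝ)..1, ex (w2 * v) * A u v‖ ≤
      90 * (kap w1 * kap w2) := by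
  have cA2u : ∀ u, Continuous fun v => A2 u v := fun u => hA2.comp (by fun_prop : Continuous fun v : ℝ => (u, v))
  have cA2v : ∀ v, Continuous fun u => A2 u v := fun v => hA2.comp (by fun_prop : Continuous fun u : ℝ => (u, v))
  have cAv : ∀ v, Continuous fun u => A u v := fun v => hA.comp (by fun_prop : Continuous fun u : ℝ => (u, v))
  have cA21v : ∀ v, Continuous fun u => A21 u v := fun v => hA21.comp (by fun_prop : Continuous fun u : ℝ => (u, v))
  -- inner integration by parts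
  have h1 : ∀ u : ℝ, ∫ v in (0 : ℝ)..1, ex (w2 * v) * A u v =
      A u 0 * K w2 0 + ∫ v in (0 : ℝ)..1, A2 u v * K w2 v := fun u =>
    ibp w2 (fun v => A u v) (fun v => A2 u v) (fun v => e2 u v) (cA2u u)
  have cG : Continuous (Function.uncurry fun u v : ℝ => ex (w1 * u) * (A2 u v * K w2 v)) := by
    have c1 : Continuous fun x : ℝ × ℝ => ex (w1 * x.1) := (cont_exw w1).comp continuous_fst
    have c2 : Continuous fun x : ℝ × ℝ => K w2 x.2 := (cont_K w2).comp continuous_snd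
    exact c1.mul (hA2.mul c2)
  have h2 : ∫ u in (0 : ℝ)..1, ex (w1 * u) * ∫ v in (0 : ℝ)..1, ex (w2 * v) * A u v =
      (∫ u in (0 : ℝ)..1, ex (w1 * u) * A u 0) * K w2 0 +
        ∫ v in (0 : ℝ)..1, (∫ u in (0 : ℝ)..1, ex (w1 * u) * A2 u v) * K w2 v := by
    have a1 : ∀ u : ℝ, ex (w1 * u) * ∫ v in (0 : ℝ)..1, ex (w2 * v) * A u v =
        ex (w1 * u) * A u 0 * K w2 0 + ∫ v in (0 : ℝ)..1, ex (w1 * u) * (A2 u v * K w2 v) := by
      intro u
      rw [h1 u, mul_add, intervalIntegral.integral_const_mul]; ring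
    simp_rw [a1]
    rw [intervalIntegral.integral_add, intervalIntegral.integral_mul_const,
      swap _ cG]
    · congr 2
      funext v
      rw [← intervalIntegral.integral_mul_const]
      congr 1; funext u; ring
    · exact (((cont_exw w1).mul (cAv 0)).mul continuous_const).intervalIntegrable _ _
    · exact (intervalIntegral.continuous_parametric_intervalIntegral_of_continuous' cG 0 1).intervalIntegrable _ _
  have k1 := kap_nonneg w1
  have k2 := kap_nonneg w2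
  -- outer integrations by parts
  have h3 : ‖∫ u in (0 : ℝ)..1, ex (w1 * u) * A u 0‖ ≤ 9 * kap w1 := by
    rw [ibp w1 (fun u => A u 0) (fun u => A1 u 0) e1 hA1]
    refine (norm_add_le _ _).trans ?_
    have t1 : ‖A 0 0 * K w1 0‖ ≤ 3 * kap w1 := by
      rw [norm_mul]
      nlinarith [norm_K w1 0 le_rfl zero_le_one, norm_nonneg (A 0 0), norm_nonneg (K w1 0)]
    have t2 : ‖∫ u in (0 : ℝ)..1, A1 u 0 * K w1 u‖ ≤ 6 * kap w1 := by
      refine norm_int_le _ _ fun u hu hu1 => ?_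
      rw [norm_mul]
      nlinarith [norm_K w1 u hu hu1, norm_nonneg (A1 u 0), norm_nonneg (K w1 u), b1 u hu hu1]
    linarith
  have h4 : ∀ v, 0 ≤ v → v ≤ 1 → ‖∫ u in (0 : ℝ)..1, ex (w1 * u) * A2 u v‖ ≤ 21 * kap w1 := by
    intro v hv hv1
    rw [ibp w1 (fun u => A2 u v) (fun u => A21 u v) (fun u => e21 u v) (cA21v v)]
    refine (norm_add_le _ _).trans ?_
    have t1 : ‖A2 0 v * K w1 0‖ ≤ 6 * kap w1 := by
      rw [norm_mul]
      nlinarith [norm_K w1 0 le_rfl zero_le_one, norm_nonneg (A2 0 v), norm_nonneg (K w1 0), b2 v hv hv1]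
    have t2 : ‖∫ u in (0 : ℝ)..1, A21 u v * K w1 u‖ ≤ 15 * kap w1 := by
      refine norm_int_le _ _ fun u hu hu1 => ?_
      rw [norm_mul]
      nlinarith [norm_K w1 u hu hu1, norm_nonneg (A21 u v), norm_nonneg (K w1 u), b21 u v hu hu1 hv hv1]
    linarith
  rw [h2]
  refine (norm_add_le _ _).trans ?_
  have t1 : ‖(∫ u in (0 : ℝ)..1, ex (w1 * u) * A u 0) * K w2 0‖ ≤ 27 * (kap w1 * kap w2) := by
    rw [norm_mul]
    have := mul_le_mul h3 (norm_K w2 0 le_rfl zero_le_one) (norm_nonneg _) (by positivity)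
    linarith
  have t2 : ‖∫ v in (0 : ℝ)..1, (∫ u in (0 : ℝ)..1, ex (w1 * u) * A2 u v) * K w2 v‖ ≤
      63 * (kap w1 * kap w2) := by
    refine norm_int_le _ _ fun v hv hv1 => ?_
    rw [norm_mul]
    have := mul_le_mul (h4 v hv hv1) (norm_K w2 v hv hv1) (norm_nonneg _) (by positivity)
    linarith
  linarith

/-- chain rule for polynomials in two variables -/
lemma hasDerivAt_eval (p : Pol) (x : ℝ → Fin 2 → ℝ) (x' : Fin 2 → ℝ) (t : ℝ)
    (h : ∀ i, HasDerivAt (fun s => x s i) (x' i) t) :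
    HasDerivAt (fun s => eval (x s) p)
      (eval (x t) (pderiv 0 p) * x' 0 + eval (x t) (pderiv 1 p) * x' 1) t := by
  induction p using MvPolynomial.induction_on with
  | C c => simpa using hasDerivAt_const t c
  | add p q hp hq =>
    simp only [map_add]
    exact (hp.add hq).congr_deriv (by ring)
  | mul_X p i hp =>
    simp only [map_mul, eval_X, Derivation.leibniz, smul_eq_mul, map_add]
    refine (hp.mul (h i)).congr_deriv ?_
    fin_cases i
    · simp; ring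
    · simp; ring

lemma cont_eval (p : Pol) (f g : ℝ × ℝ → ℝ) (hf : Continuous f) (hg : Continuous g) :
    Continuous fun z : ℝ × ℝ => eval ![f z, g z] p := by
  have h : Continuous fun x : Fin 2 → ℝ => eval x p := MvPolynomial.continuous_eval p
  refine h.comp (continuous_pi fun i => ?_)
  fin_cases i
  · simpa using hf
  · simpa using hg

/-- integral over a dyadic square as an iterated integral -/
lemma sq_int (k : ℕ) (a : Fin 2 → ℤ) (F : ℝ → ℝ → ℂ) (hF : Continuous (Function.uncurry F)) :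
    ∫ x in sq k a, F (x 0) (x 1) =
      (((1 : ℝ) / 2 ^ k : ℝ) : ℂ) ^ 2 * ∫ u in (0 : ℝ)..1, ∫ v in (0 : ℝ)..1,
        F ((a 0 : ℝ) / 2 ^ k + 1 / 2 ^ k * u) ((a 1 : ℝ) / 2 ^ k + 1 / 2 ^ k * v) := by
  -- to the product
  have hmp : MeasurePreserving (fun x : E 2 => ((x 0, x 1) : ℝ × ℝ)) volume volume := by
    have h1 := EuclideanSpace.volume_preserving_symm_measurableEquiv_toLp (Fin 2)
    have h2 := volume_preserving_finTwoArrow ℝ
    exact h2.comp h1
  have hme : MeasurableEmbedding (fun x : E 2 => ((x 0, x 1) : ℝ × ℝ)) := by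
    have e := ((MeasurableEquiv.toLp 2 (Fin 2 → ℝ)).symm.trans MeasurableEquiv.finTwoArrow).measurableEmbedding
    exact e
  set c0 : ℝ := (a 0 : ℝ) / 2 ^ k with hc0
  set c1 : ℝ := (a 1 : ℝ) / 2 ^ k with hc1
  set h : ℝ := 1 / 2 ^ k with hh
  have hpos : 0 < h := by positivity
  have e0 : ((a 0 : ℝ) + 1) / 2 ^ k = c0 + h := by rw [hc0, hh]; ring
  have e1 : ((a 1 : ℝ) + 1) / 2 ^ k = c1 + h := by rw [hc1, hh]; ring
  have hs : sq k a = (fun x : E 2 => ((x 0, x 1) : ℝ × ℝ)) ⁻¹' (Ico c0 (c0 + h) ×ˢ Ico c1 (c1 + h)) := by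
    ext x
    simp only [sq, mem_ofPred_eq, mem_preimage, mem_prod, mem_Ico, Fin.forall_fin_two, e0, e1, ← hc0, ← hc1]
  have h1 : ∫ x in sq k a, F (x 0) (x 1) =
      ∫ z in (Ico c0 (c0 + h) ×ˢ Ico c1 (c1 + h)), Function.uncurry F z := by
    rw [hs]
    exact hmp.setIntegral_preimage_emb hme (Function.uncurry F) _
  rw [h1]
  have hint : IntegrableOn (Function.uncurry F) (Ico c0 (c0 + h) ×ˢ Ico c1 (c1 + h))
      (volume.prod volume) := by
    exact (hF.continuousOn.integrableOn_compact (K := Icc c0 (c0 + h) ×ˢ Icc c1 (c1 + h))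
      (isCompact_Icc.prod isCompact_Icc)).mono_set (prod_mono Ico_subset_Icc_self Ico_subset_Icc_self)
  rw [Measure.volume_eq_prod, setIntegral_prod _ hint]
  simp only [Function.uncurry_apply_pair, integral_Ico_eq_integral_Ioc]
  rw [← intervalIntegral.integral_of_le (by linarith)]
  simp_rw [← intervalIntegral.integral_of_le (show c1 ≤ c1 + h by linarith)]
  have key : ∀ (c : ℝ) (G : ℝ → ℂ), ∫ u in c..(c + h), G u = (h : ℂ) * ∫ s in (0 : ℝ)..1, G (c + h * s) := by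
    intro c G
    have := intervalIntegral.smul_integral_comp_add_mul (a := 0) (b := 1) G h c
    rw [mul_zero, add_zero, mul_one] at this
    rw [← this, Complex.real_smul]
  rw [key c0]
  simp_rw [key c1]
  rw [intervalIntegral.integral_const_mul]
  ring

/-- the estimate for a phase with the bounds needed -/
lemma core (w1 w2 : ℝ) (θ θ1 θ2 θ21 : ℝ → ℝ → ℝ)
    (cθ : Continuous (Function.uncurry θ)) (cθ1 : Continuous (Function.uncurry θ1))
    (cθ2 : Continuous (Function.uncurry θ2)) (cθ21 : Continuous (Function.uncurry θ21))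
    (dθ1 : ∀ u v, HasDerivAt (fun u => θ u v) (θ1 u v) u)
    (dθ2 : ∀ u v, HasDerivAt (fun v => θ u v) (θ2 u v) v)
    (dθ21 : ∀ u v, HasDerivAt (fun u => θ2 u v) (θ21 u v) u)
    (bθ1 : ∀ u v, 0 ≤ u → u ≤ 1 → 0 ≤ v → v ≤ 1 → |θ1 u v| ≤ 2)
    (bθ2 : ∀ u v, 0 ≤ u → u ≤ 1 → 0 ≤ v → v ≤ 1 → |θ2 u v| ≤ 2)
    (bθ21 : ∀ u v, 0 ≤ u → u ≤ 1 → 0 ≤ v → v ≤ 1 → |θ21 u v| ≤ 1) :
    ‖∫ u in (0 : ℝ)..1, ex (w1 * u) * ∫ v in (0 : ℝ)..1, ex (w2 * v) * ex (θ u v)‖ ≤
      90 * (kap w1 * kap w2) := by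
  have cA : Continuous (Function.uncurry fun u v : ℝ => ex (θ u v)) := cont_ex.comp cθ
  have cof : ∀ {f : ℝ → ℝ → ℝ}, Continuous (Function.uncurry f) →
      Continuous (Function.uncurry fun u v => ((f u v : ℝ) : ℂ)) := fun hf => Complex.continuous_ofReal.comp hf
  have cA1 : Continuous (Function.uncurry fun u v => (θ1 u v : ℂ) * Complex.I * ex (θ u v)) :=
    ((cof cθ1).mul continuous_const).mul cA
  have cA2 : Continuous (Function.uncurry fun u v => (θ2 u v : ℂ) * Complex.I * ex (θ u v)) :=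
    ((cof cθ2).mul continuous_const).mul cA
  have cA21 : Continuous (Function.uncurry fun u v => (θ21 u v : ℂ) * Complex.I * ex (θ u v) +
      (θ2 u v : ℂ) * Complex.I * ((θ1 u v : ℂ) * Complex.I * ex (θ u v))) :=
    (((cof cθ21).mul continuous_const).mul cA).add (((cof cθ2).mul continuous_const).mul cA1)
  exact twoD w1 w2 (fun u v => ex (θ u v)) (fun u v => (θ1 u v : ℂ) * Complex.I * ex (θ u v))
    (fun u v => (θ2 u v : ℂ) * Complex.I * ex (θ u v))
    (fun u v => (θ21 u v : ℂ) * Complex.I * ex (θ u v) +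
      (θ2 u v : ℂ) * Complex.I * ((θ1 u v : ℂ) * Complex.I * ex (θ u v))) cA cA2 cA21
    (cA1.comp (by fun_prop : Continuous fun u : ℝ => (u, (0 : ℝ))))
    (fun u v => hasDerivAt_ex (dθ2 u v)) (fun u => hasDerivAt_ex (dθ1 u 0))
    (fun u v => by
      have h1 : HasDerivAt (fun u => (θ2 u v : ℂ) * Complex.I) ((θ21 u v : ℂ) * Complex.I) u :=
        (dθ21 u v).ofReal_comp.mul_const Complex.I
      exact h1.mul (hasDerivAt_ex (dθ1 u v)))
    (le_of_eq (norm_ex _))
    (fun u hu hu1 => by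
      simp only [norm_mul, Complex.norm_real, Complex.norm_I, mul_one, norm_ex, Real.norm_eq_abs]
      exact bθ1 u 0 hu hu1 le_rfl zero_le_one)
    (fun v hv hv1 => by
      simp only [norm_mul, Complex.norm_real, Complex.norm_I, mul_one, norm_ex, Real.norm_eq_abs]
      exact bθ2 0 v le_rfl zero_le_one hv hv1)
    (fun u v hu hu1 hv hv1 => by
      refine (norm_add_le _ _).trans ?_
      simp only [norm_mul, Complex.norm_real, Complex.norm_I, mul_one, norm_ex, Real.norm_eq_abs]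
      nlinarith [bθ1 u v hu hu1 hv hv1, bθ2 u v hu hu1 hv hv1, bθ21 u v hu hu1 hv hv1,
        abs_nonneg (θ1 u v), abs_nonneg (θ2 u v)])

/-- a `C^1` function on the unit square with partial derivatives `≤ 1` and value `0` at the origin -/
lemma bd2 (f f1 f2 : ℝ → ℝ → ℝ) (h0 : f 0 0 = 0)
    (d1 : ∀ u v, HasDerivAt (fun u => f u v) (f1 u v) u)
    (d2 : ∀ u v, HasDerivAt (fun v => f u v) (f2 u v) v)
    (b1 : ∀ u v, 0 ≤ u → u ≤ 1 → 0 ≤ v → v ≤ 1 → |f1 u v| ≤ 1)
    (b2 : ∀ u v, 0 ≤ u → u ≤ 1 → 0 ≤ v → v ≤ 1 → |f2 u v| ≤ 1) :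
    ∀ u v, 0 ≤ u → u ≤ 1 → 0 ≤ v → v ≤ 1 → |f u v| ≤ 2 := by
  intro u v hu hu1 hv hv1
  have s1 : ‖f 0 v - f 0 0‖ ≤ 1 * ‖v - 0‖ := by
    refine Convex.norm_image_sub_le_of_norm_hasDerivWithin_le (s := Icc (0 : ℝ) 1)
      (f := fun v => f 0 v) (f' := fun v => f2 0 v)
      (fun x _ => (d2 0 x).hasDerivWithinAt) (fun x hx => ?_) (convex_Icc 0 1)
      ⟨le_rfl, zero_le_one⟩ ⟨hv, hv1⟩
    rw [Real.norm_eq_abs]
    exact b2 0 x le_rfl zero_le_one hx.1 hx.2
  have s2 : ‖f u v - f 0 v‖ ≤ 1 * ‖u - 0‖ := by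
    refine Convex.norm_image_sub_le_of_norm_hasDerivWithin_le (s := Icc (0 : ℝ) 1)
      (f := fun u => f u v) (f' := fun u => f1 u v)
      (fun x _ => (d1 x v).hasDerivWithinAt) (fun x hx => ?_) (convex_Icc 0 1)
      ⟨le_rfl, zero_le_one⟩ ⟨hu, hu1⟩
    rw [Real.norm_eq_abs]
    exact b1 x v hx.1 hx.2 hv hv1
  rw [h0, sub_zero, sub_zero, one_mul, Real.norm_eq_abs, Real.norm_eq_abs, abs_of_nonneg hv] at s1
  rw [sub_zero, one_mul, Real.norm_eq_abs, Real.norm_eq_abs, abs_of_nonneg hu] at s2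
  rw [abs_le] at s1 s2 ⊢
  constructor <;> linarith [s1.1, s1.2, s2.1, s2.2]

/-- the value of a polynomial in the coordinates of the square -/
noncomputable def Q (c0 c1 h : ℝ) (q : Pol) (u v : ℝ) : ℝ := eval ![c0 + h * u, c1 + h * v] q

lemma cQ (c0 c1 h : ℝ) (q : Pol) : Continuous (Function.uncurry (Q c0 c1 h q)) :=
  cont_eval q (fun z => c0 + h * z.1) (fun z => c1 + h * z.2) (by fun_prop) (by fun_prop)

lemma dQu (c0 c1 h : ℝ) (q : Pol) (u v : ℝ) :
    HasDerivAt (fun u => Q c0 c1 h q u v) (h * Q c0 c1 h (pderiv 0 q) u v) u := by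
  have := hasDerivAt_eval q (fun u => ![c0 + h * u, c1 + h * v]) ![h, 0] u (fun i => by
    fin_cases i
    · simpa using ((hasDerivAt_id u).const_mul h).const_add c0
    · simpa using hasDerivAt_const u (c1 + h * v))
  refine this.congr_deriv ?_
  simp [Q]; ring

lemma dQv (c0 c1 h : ℝ) (q : Pol) (u v : ℝ) :
    HasDerivAt (fun v => Q c0 c1 h q u v) (h * Q c0 c1 h (pderiv 1 q) u v) v := by
  have := hasDerivAt_eval q (fun v => ![c0 + h * u, c1 + h * v]) ![0, h] v (fun i => by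
    fin_cases i
    · simpa using hasDerivAt_const v (c0 + h * u)
    · simpa using ((hasDerivAt_id v).const_mul h).const_add c1)
  refine this.congr_deriv ?_
  simp [Q]; ring

/-- the estimate for a polynomial phase in the coordinates of the square -/
lemma poly (c0 c1 h g0 g1 y0 y1 : ℝ) (p : Pol) (hg0 : g0 = Q c0 c1 h (pderiv 0 p) 0 0)
    (hg1 : g1 = Q c0 c1 h (pderiv 1 p) 0 0)
    (hbd : ∀ (i j : Fin 2) (u v : ℝ), 0 ≤ u → u ≤ 1 → 0 ≤ v → v ≤ 1 →
      |h * (h * Q c0 c1 h (pderiv i (pderiv j p)) u v)| ≤ 1) :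
    ‖∫ u in (0 : ℝ)..1, ∫ v in (0 : ℝ)..1,
        ex (Q c0 c1 h p u v - ((c0 + h * u) * y0 + (c1 + h * v) * y1))‖ ≤
      90 * (kap (h * (g0 - y0)) * kap (h * (g1 - y1))) := by
  have d11 : ∀ (j : Fin 2) (g : ℝ) (u v : ℝ), HasDerivAt (fun u => h * (Q c0 c1 h (pderiv j p) u v - g))
      (h * (h * Q c0 c1 h (pderiv 0 (pderiv j p)) u v)) u := fun j g u v =>
    ((dQu c0 c1 h (pderiv j p) u v).sub_const g).const_mul h
  have d12 : ∀ (j : Fin 2) (g : ℝ) (u v : ℝ), HasDerivAt (fun v => h * (Q c0 c1 h (pderiv j p) u v - g))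
      (h * (h * Q c0 c1 h (pderiv 1 (pderiv j p)) u v)) v := fun j g u v =>
    ((dQv c0 c1 h (pderiv j p) u v).sub_const g).const_mul h
  have main := core (h * (g0 - y0)) (h * (g1 - y1))
    (fun u v => Q c0 c1 h p u v - h * g0 * u - h * g1 * v - c0 * y0 - c1 * y1)
    (fun u v => h * (Q c0 c1 h (pderiv 0 p) u v - g0))
    (fun u v => h * (Q c0 c1 h (pderiv 1 p) u v - g1))
    (fun u v => h * (h * Q c0 c1 h (pderiv 0 (pderiv 1 p)) u v))
    (by
      have := cQ c0 c1 h p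
      simp only [Function.uncurry_def] at this ⊢
      fun_prop)
    (by
      have := cQ c0 c1 h (pderiv 0 p)
      simp only [Function.uncurry_def] at this ⊢
      fun_prop)
    (by
      have := cQ c0 c1 h (pderiv 1 p)
      simp only [Function.uncurry_def] at this ⊢
      fun_prop)
    (by
      have := cQ c0 c1 h (pderiv 0 (pderiv 1 p))
      simp only [Function.uncurry_def] at this ⊢
      fun_prop)
    (fun u v => by
      have h1 := ((((dQu c0 c1 h p u v).sub ((hasDerivAt_id u).const_mul (h * g0))).sub_const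
        (h * g1 * v)).sub_const (c0 * y0)).sub_const (c1 * y1)
      refine h1.congr_deriv ?_
      ring)
    (fun u v => by
      have h1 := ((((dQv c0 c1 h p u v).sub_const (h * g0 * u)).sub ((hasDerivAt_id v).const_mul
        (h * g1))).sub_const (c0 * y0)).sub_const (c1 * y1)
      refine h1.congr_deriv ?_
      ring)
    (fun u v => d11 1 g1 u v)
    (bd2 _ _ _ (by rw [hg0]; ring) (d11 0 g0) (d12 0 g0) (hbd 0 0) (hbd 1 0))
    (bd2 _ _ _ (by rw [hg1]; ring) (d11 1 g1) (d12 1 g1) (hbd 0 1) (hbd 1 1))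
    (hbd 0 1)
  have e : ∫ u in (0 : ℝ)..1, ∫ v in (0 : ℝ)..1,
        ex (Q c0 c1 h p u v - ((c0 + h * u) * y0 + (c1 + h * v) * y1)) =
      ∫ u in (0 : ℝ)..1, ex (h * (g0 - y0) * u) * ∫ v in (0 : ℝ)..1, ex (h * (g1 - y1) * v) *
        ex (Q c0 c1 h p u v - h * g0 * u - h * g1 * v - c0 * y0 - c1 * y1) := by
    congr 1; funext u
    rw [← intervalIntegral.integral_const_mul]
    congr 1; funext v
    rw [← ex_add, ← ex_add]
    congr 1
    ring
  rw [e]
  exact main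

end Ker

open Ker in
/-- **KER** -/
theorem ker (p : Pol) (k : ℕ) (a : Fin 2 → ℤ) (hG : Good p k a) (y : E 2) :
    ‖∫ x in sq k a, ex (ev p x - ⟪x, y⟫)‖ ≤
      100 / 4 ^ k * (kap ((y 0 - d1 p 0 (co k a)) / 2 ^ k) * kap ((y 1 - d1 p 1 (co k a)) / 2 ^ k)) := by
  obtain ⟨c0, hc0⟩ : ∃ c0 : ℝ, c0 = (a 0 : ℝ) / 2 ^ k := ⟨_, rfl⟩
  obtain ⟨c1, hc1⟩ : ∃ c1 : ℝ, c1 = (a 1 : ℝ) / 2 ^ k := ⟨_, rfl⟩
  obtain ⟨h, hh⟩ : ∃ h : ℝ, h = 1 / 2 ^ k := ⟨_, rfl⟩
  have hpos : 0 < h := by rw [hh]; positivity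
  have e0 : ((a 0 : ℝ) + 1) / 2 ^ k = c0 + h := by rw [hc0, hh]; ring
  have e1 : ((a 1 : ℝ) + 1) / 2 ^ k = c1 + h := by rw [hc1, hh]; ring
  have Qev : ∀ (q : Pol) (u v : ℝ), Q c0 c1 h q u v = ev q (WithLp.toLp 2 ![c0 + h * u, c1 + h * v]) := by
    intro q u v; rfl
  have hco : co k a = WithLp.toLp 2 ![c0 + h * 0, c1 + h * 0] := by
    ext i; fin_cases i <;> simp [co, hc0, hc1]
  have Q0 : ∀ q : Pol, ev q (co k a) = Q c0 c1 h q 0 0 := fun q => by rw [Qev, hco]
  have h4 : h ^ 2 * 4 ^ k = 1 := by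
    rw [hh, div_pow, one_pow, ← pow_mul, mul_comm k 2, pow_mul]; norm_num
  have hbd : ∀ (i j : Fin 2) (u v : ℝ), 0 ≤ u → u ≤ 1 → 0 ≤ v → v ≤ 1 →
      |h * (h * Q c0 c1 h (pderiv i (pderiv j p)) u v)| ≤ 1 := by
    intro i j u v hu hu1 hv hv1
    have hx : (WithLp.toLp 2 ![c0 + h * u, c1 + h * v] : E 2) ∈ cl k a := by
      intro i
      fin_cases i
      · have r : c0 ≤ c0 + h * u ∧ c0 + h * u ≤ c0 + h := by constructor <;> nlinarith
        rw [← e0] at r
        rw [hc0] at r ⊢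
        exact r
      · have r : c1 ≤ c1 + h * v ∧ c1 + h * v ≤ c1 + h := by constructor <;> nlinarith
        rw [← e1] at r
        rw [hc1] at r ⊢
        exact r
    have h1 := hG _ hx i j
    unfold d2 at h1
    rw [← Qev] at h1
    rw [← mul_assoc, ← pow_two, abs_mul, abs_of_nonneg (by positivity)]
    calc h ^ 2 * |Q c0 c1 h (pderiv i (pderiv j p)) u v| ≤ h ^ 2 * 4 ^ k := by gcongr
      _ = 1 := h4
  have main := poly c0 c1 h (d1 p 0 (co k a)) (d1 p 1 (co k a)) (y 0) (y 1) p (Q0 _) (Q0 _) hbd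
  -- assemble
  have e1 : ∫ x in sq k a, ex (ev p x - ⟪x, y⟫) =
      ((h : ℝ) : ℂ) ^ 2 * ∫ u in (0 : ℝ)..1, ∫ v in (0 : ℝ)..1,
        ex (Q c0 c1 h p u v - ((c0 + h * u) * y 0 + (c1 + h * v) * y 1)) := by
    have cF : Continuous (Function.uncurry fun s t : ℝ => ex (eval ![s, t] p - (s * y 0 + t * y 1))) := by
      have := cont_eval p (fun z => z.1) (fun z => z.2) continuous_fst continuous_snd
      refine cont_ex.comp ?_
      fun_prop
    have h1 := sq_int k a _ cF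
    rw [← hh, ← hc0, ← hc1] at h1
    have h2 : ∫ x in sq k a, ex (ev p x - ⟪x, y⟫) =
        ∫ x in sq k a, ex (eval ![x 0, x 1] p - (x 0 * y 0 + x 1 * y 1)) := by
      congr 1; funext x; congr 2
      · unfold ev; congr 2; funext i; fin_cases i <;> rfl
      · simp [PiLp.inner_apply, Fin.sum_univ_two]; ring
    rw [h2]
    exact h1
  rw [e1, norm_mul, norm_pow, Complex.norm_real, Real.norm_eq_abs, abs_of_pos hpos]
  have hk1 : kap (h * (d1 p 0 (co k a) - y 0)) = kap ((y 0 - d1 p 0 (co k a)) / 2 ^ k) := by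
    unfold kap; congr 2
    rw [hh, ← abs_neg]; congr 1; ring
  have hk2 : kap (h * (d1 p 1 (co k a) - y 1)) = kap ((y 1 - d1 p 1 (co k a)) / 2 ^ k) := by
    unfold kap; congr 2
    rw [hh, ← abs_neg]; congr 1; ring
  rw [hk1, hk2] at main
  have h5 : h ^ 2 = 1 / 4 ^ k := by
    rw [eq_div_iff (by positivity)]; exact h4
  rw [h5]
  have k1 := kap_nonneg ((y 0 - d1 p 0 (co k a)) / 2 ^ k)
  have k2 := kap_nonneg ((y 1 - d1 p 1 (co k a)) / 2 ^ k)
  refine (mul_le_mul_of_nonneg_left main (by positivity)).trans ?_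
  have k3 := mul_nonneg k1 k2
  have h6 : (0 : ℝ) ≤ 1 / 4 ^ k := by positivity
  have h7 : (100 : ℝ) / 4 ^ k = 100 * (1 / 4 ^ k) := by ring
  rw [h7]
  nlinarith [mul_nonneg h6 k3]

end Pool.Agent.J4.H87.PP
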