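import Pool.Agent.J4.H87.PP.PbA

set_option autoImplicit false

/-! # Phases of class `C^m` from polynomial phases -/

namespace Pool.Agent.J4.H87.PP

open MeasureTheory Set MvPolynomial
open scoped ENNReal NNReal RealInnerProductSpace

structure Cls (V s : ℝ) (g : E 2 → ℂ) : Prop where
  meas : Measurable g
  bd : ∀ x, ‖g x‖ ≤ 1
  supp : ∀ x, g x ≠ 0 → ‖x‖ < 1 / 2
  md : ∀ v : E 2, ∫⁻ x, ‖g (x + v) - g x‖ₑ ≤ ENNReal.ofReal (V * ‖v‖ ^ s)

namespace PBx

/-! ## Boxes -/

/-- a half-open box -/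
def box (α β : Fin 2 → ℝ) : Set (E 2) := {x | ∀ i, α i ≤ x i ∧ x i < β i}

lemma box_eq (α β : Fin 2 → ℝ) :
    box α β = (fun x : E 2 => x.ofLp) ⁻¹' (Set.pi univ fun i => Ico (α i) (β i)) := by
  ext x
  simp [box, Set.mem_pi]

lemma meas_box (α β : Fin 2 → ℝ) : MeasurableSet (box α β) := by
  rw [box_eq]
  exact (PiLp.volume_preserving_ofLp (Fin 2)).measurable
    (MeasurableSet.univ_pi fun i => measurableSet_Ico)

lemma vol_box (α β : Fin 2 → ℝ) :
    volume (box α β) = ENNReal.ofReal (β 0 - α 0) * ENNReal.ofReal (β 1 - α 1) := by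
  rw [box_eq, (PiLp.volume_preserving_ofLp (Fin 2)).measure_preimage
    (MeasurableSet.univ_pi fun i => measurableSet_Ico).nullMeasurableSet, Real.volume_pi_Ico,
    Fin.prod_univ_two]

lemma strip_one (α : Fin 2 → ℝ) (r : ℝ) (v : E 2) (i : Fin 2) :
    volume {x : E 2 | x ∈ box α (fun i => α i + r) ∧ ¬ (α i ≤ x i + v i ∧ x i + v i < α i + r)} ≤
      ENNReal.ofReal r * ENNReal.ofReal |v i| := by
  have h1 : {x : E 2 | x ∈ box α (fun i => α i + r) ∧ ¬ (α i ≤ x i + v i ∧ x i + v i < α i + r)} ⊆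
      box (fun j => if j = i then (if 0 ≤ v i then α i + r - v i else α i) else α j)
        (fun j => if j = i then (if 0 ≤ v i then α i + r else α i - v i) else α j + r) := by
    intro x hx j
    obtain ⟨hx1, hx2⟩ := hx
    have h3 := hx1 j
    by_cases hj : j = i
    · subst hj
      simp only [if_true]
      split_ifs with h4
      · refine ⟨?_, h3.2⟩
        by_contra h5
        push Not at h5
        exact hx2 ⟨by linarith [h3.1], by linarith⟩
      · push Not at h4
        refine ⟨h3.1, ?_⟩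
        by_contra h5
        push Not at h5
        exact hx2 ⟨by linarith, by linarith [h3.2]⟩
    · simp only [if_neg hj]
      exact h3
  refine (measure_mono h1).trans ?_
  rw [vol_box]
  obtain rfl | rfl : i = 0 ∨ i = 1 := by omega
  · simp only [if_true, if_neg (show ¬ (1 : Fin 2) = 0 by decide)]
    rw [mul_comm]
    apply mul_le_mul'
    · apply ENNReal.ofReal_le_ofReal
      linarith
    · apply ENNReal.ofReal_le_ofReal
      split_ifs with h4
      · rw [abs_of_nonneg h4]; linarith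
      · push Not at h4
        rw [abs_of_neg h4]; linarith
  · simp only [if_true, if_neg (show ¬ (0 : Fin 2) = 1 by decide)]
    apply mul_le_mul'
    · apply ENNReal.ofReal_le_ofReal
      linarith
    · apply ENNReal.ofReal_le_ofReal
      split_ifs with h4
      · rw [abs_of_nonneg h4]; linarith
      · push Not at h4
        rw [abs_of_neg h4]; linarith

lemma strip (α : Fin 2 → ℝ) (r : ℝ) (hr : 0 ≤ r) (v : E 2) :
    volume {x : E 2 | x ∈ box α (fun i => α i + r) ∧ x + v ∉ box α (fun i => α i + r)} ≤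
      ENNReal.ofReal (2 * r * ‖v‖) := by
  have h1 : {x : E 2 | x ∈ box α (fun i => α i + r) ∧ x + v ∉ box α (fun i => α i + r)} ⊆
      {x : E 2 | x ∈ box α (fun i => α i + r) ∧ ¬ (α 0 ≤ x 0 + v 0 ∧ x 0 + v 0 < α 0 + r)} ∪
      {x : E 2 | x ∈ box α (fun i => α i + r) ∧ ¬ (α 1 ≤ x 1 + v 1 ∧ x 1 + v 1 < α 1 + r)} := by
    intro x hx
    obtain ⟨hx1, hx2⟩ := hx
    by_cases h2 : α 0 ≤ x 0 + v 0 ∧ x 0 + v 0 < α 0 + r
    · right
      refine ⟨hx1, fun h3 => hx2 fun i => ?_⟩
      obtain rfl | rfl : i = 0 ∨ i = 1 := by omega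
      · exact h2
      · exact h3
    · left
      exact ⟨hx1, h2⟩
  refine (measure_mono h1).trans ((measure_union_le _ _).trans ?_)
  have h3 : ∀ i, |v i| ≤ ‖v‖ := fun i => by
    have := PiLp.norm_apply_le v i
    rwa [Real.norm_eq_abs] at this
  have h4 : ∀ i : Fin 2, ENNReal.ofReal r * ENNReal.ofReal |v i| ≤ ENNReal.ofReal (r * ‖v‖) := by
    intro i
    rw [← ENNReal.ofReal_mul hr]
    exact ENNReal.ofReal_le_ofReal (mul_le_mul_of_nonneg_left (h3 i) hr)
  calc _ ≤ ENNReal.ofReal (r * ‖v‖) + ENNReal.ofReal (r * ‖v‖) :=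
        add_le_add ((strip_one α r v 0).trans (h4 0)) ((strip_one α r v 1).trans (h4 1))
    _ = ENNReal.ofReal (2 * r * ‖v‖) := by
        rw [← ENNReal.ofReal_add (by positivity) (by positivity)]
        congr 1
        ring

/-! ## The function `ex` -/

lemma norm_ex (a : ℝ) : ‖ex a‖ = 1 := Complex.norm_exp_ofReal_mul_I a

lemma ex_add (a b : ℝ) : ex (a + b) = ex a * ex b := by
  unfold ex
  rw [← Complex.exp_add]
  congr 1
  push_cast
  ring

lemma ex_sub_le (a b : ℝ) : ‖ex a - ex b‖ ≤ |a - b| := by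
  have h1 : ex a - ex b = ex b * (ex (a - b) - 1) := by
    rw [mul_sub, ← ex_add, mul_one]
    congr 2
    ring
  rw [h1, norm_mul, norm_ex, one_mul]
  have h2 := Real.norm_exp_I_mul_ofReal_sub_one_le (x := a - b)
  rw [mul_comm] at h2
  simpa [ex, Real.norm_eq_abs] using h2

lemma ex_sub_le_two (a b : ℝ) : ‖ex a - ex b‖ ≤ 2 := by
  calc ‖ex a - ex b‖ ≤ ‖ex a‖ + ‖ex b‖ := norm_sub_le _ _
    _ = 2 := by rw [norm_ex, norm_ex]; norm_num

lemma meas_ex {f : E 2 → ℝ} (hf : Measurable f) : Measurable fun x => ex (f x) := by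
  unfold ex
  fun_prop

/-! ## The localised function is in the class -/

lemma cls_loc (α : Fin 2 → ℝ) (r : ℝ) (hr : 0 < r) (hr1 : r ≤ 1) (V s : ℝ) (hV : 0 ≤ V) (hs : 0 < s)
    (hs1 : s ≤ 1) (g : E 2 → ℂ) (hg : Cls V s g) (ρ : E 2 → ℝ) (hρ : Measurable ρ)
    (hlip : ∀ x ∈ box α (fun i => α i + r), ∀ y ∈ box α (fun i => α i + r),
      |ρ x - ρ y| ≤ ‖x - y‖ / r) :
    Cls (V + 5) s ((box α (fun i => α i + r)).indicator fun x => ex (ρ x) * g x) := by
  classical
  set Q := box α (fun i => α i + r) with hQ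
  have hQm : MeasurableSet Q := meas_box _ _
  have hvQ : volume Q = ENNReal.ofReal (r * r) := by
    rw [hQ, vol_box, ENNReal.ofReal_mul hr.le]
    congr 2 <;> ring
  refine ⟨((meas_ex hρ).mul hg.meas).indicator hQm, ?_, ?_, ?_⟩
  · intro x
    by_cases hx : x ∈ Q
    · rw [indicator_of_mem hx, norm_mul, norm_ex, one_mul]
      exact hg.bd x
    · rw [indicator_of_notMem hx, norm_zero]
      exact zero_le_one
  · intro x hx
    by_cases hxQ : x ∈ Q
    · rw [indicator_of_mem hxQ] at hx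
      exact hg.supp x (right_ne_zero_of_mul hx)
    · rw [indicator_of_notMem hxQ] at hx
      exact absurd rfl hx
  intro v
  set A1 : Set (E 2) := {x | x ∈ Q ∧ x + v ∉ Q} with hA1
  set A2 : Set (E 2) := {x | x ∉ Q ∧ x + v ∈ Q} with hA2
  have hshift : MeasurableSet {x : E 2 | x + v ∈ Q} := (measurable_add_const v) hQm
  have hA1m : MeasurableSet A1 := hQm.inter hshift.compl
  have hA2m : MeasurableSet A2 := hQm.compl.inter hshift
  have hv1 : volume A1 ≤ ENNReal.ofReal (2 * r * ‖v‖) := strip α r hr.le v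
  have hv1' : volume A1 ≤ ENNReal.ofReal (r * r) := by
    rw [← hvQ]
    exact measure_mono fun x hx => hx.1
  have hA2' : A2 = (fun x => x + v) ⁻¹' {z : E 2 | z ∈ Q ∧ z + (-v) ∉ Q} := by
    ext x
    simp only [hA2, mem_setOf_eq, mem_preimage, add_neg_cancel_right]
    exact and_comm
  have hv2e : volume A2 = volume {z : E 2 | z ∈ Q ∧ z + (-v) ∉ Q} := by
    rw [hA2', measure_preimage_add_right]
  have hv2 : volume A2 ≤ ENNReal.ofReal (2 * r * ‖v‖) := by
    rw [hv2e, ← norm_neg v]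
    exact strip α r hr.le (-v)
  have hv2' : volume A2 ≤ ENNReal.ofReal (r * r) := by
    rw [hv2e, ← hvQ]
    exact measure_mono fun x hx => hx.1
  set cv : ℝ := min 2 (‖v‖ / r) with hcv
  have hcv0 : 0 ≤ cv := le_min (by norm_num) (by positivity)
  have hpt : ∀ x, ‖Q.indicator (fun x => ex (ρ x) * g x) (x + v) -
      Q.indicator (fun x => ex (ρ x) * g x) x‖ₑ ≤ ‖g (x + v) - g x‖ₑ +
      (Q.indicator (fun _ => ENNReal.ofReal cv) x + (A1.indicator (fun _ => 1) x +
        A2.indicator (fun _ => 1) x)) := by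
    intro x
    by_cases hx : x ∈ Q
    · by_cases hxv : x + v ∈ Q
      · rw [indicator_of_mem hxv, indicator_of_mem hx, indicator_of_mem hx]
        have h1 : ex (ρ (x + v)) * g (x + v) - ex (ρ x) * g x =
            ex (ρ (x + v)) * (g (x + v) - g x) + (ex (ρ (x + v)) - ex (ρ x)) * g x := by ring
        have h2 : ‖ex (ρ (x + v)) * g (x + v) - ex (ρ x) * g x‖ ≤ ‖g (x + v) - g x‖ + cv := by
          rw [h1]
          refine (norm_add_le _ _).trans ?_
          rw [norm_mul, norm_mul, norm_ex, one_mul]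
          apply add_le_add le_rfl
          have h3 : ‖ex (ρ (x + v)) - ex (ρ x)‖ ≤ cv := by
            apply le_min (ex_sub_le_two _ _)
            refine (ex_sub_le _ _).trans ?_
            have := hlip (x + v) hxv x hx
            rwa [add_sub_cancel_left] at this
          calc _ ≤ cv * 1 := mul_le_mul h3 (hg.bd x) (norm_nonneg _) hcv0
            _ = cv := mul_one _
        rw [← ofReal_norm_eq_enorm, ← ofReal_norm_eq_enorm]
        calc ENNReal.ofReal ‖ex (ρ (x + v)) * g (x + v) - ex (ρ x) * g x‖ ≤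
            ENNReal.ofReal (‖g (x + v) - g x‖ + cv) := ENNReal.ofReal_le_ofReal h2
          _ = ENNReal.ofReal ‖g (x + v) - g x‖ + ENNReal.ofReal cv :=
            ENNReal.ofReal_add (norm_nonneg _) hcv0
          _ ≤ _ := add_le_add le_rfl le_self_add
      · rw [indicator_of_notMem hxv, indicator_of_mem hx, zero_sub, enorm_neg]
        have h1 : x ∈ A1 := ⟨hx, hxv⟩
        rw [indicator_of_mem h1]
        have h2 : ‖ex (ρ x) * g x‖ₑ ≤ 1 := by
          rw [← ofReal_norm_eq_enorm, norm_mul, norm_ex, one_mul]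
          exact ENNReal.ofReal_le_one.2 (hg.bd x)
        refine h2.trans ?_
        exact le_add_self.trans' (le_add_self.trans' le_self_add)
    · by_cases hxv : x + v ∈ Q
      · rw [indicator_of_mem hxv, indicator_of_notMem hx, sub_zero]
        have h1 : x ∈ A2 := ⟨hx, hxv⟩
        rw [indicator_of_mem h1]
        have h2 : ‖ex (ρ (x + v)) * g (x + v)‖ₑ ≤ 1 := by
          rw [← ofReal_norm_eq_enorm, norm_mul, norm_ex, one_mul]
          exact ENNReal.ofReal_le_one.2 (hg.bd _)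
        refine h2.trans ?_
        exact le_add_self.trans' (le_add_self.trans' le_add_self)
      · rw [indicator_of_notMem hxv, indicator_of_notMem hx, sub_zero, enorm_zero]
        exact bot_le
  refine (lintegral_mono hpt).trans ?_
  have m0 : Measurable (fun x => Q.indicator (fun _ => ENNReal.ofReal cv) x) :=
    measurable_const.indicator hQm
  have m1 : Measurable (fun x => A1.indicator (fun _ => (1 : ℝ≥0∞)) x) :=
    measurable_const.indicator hA1m
  have m2 : Measurable (fun x => A2.indicator (fun _ => (1 : ℝ≥0∞)) x) :=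
    measurable_const.indicator hA2m
  have m12 : Measurable (fun x => A1.indicator (fun _ => (1 : ℝ≥0∞)) x +
      A2.indicator (fun _ => (1 : ℝ≥0∞)) x) := m1.add m2
  have m012 : Measurable (fun x => Q.indicator (fun _ => ENNReal.ofReal cv) x +
      (A1.indicator (fun _ => (1 : ℝ≥0∞)) x + A2.indicator (fun _ => (1 : ℝ≥0∞)) x)) := m0.add m12
  rw [lintegral_add_right _ m012, lintegral_add_right _ m12,
    lintegral_add_right _ m2, lintegral_indicator_const hQm,
    lintegral_indicator_const hA1m, lintegral_indicator_const hA2m, one_mul, one_mul, hvQ]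
  have hmd := hg.md v
  have hvs : 0 ≤ ‖v‖ ^ s := Real.rpow_nonneg (norm_nonneg _) _
  have hrest : ENNReal.ofReal cv * ENNReal.ofReal (r * r) + (volume A1 + volume A2) ≤
      ENNReal.ofReal (5 * ‖v‖ ^ s) := by
    rw [← ENNReal.ofReal_mul hcv0]
    rcases le_total ‖v‖ r with h | h
    · have h1 : r * ‖v‖ ≤ ‖v‖ ^ s := by
        have h2 : ‖v‖ ≤ ‖v‖ ^ s := Real.self_le_rpow_of_le_one (norm_nonneg _) (h.trans hr1) hs1
        have h3 : r * ‖v‖ ≤ 1 * ‖v‖ := mul_le_mul_of_nonneg_right hr1 (norm_nonneg _)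
        linarith
      calc _ ≤ ENNReal.ofReal (r * ‖v‖) + (ENNReal.ofReal (2 * r * ‖v‖) +
            ENNReal.ofReal (2 * r * ‖v‖)) := by
            apply add_le_add _ (add_le_add hv1 hv2)
            apply ENNReal.ofReal_le_ofReal
            have h4 : cv ≤ ‖v‖ / r := min_le_right _ _
            calc cv * (r * r) ≤ ‖v‖ / r * (r * r) := mul_le_mul_of_nonneg_right h4 (by positivity)
              _ = r * ‖v‖ := by field_simp
        _ = ENNReal.ofReal (r * ‖v‖ + (2 * r * ‖v‖ + 2 * r * ‖v‖)) := by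
            rw [ENNReal.ofReal_add (by positivity) (by positivity),
              ENNReal.ofReal_add (by positivity) (by positivity)]
        _ ≤ _ := ENNReal.ofReal_le_ofReal (by linarith)
    · have h1 : r * r ≤ ‖v‖ ^ s := by
        have h2 : r ≤ r ^ s := Real.self_le_rpow_of_le_one hr.le hr1 hs1
        have h3 : r ^ s ≤ ‖v‖ ^ s := Real.rpow_le_rpow hr.le h hs.le
        have h4 : r * r ≤ 1 * r := mul_le_mul_of_nonneg_right hr1 hr.le
        linarith
      calc _ ≤ ENNReal.ofReal (2 * (r * r)) + (ENNReal.ofReal (r * r) +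
            ENNReal.ofReal (r * r)) := by
            apply add_le_add _ (add_le_add hv1' hv2')
            apply ENNReal.ofReal_le_ofReal
            exact mul_le_mul_of_nonneg_right (min_le_left _ _) (by positivity)
        _ = ENNReal.ofReal (2 * (r * r) + (r * r + r * r)) := by
            rw [ENNReal.ofReal_add (by positivity) (by positivity),
              ENNReal.ofReal_add (by positivity) (by positivity)]
        _ ≤ _ := ENNReal.ofReal_le_ofReal (by linarith)
  calc _ ≤ ENNReal.ofReal (V * ‖v‖ ^ s) + ENNReal.ofReal (5 * ‖v‖ ^ s) := add_le_add hmd hrest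
    _ = ENNReal.ofReal ((V + 5) * ‖v‖ ^ s) := by
        rw [← ENNReal.ofReal_add (by positivity) (by positivity)]
        congr 1
        ring

/-! ## Dyadic squares -/

lemma sq_eq_box (k : ℕ) (a : Fin 2 → ℤ) :
    sq k a = box (fun i => (a i : ℝ) / 2 ^ k) (fun i => (a i : ℝ) / 2 ^ k + ((2 : ℝ) ^ k)⁻¹) := by
  unfold sq box
  ext x
  simp only [mem_setOf_eq]
  have h : ∀ i, ((a i : ℝ) + 1) / 2 ^ k = (a i : ℝ) / 2 ^ k + ((2 : ℝ) ^ k)⁻¹ := by
    intro i
    rw [add_div, one_div]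
  simp only [h]

lemma mem_sq_iff (k : ℕ) (a : Fin 2 → ℤ) (x : E 2) : x ∈ sq k a ↔ a = ix k x := by
  have hk : (0 : ℝ) < 2 ^ k := by positivity
  unfold sq ix
  rw [mem_setOf_eq, funext_iff]
  apply forall_congr'
  intro i
  rw [div_le_iff₀ hk, lt_div_iff₀ hk, eq_comm, Int.floor_eq_iff]
  constructor
  · rintro ⟨h1, h2⟩
    exact ⟨by linarith, by linarith⟩
  · rintro ⟨h1, h2⟩
    exact ⟨by linarith, by linarith⟩

lemma sq_dist {k : ℕ} {a : Fin 2 → ℤ} {x y : E 2} (hx : x ∈ cl k a) (hy : y ∈ cl k a) :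
    ‖x - y‖ ≤ 2 * ((2 : ℝ) ^ k)⁻¹ := by
  have hk : (0 : ℝ) < ((2 : ℝ) ^ k)⁻¹ := by positivity
  have h1 : ∀ i, |(x - y) i| ≤ ((2 : ℝ) ^ k)⁻¹ := by
    intro i
    have h2 := hx i
    have h3 := hy i
    have h4 : ((a i : ℝ) + 1) / 2 ^ k = (a i : ℝ) / 2 ^ k + ((2 : ℝ) ^ k)⁻¹ := by
      rw [add_div, one_div]
    rw [h4] at h2 h3
    rw [PiLp.sub_apply, abs_le]
    exact ⟨by linarith [h2.1, h3.2], by linarith [h2.2, h3.1]⟩
  rw [EuclideanSpace.norm_eq, Real.sqrt_le_left (by positivity), Fin.sum_univ_two,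
    Real.norm_eq_abs, Real.norm_eq_abs]
  have h2 := pow_le_pow_left₀ (abs_nonneg _) (h1 0) 2
  have h3 := pow_le_pow_left₀ (abs_nonneg _) (h1 1) 2
  nlinarith

lemma sq_sub_cl (k : ℕ) (a : Fin 2 → ℤ) : sq k a ⊆ cl k a := fun x hx i => ⟨(hx i).1, (hx i).2.le⟩

lemma co_mem_cl (k : ℕ) (a : Fin 2 → ℤ) : co k a ∈ cl k a := by
  intro i
  have h1 : (co k a) i = (a i : ℝ) / 2 ^ k := rfl
  rw [h1]
  refine ⟨le_rfl, ?_⟩
  apply div_le_div_of_nonneg_right _ (by positivity)
  linarith

lemma convex_sq (k : ℕ) (a : Fin 2 → ℤ) : Convex ℝ (sq k a) := by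
  intro x hx y hy s t hs ht hst i
  have h1 := hx i
  have h2 := hy i
  have h3 : (s • x + t • y) i = s * x i + t * y i := by simp
  rw [h3]
  have h4 : ∀ A : ℝ, A = s * A + t * A := fun A => by rw [← add_mul, hst, one_mul]
  constructor
  · rw [h4 ((a i : ℝ) / 2 ^ k)]
    exact add_le_add (mul_le_mul_of_nonneg_left h1.1 hs) (mul_le_mul_of_nonneg_left h2.1 ht)
  · rcases hs.eq_or_lt with rfl | hs'
    · have : t = 1 := by linarith
      subst this
      linarith [h2.2]
    · rw [h4 (((a i : ℝ) + 1) / 2 ^ k)]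
      exact add_lt_add_of_lt_of_le (mul_lt_mul_of_pos_left h1.2 hs')
        (mul_le_mul_of_nonneg_left h2.2.le ht)

end PBx

open PBx

theorem pb (m : ℕ) (hm : 1 ≤ m) (s : ℝ) (hs : 0 < s) (hs1 : s ≤ 1) : ∃ K : ℝ≥0, ∀ (N : (E 2 → ℂ) → ℝ≥0∞),
    (∀ (ι : Type) (F : Finset ι) (f : ι → E 2 → ℂ), (∀ i, Measurable (f i)) → (∀ i x, ‖f i x‖ ≤ 1) →
      (∀ i x, f i x ≠ 0 → ‖x‖ < 1 / 2) → N (fun x => ∑ i ∈ F, f i x) ≤ ∑ i ∈ F, N (f i)) →
    ∀ C : ℝ≥0, (∀ (P : Pol) (V : ℝ) (g : E 2 → ℂ), P.totalDegree ≤ m → 0 ≤ V → Cls V s g →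
      N (fun x => ex (ev P x) * g x) ≤ C * ENNReal.ofReal (1 + V)) →
    ∀ (L V : ℝ) (ψ : E 2 → ℝ) (g : E 2 → ℂ), 1 ≤ L → 0 ≤ V → ContDiff ℝ m ψ →
      (∀ x, ‖x‖ ≤ 1 → ‖iteratedFDeriv ℝ m ψ x‖ ≤ L) → Cls V s g →
      N (fun x => ex (ψ x) * g x) ≤ K * C * ENNReal.ofReal (L ^ (2 / (m : ℝ)) * (1 + V)) := by
  classical
  refine ⟨1536, ?_⟩
  intro N hN C hC L V ψ g hL hV hψ hD hg
  -- the scale
  have hm0 : (0 : ℝ) < m := by exact_mod_cast hm
  set t : ℝ := L ^ (1 / (m : ℝ)) with ht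
  have ht1 : 1 ≤ t := Real.one_le_rpow hL (by positivity)
  have htm : t ^ m = L := by
    rw [ht, ← Real.rpow_natCast, ← Real.rpow_mul (by linarith), one_div_mul_cancel hm0.ne',
      Real.rpow_one]
  have htt : t ^ 2 = L ^ (2 / (m : ℝ)) := by
    rw [ht, ← Real.rpow_natCast, ← Real.rpow_mul (by linarith)]
    congr 1
    push_cast
    ring
  obtain ⟨k', hk1, hk2⟩ := exists_nat_pow_near (show (1 : ℝ) ≤ 4 * t by linarith)
    (show (1 : ℝ) < 2 by norm_num)
  set k : ℕ := k' + 1 with hk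
  have hk3 : (2 : ℝ) ^ k ≤ 8 * t := by rw [hk, pow_succ]; linarith
  set r : ℝ := ((2 : ℝ) ^ k)⁻¹ with hr
  have h2k : (0 : ℝ) < 2 ^ k := by positivity
  have hr0 : 0 < r := by positivity
  have hrk : r * 2 ^ k = 1 := inv_mul_cancel₀ h2k.ne'
  have hr4 : r ≤ 1 / 4 := by
    have : (4 : ℝ) ≤ 2 ^ k := by linarith
    nlinarith
  have hLr : L * (4 * r) ^ m ≤ 1 := by
    rw [← htm, ← mul_pow]
    apply pow_le_one₀ (by positivity)
    have h1 : t * 4 ≤ 2 ^ k := by linarith
    calc t * (4 * r) = t * 4 * r := by ring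
      _ ≤ 2 ^ k * r := mul_le_mul_of_nonneg_right h1 hr0.le
      _ = 1 := by rw [mul_comm, hrk]
  -- the squares
  set F : Finset (Fin 2 → ℤ) := (Fintype.piFinset fun _ : Fin 2 =>
    Finset.Ico (-2 ^ k : ℤ) (2 ^ k)).filter fun a => ∃ x ∈ sq k a, ‖x‖ < 1 / 2 with hF
  have hFc : (F.card : ℝ) ≤ 256 * t ^ 2 := by
    have h1 : F.card ≤ (2 * 2 ^ k) ^ 2 := by
      refine (Finset.card_filter_le _ _).trans ?_
      rw [Fintype.card_piFinset_const, Int.card_Ico]
      have h2 : ((2 : ℤ) ^ k - -2 ^ k).toNat = 2 * 2 ^ k := by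
        have : (2 : ℤ) ^ k - -2 ^ k = ((2 * 2 ^ k : ℕ) : ℤ) := by push_cast; ring
        rw [this, Int.toNat_natCast]
      rw [h2]
    have h3 : (F.card : ℝ) ≤ (2 * 2 ^ k) ^ 2 := by exact_mod_cast h1
    have h4 : (2 * (2 : ℝ) ^ k) ^ 2 ≤ (2 * (8 * t)) ^ 2 :=
      pow_le_pow_left₀ (by positivity) (by linarith) 2
    calc (F.card : ℝ) ≤ _ := h3.trans h4
      _ = 256 * t ^ 2 := by ring
  set f : (Fin 2 → ℤ) → E 2 → ℂ := fun a => (sq k a).indicator fun x => ex (ψ x) * g x with hf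
  have hψm : Measurable ψ := hψ.continuous.measurable
  have hsum : (fun x => ex (ψ x) * g x) = fun x => ∑ a ∈ F, f a x := by
    funext x
    by_cases hgx : g x = 0
    · rw [hgx, mul_zero]
      symm
      apply Finset.sum_eq_zero
      intro a _
      simp only [hf]
      by_cases hx : x ∈ sq k a
      · rw [indicator_of_mem hx, hgx, mul_zero]
      · rw [indicator_of_notMem hx]
    · have hx2 := hg.supp x hgx
      have hxs : x ∈ sq k (ix k x) := (mem_sq_iff k _ x).2 rfl
      have hmem : ix k x ∈ F := by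
        rw [hF, Finset.mem_filter]
        refine ⟨?_, x, hxs, hx2⟩
        rw [Fintype.mem_piFinset]
        intro i
        have h3 : |x i| ≤ ‖x‖ := by
          have := PiLp.norm_apply_le x i
          rwa [Real.norm_eq_abs] at this
        have h4 := abs_le.1 (h3.trans hx2.le)
        rw [Finset.mem_Ico]
        unfold ix
        constructor
        · rw [Int.le_floor]
          push_cast
          nlinarith [h4.1]
        · rw [Int.floor_lt]
          push_cast
          nlinarith [h4.2]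
      rw [Finset.sum_eq_single_of_mem (ix k x) hmem]
      · simp only [hf]
        rw [indicator_of_mem hxs]
      · intro b _ hb
        simp only [hf]
        rw [indicator_of_notMem]
        intro h5
        exact hb ((mem_sq_iff k b x).1 h5)
  have hfm : ∀ a, Measurable (f a) := by
    intro a
    simp only [hf]
    rw [sq_eq_box]
    exact ((meas_ex hψm).mul hg.meas).indicator (meas_box _ _)
  have hfb : ∀ a x, ‖f a x‖ ≤ 1 := by
    intro a x
    simp only [hf]
    by_cases hx : x ∈ sq k a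
    · rw [indicator_of_mem hx, norm_mul, norm_ex, one_mul]
      exact hg.bd x
    · rw [indicator_of_notMem hx, norm_zero]
      exact zero_le_one
  have hfs : ∀ a x, f a x ≠ 0 → ‖x‖ < 1 / 2 := by
    intro a x hx
    simp only [hf] at hx
    by_cases hxQ : x ∈ sq k a
    · rw [indicator_of_mem hxQ] at hx
      exact hg.supp x (right_ne_zero_of_mul hx)
    · rw [indicator_of_notMem hxQ] at hx
      exact absurd rfl hx
  rw [hsum]
  refine (hN _ F f hfm hfb hfs).trans ?_
  -- each term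
  have hterm : ∀ a ∈ F, N (f a) ≤ C * ENNReal.ofReal (6 * (1 + V)) := by
    intro a ha
    rw [hF, Finset.mem_filter] at ha
    obtain ⟨-, x₁, hx₁, hx₁'⟩ := ha
    have hball : ∀ z ∈ cl k a, ‖z‖ ≤ 1 := by
      intro z hz
      have h1 := sq_dist hz (sq_sub_cl k a hx₁)
      have h2 : ‖z‖ ≤ ‖x₁‖ + ‖z - x₁‖ := by
        have := norm_add_le x₁ (z - x₁)
        rwa [add_sub_cancel] at this
      rw [← hr] at h1
      linarith
    have hco := hball _ (co_mem_cl k a)
    obtain ⟨m', rfl⟩ : ∃ m', m = m' + 1 := ⟨m - 1, by omega⟩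
    have hψ' : ContDiff ℝ (m' + 1) ψ := by exact_mod_cast hψ
    obtain ⟨P, hP1, hP2⟩ := exists_pol (co k a) (m' + 1) ψ
    set ρ : E 2 → ℝ := fun x => ψ x - TT (co k a) (m' + 1) ψ x with hρ
    have hdiff : ∀ z, DifferentiableAt ℝ ρ z := fun z =>
      (hψ'.differentiable (by simp) z).sub (contDiff_TT _ _ ψ z)
    have hgrad : ∀ z ∈ sq k a, ‖fderiv ℝ ρ z‖ ≤ r⁻¹ := by
      intro z hz
      have hz' := sq_sub_cl k a hz
      refine (taylor_grad (co k a) hco L m' ψ hψ' hD z (hball z hz')).trans ?_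
      have h1 := sq_dist hz' (co_mem_cl k a)
      rw [← hr] at h1
      have h2 : ‖z - co k a‖ ^ m' ≤ (2 * r) ^ m' := pow_le_pow_left₀ (norm_nonneg _) h1 m'
      have h3 : 2 ^ (m' + 1) * L * ‖z - co k a‖ ^ m' ≤ 2 ^ (m' + 1) * L * (2 * r) ^ m' :=
        mul_le_mul_of_nonneg_left h2 (by positivity)
      refine h3.trans ?_
      have h4 : 2 ^ (m' + 1) * L * (2 * r) ^ m' = (1 / 2) * (L * (4 * r) ^ (m' + 1)) * r⁻¹ := by
        have h5 : (4 * r) ^ (m' + 1) = 4 * r * (4 ^ m' * r ^ m') := by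
          rw [pow_succ, mul_pow]; ring
        have h6 : (2 : ℝ) ^ (m' + 1) * (2 * r) ^ m' = 2 * (4 ^ m' * r ^ m') := by
          rw [pow_succ, mul_pow]
          have : (4 : ℝ) ^ m' = 2 ^ m' * 2 ^ m' := by rw [← mul_pow]; norm_num
          rw [this]; ring
        have h7 : r * r⁻¹ = 1 := mul_inv_cancel₀ hr0.ne'
        rw [h5]
        calc _ = L * (2 ^ (m' + 1) * (2 * r) ^ m') := by ring
          _ = L * (2 * (4 ^ m' * r ^ m')) * (r * r⁻¹) := by rw [h6, h7, mul_one]
          _ = _ := by ring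
      rw [h4]
      have h7 : (1 / 2) * (L * (4 * r) ^ (m' + 1)) ≤ 1 := by linarith
      calc (1 / 2) * (L * (4 * r) ^ (m' + 1)) * r⁻¹ ≤ 1 * r⁻¹ :=
            mul_le_mul_of_nonneg_right h7 (by positivity)
        _ = r⁻¹ := one_mul _
    have hlip : ∀ x ∈ sq k a, ∀ y ∈ sq k a, |ρ x - ρ y| ≤ ‖x - y‖ / r := by
      intro x hx y hy
      have h1 := (convex_sq k a).norm_image_sub_le_of_norm_fderiv_le (𝕜 := ℝ)
        (fun z _ => hdiff z) hgrad hy hx
      rw [Real.norm_eq_abs] at h1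
      rw [div_eq_inv_mul]
      exact h1
    have hρm : Measurable ρ :=
      (continuous_iff_continuousAt.2 fun z => (hdiff z).continuousAt).measurable
    have hcls : Cls (V + 5) s ((sq k a).indicator fun x => ex (ρ x) * g x) := by
      rw [sq_eq_box] at hlip ⊢
      exact cls_loc (fun i => (a i : ℝ) / 2 ^ k) r hr0 (by linarith) V s hV hs hs1 g hg ρ hρm hlip
    have h1 := hC P (V + 5) _ hP1 (by linarith) hcls
    have h2 : (fun x => ex (ev P x) * (sq k a).indicator (fun x => ex (ρ x) * g x) x) = f a := by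
      funext x
      simp only [hf]
      by_cases hx : x ∈ sq k a
      · rw [indicator_of_mem hx, indicator_of_mem hx, hP2, ← mul_assoc, ← ex_add]
        congr 2
        simp only [hρ]
        ring
      · rw [indicator_of_notMem hx, indicator_of_notMem hx, mul_zero]
    rw [h2] at h1
    refine h1.trans ?_
    gcongr
    linarith
  refine (Finset.sum_le_sum hterm).trans ?_
  rw [Finset.sum_const, nsmul_eq_mul]
  have h1 : (F.card : ℝ≥0∞) ≤ ENNReal.ofReal (256 * t ^ 2) := by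
    rw [← ENNReal.ofReal_natCast]
    exact ENNReal.ofReal_le_ofReal hFc
  calc (F.card : ℝ≥0∞) * (C * ENNReal.ofReal (6 * (1 + V))) ≤
        ENNReal.ofReal (256 * t ^ 2) * (C * ENNReal.ofReal (6 * (1 + V))) := by gcongr
    _ = C * (ENNReal.ofReal (256 * t ^ 2) * ENNReal.ofReal (6 * (1 + V))) := by ring
    _ = C * ENNReal.ofReal (1536 * (t ^ 2 * (1 + V))) := by
        rw [← ENNReal.ofReal_mul (by positivity)]
        congr 2
        ring
    _ = C * (1536 * ENNReal.ofReal (t ^ 2 * (1 + V))) := by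
        rw [ENNReal.ofReal_mul (by norm_num)]
        norm_num
    _ = ((1536 : ℝ≥0) : ℝ≥0∞) * C * ENNReal.ofReal (L ^ (2 / (m : ℝ)) * (1 + V)) := by
        rw [htt]
        push_cast
        ring

end Pool.Agent.J4.H87.PP
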