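import Pool.Agent.J4.H87.PP.Defs
import Pool.Agent.H153R4.Pl
set_option autoImplicit false

/-! PROJECT PP, piece PL: Plancherel and a sup bound give an `L^q` bound. -/

namespace Pool.Agent.J4.H87.PP

open MeasureTheory Set
open scoped ENNReal NNReal RealInnerProductSpace FourierTransform

lemma FF_eq (f : E 2 → ℂ) (y : E 2) : FF f y = 𝓕 f ((2 * Real.pi)⁻¹ • y) := by
  unfold FF ex
  rw [Real.fourier_eq' f]
  refine integral_congr_ae (Filter.Eventually.of_forall fun x => ?_)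
  simp only [smul_eq_mul]
  congr 2
  rw [inner_smul_right]
  have hpi : (Real.pi : ℝ) ≠ 0 := Real.pi_ne_zero
  have e : -2 * Real.pi * ((2 * Real.pi)⁻¹ * ⟪x, y⟫) = -⟪x, y⟫ := by
    field_simp
  rw [e]

lemma lintegral_scale (g : E 2 → ℝ≥0∞) :
    ∫⁻ y, g ((2 * Real.pi)⁻¹ • y) = ENNReal.ofReal ((2 * Real.pi) ^ 2) * ∫⁻ x, g x := by
  have h2pi : (0 : ℝ) < 2 * Real.pi := by positivity
  have h0 : (2 * Real.pi)⁻¹ ≠ 0 := (inv_pos.2 h2pi).ne'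
  have h1 := Measure.map_addHaar_smul (volume : Measure (E 2)) h0
  have h2 : ∫⁻ y, g ((2 * Real.pi)⁻¹ • y) = ∫⁻ x, g x ∂(Measure.map (fun y => (2 * Real.pi)⁻¹ • y) (volume : Measure (E 2))) := by
    have := (MeasurableEquiv.smul (α := E 2) (Units.mk0 _ h0)).measurableEmbedding.lintegral_map g (μ := (volume : Measure (E 2)))
    exact this.symm
  rw [h2, h1, lintegral_smul_measure, smul_eq_mul]
  congr 2
  rw [finrank_euclideanSpace, Fintype.card_fin, inv_pow, inv_inv, abs_of_pos (by positivity)]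

theorem fixed (q : ℝ) (hq : 2 ≤ q) (f : E 2 → ℂ) (hf : Integrable f) (hf2 : MemLp f 2 volume)
    (B : ℝ) (hB : ∀ y, ‖FF f y‖ ≤ B) :
    ∫⁻ y, ‖FF f y‖ₑ ^ q ≤
      ENNReal.ofReal ((2 * Real.pi) ^ 2) * ENNReal.ofReal B ^ (q - 2) * ∫⁻ x, ‖f x‖ₑ ^ 2 := by
  have h1 : ∀ y, ‖FF f y‖ₑ ^ q ≤ ENNReal.ofReal B ^ (q - 2) * ‖FF f y‖ₑ ^ 2 := by
    intro y
    have e : ‖FF f y‖ₑ ^ q = ‖FF f y‖ₑ ^ (q - 2) * ‖FF f y‖ₑ ^ 2 := by
      rw [← ENNReal.rpow_natCast, ← ENNReal.rpow_add_of_nonneg _ _ (by linarith) (by norm_num)]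
      congr 1
      push_cast
      ring
    rw [e]
    refine mul_le_mul_left ?_ _
    refine ENNReal.rpow_le_rpow ?_ (by linarith)
    rw [← ofReal_norm]
    exact ENNReal.ofReal_le_ofReal (hB y)
  have hfin : ENNReal.ofReal B ^ (q - 2) ≠ ⊤ := ENNReal.rpow_ne_top_of_nonneg (by linarith) ENNReal.ofReal_ne_top
  calc ∫⁻ y, ‖FF f y‖ₑ ^ q ≤ ∫⁻ y, ENNReal.ofReal B ^ (q - 2) * ‖FF f y‖ₑ ^ 2 := lintegral_mono h1
    _ = ENNReal.ofReal B ^ (q - 2) * ∫⁻ y, ‖FF f y‖ₑ ^ 2 := lintegral_const_mul' _ _ hfin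
    _ = ENNReal.ofReal B ^ (q - 2) * (ENNReal.ofReal ((2 * Real.pi) ^ 2) * ∫⁻ x, ‖f x‖ₑ ^ 2) := by
        congr 1
        rw [← Pool.Agent.H153R4.plancherel f hf hf2, ← lintegral_scale fun x => ‖𝓕 f x‖ₑ ^ 2]
        simp only [FF_eq]
    _ = _ := by ring

end Pool.Agent.J4.H87.PP
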