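import Pool.Agent.J4.H87.PP.Defs
set_option autoImplicit false

/-! Polynomial phases: the pointwise bound for the Fourier transform of the squares of one class. -/

namespace Pool.Agent.J4.H87.PP

open MeasureTheory Set MvPolynomial
open scoped ENNReal NNReal RealInnerProductSpace

namespace Sup

theorem kap_le (s : ℝ) : kap s ≤ 2 * (1 + |((⌊s⌋ : ℤ) : ℝ)|)⁻¹ := by
  unfold kap
  have h1 : |((⌊s⌋ : ℤ) : ℝ)| ≤ |s| + 1 := by
    have h2 := Int.floor_le s
    have h3 := Int.lt_floor_add_one s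
    rw [abs_le]
    constructor
    · have := neg_abs_le s
      linarith
    · have := le_abs_self s
      linarith
  have h4 : 0 ≤ |s| := abs_nonneg s
  have h5 : 0 ≤ |((⌊s⌋ : ℤ) : ℝ)| := abs_nonneg _
  rw [← div_eq_mul_inv, le_div_iff₀ (by linarith), inv_mul_le_iff₀ (by linarith)]
  linarith

theorem kap_nonneg (s : ℝ) : 0 ≤ kap s := by
  unfold kap
  positivity

theorem summable_int (r : ℝ) (hr : 1 < r) :
    Summable fun m : ℤ => ((1 + |(m : ℝ)|)⁻¹) ^ r := by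
  have h1 : Summable fun m : ℤ => 1 / |(m : ℝ) + 1| ^ r :=
    (Real.summable_one_div_int_add_rpow 1 r).2 hr
  have h2 : Summable fun m : ℤ => 1 / |(m : ℝ) + (-1)| ^ r :=
    (Real.summable_one_div_int_add_rpow (-1) r).2 hr
  refine Summable.of_nonneg_of_le (fun m => by positivity) (fun m => ?_) (h1.add h2)
  have hpos : ∀ x : ℝ, 0 ≤ 1 / |x| ^ r := fun x => by positivity
  rw [Real.inv_rpow (by positivity), ← one_div]
  rcases le_or_gt 0 m with hm | hm
  · have hm' : (0 : ℝ) ≤ m := by exact_mod_cast hm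
    have h3 : |(m : ℝ) + 1| = 1 + |(m : ℝ)| := by
      rw [abs_of_nonneg hm', abs_of_nonneg (by linarith)]
      ring
    rw [h3]
    have := hpos ((m : ℝ) + (-1))
    linarith
  · have hm' : (m : ℝ) < 0 := by exact_mod_cast hm
    have h3 : |(m : ℝ) + (-1)| = 1 + |(m : ℝ)| := by
      rw [abs_of_neg hm', abs_of_neg (by linarith)]
      ring
    rw [h3]
    have := hpos ((m : ℝ) + 1)
    linarith

/-- the weight of a cell -/
noncomputable def wt (m : ℤ × ℤ) : ℝ :=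
  (2 * (1 + |(m.1 : ℝ)|)⁻¹) * (2 * (1 + |(m.2 : ℝ)|)⁻¹)

theorem wt_nonneg (m : ℤ × ℤ) : 0 ≤ wt m := by
  unfold wt
  positivity

theorem summable_wt (r : ℝ) (hr : 1 < r) : Summable fun m : ℤ × ℤ => wt m ^ r := by
  have h1 := summable_int r hr
  have h2 : Summable fun m : ℤ × ℤ =>
      ((1 + |(m.1 : ℝ)|)⁻¹) ^ r * ((1 + |(m.2 : ℝ)|)⁻¹) ^ r :=
    Summable.mul_of_nonneg h1 h1 (fun m => by positivity) fun m => by positivity
  have h3 := h2.mul_left ((2 : ℝ) ^ r * 2 ^ r)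
  refine h3.congr fun m => ?_
  unfold wt
  rw [Real.mul_rpow (by positivity) (by positivity), Real.mul_rpow (by positivity) (by positivity),
    Real.mul_rpow (by positivity) (by positivity)]
  ring

theorem young (δ : ℝ) (hδ : 0 < δ) (hδ1 : δ < 1) (w ν : ℝ) (hw : 0 ≤ w) (hν : 0 ≤ ν) :
    w * ν ^ δ ≤ w ^ (1 / (1 - δ)) + ν := by
  have hpq : (1 / (1 - δ)).HolderConjugate (1 / δ) := by
    rw [Real.holderConjugate_iff]
    constructor
    · rw [lt_div_iff₀ (by linarith)]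
      linarith
    · rw [one_div, one_div, inv_inv, inv_inv]
      ring
  have h1 := Real.young_inequality_of_nonneg hw (Real.rpow_nonneg hν δ) hpq
  have h2 : (ν ^ δ) ^ (1 / δ) = ν := by
    rw [← Real.rpow_mul hν, mul_one_div_cancel hδ.ne', Real.rpow_one]
  rw [h2] at h1
  have h3 : w ^ (1 / (1 - δ)) / (1 / (1 - δ)) ≤ w ^ (1 / (1 - δ)) := by
    refine div_le_self (Real.rpow_nonneg hw _) ?_
    rw [le_div_iff₀ (by linarith)]
    linarith
  have h4 : ν / (1 / δ) ≤ ν := by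
    refine div_le_self hν ?_
    rw [le_div_iff₀ hδ]
    linarith
  linarith

theorem card_T (p : Pol) (k l : ℕ) : ((T p k l).card : ℝ) ≤ 4 * 4 ^ (k + 1) := by
  classical
  have h1 : (T p k l).card ≤
      (Fintype.piFinset fun _ : Fin 2 => Finset.Ico (-2 ^ (k + 1) : ℤ) (2 ^ (k + 1))).card :=
    Finset.card_le_card (Finset.filter_subset _ _)
  have h2 : (Fintype.piFinset fun _ : Fin 2 =>
      Finset.Ico (-2 ^ (k + 1) : ℤ) (2 ^ (k + 1))).card = 4 * 4 ^ (k + 1) := by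
    rw [Fintype.card_piFinset, Fin.prod_univ_two, Int.card_Ico]
    have h3 : (2 ^ (k + 1) - -2 ^ (k + 1) : ℤ).toNat = 2 * 2 ^ (k + 1) := by
      have h4 : (2 ^ (k + 1) - -2 ^ (k + 1) : ℤ) = ((2 * 2 ^ (k + 1) : ℕ) : ℤ) := by
        push_cast
        ring
      rw [h4, Int.toNat_natCast]
    rw [h3]
    have h5 : (4 : ℕ) ^ (k + 1) = 2 ^ (k + 1) * 2 ^ (k + 1) := by
      rw [← mul_pow]
      norm_num
    rw [h5]
    ring
  rw [h2] at h1
  exact_mod_cast h1

end Sup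

open Classical in
/-- The pointwise bound; `hker` and `hcnt` are the statements of `ker` and `cnt`. -/
theorem sup (hker : ∀ (p : Pol) (k : ℕ) (a : Fin 2 → ℤ), Good p k a → ∀ y : E 2,
      ‖∫ x in sq k a, ex (ev p x - ⟪x, y⟫)‖ ≤
      100 / 4 ^ k * (kap ((y 0 - d1 p 0 (co k a)) / 2 ^ k) * kap ((y 1 - d1 p 1 (co k a)) / 2 ^ k)))
    (n : ℕ)
    (hcnt : ∃ C c : ℝ, 0 < C ∧ 0 < c ∧ c ≤ 1 ∧ ∀ p : Pol, p.totalDegree ≤ n →
      ∀ (k l : ℕ) (z : E 2),
        (((T p k l).filter fun a => ∀ i, |d1 p i (co (k + 1) a) - z i| ≤ 2 ^ (k + 1)).card : ℝ) ≤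
          C * 4 ^ (k + 1) * zz c k l)
    (δ : ℝ) (hδ : 0 < δ) (hδ1 : δ < 1) : ∃ C c : ℝ, 0 < C ∧ 0 < c ∧ c ≤ 1 ∧
    ∀ p : Pol, p.totalDegree ≤ n → ∀ (k l : ℕ) (h : (Fin 2 → ℤ) → ℂ), (∀ a, ‖h a‖ ≤ 1) →
      ∀ y : E 2, ‖∑ a ∈ T p k l, h a * ∫ x in sq (k + 1) a, ex (ev p x - ⟪x, y⟫)‖ ≤
        C * zz c k l ^ (1 - δ) := by
  obtain ⟨C0, c, hC0, hc, hc1, hcnt⟩ := hcnt
  set r : ℝ := 1 / (1 - δ) with hr
  have hr1 : 1 < r := by
    rw [hr, lt_div_iff₀ (by linarith)]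
    linarith
  set W : ℝ := ∑' m : ℤ × ℤ, Sup.wt m ^ r with hW
  have hW0 : 0 ≤ W := tsum_nonneg fun m => Real.rpow_nonneg (Sup.wt_nonneg m) r
  have hsum := Sup.summable_wt r hr1
  refine ⟨100 * C0 ^ (1 - δ) * (W + 4), c, by positivity, hc, hc1, ?_⟩
  intro p hp k l h hh y
  set N : ℝ := 4 ^ (k + 1) with hN
  have hN0 : 0 < N := by positivity
  set s : Fin 2 → (Fin 2 → ℤ) → ℝ := fun i a => (y i - d1 p i (co (k + 1) a)) / 2 ^ (k + 1)
    with hs
  let cell : (Fin 2 → ℤ) → ℤ × ℤ := fun a => (⌊s 0 a⌋, ⌊s 1 a⌋)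
  let ν : ℤ × ℤ → ℝ := fun m => (((T p k l).filter fun a => cell a = m).card : ℝ) / N
  have hν0 : ∀ m, 0 ≤ ν m := fun m => by positivity
  have hzz : 0 ≤ zz c k l := by unfold zz; positivity
  -- the terms
  have hterm : ∀ a ∈ T p k l, ‖h a * ∫ x in sq (k + 1) a, ex (ev p x - ⟪x, y⟫)‖ ≤
      100 / N * Sup.wt (cell a) := by
    intro a ha
    have hG : Good p (k + 1) a := (Finset.mem_filter.1 ha).2.1.1
    rw [norm_mul]
    have h1 := hker p (k + 1) a hG y
    have h2 : ‖h a‖ * ‖∫ x in sq (k + 1) a, ex (ev p x - ⟪x, y⟫)‖ ≤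
        1 * (100 / 4 ^ (k + 1) * (kap (s 0 a) * kap (s 1 a))) :=
      mul_le_mul (hh a) h1 (norm_nonneg _) zero_le_one
    rw [one_mul] at h2
    refine h2.trans (mul_le_mul_of_nonneg_left ?_ (by positivity))
    exact mul_le_mul (Sup.kap_le _) (Sup.kap_le _) (Sup.kap_nonneg _) (by positivity)
  have h1 : ‖∑ a ∈ T p k l, h a * ∫ x in sq (k + 1) a, ex (ev p x - ⟪x, y⟫)‖ ≤
      ∑ a ∈ T p k l, 100 / N * Sup.wt (cell a) := norm_sum_le_of_le _ hterm
  have h2 : ∑ a ∈ T p k l, 100 / N * Sup.wt (cell a) =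
      100 * ∑ m ∈ (T p k l).image cell, Sup.wt m * ν m := by
    rw [← Finset.sum_fiberwise_of_maps_to (g := cell) (t := (T p k l).image cell)
      (fun a ha => Finset.mem_image_of_mem _ ha), Finset.mul_sum]
    refine Finset.sum_congr rfl fun m _ => ?_
    have h3 : ∀ a ∈ (T p k l).filter (fun a => cell a = m), 100 / N * Sup.wt (cell a) =
        100 / N * Sup.wt m := fun a ha => by rw [(Finset.mem_filter.1 ha).2]
    rw [Finset.sum_congr rfl h3, Finset.sum_const, nsmul_eq_mul]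
    simp only [ν]
    ring
  -- the bound for a cell
  have h3 : ∀ m, ν m ≤ C0 * zz c k l := by
    intro m
    have h4 := hcnt p hp k l (WithLp.toLp 2 fun i => y i - 2 ^ (k + 1) *
      ((if i = 0 then (m.1 : ℝ) else (m.2 : ℝ)) + 1 / 2))
    have h5 : ((T p k l).filter fun a => cell a = m).card ≤
        ((T p k l).filter fun a => ∀ i, |d1 p i (co (k + 1) a) -
          (WithLp.toLp 2 (fun i => y i - 2 ^ (k + 1) *
      ((if i = 0 then (m.1 : ℝ) else (m.2 : ℝ)) + 1 / 2)) : E 2) i| ≤ 2 ^ (k + 1)).card := by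
      refine Finset.card_le_card fun a ha => ?_
      rw [Finset.mem_filter] at ha ⊢
      refine ⟨ha.1, fun i => ?_⟩
      have h6 : ((⌊s i a⌋ : ℤ) : ℝ) = if i = 0 then (m.1 : ℝ) else (m.2 : ℝ) := by
        rw [← ha.2]
        fin_cases i
        · simp [cell]
        · simp [cell]
      have h7 := Int.floor_le (s i a)
      have h8 := Int.lt_floor_add_one (s i a)
      rw [h6] at h7 h8
      have hP : (0 : ℝ) < 2 ^ (k + 1) := by positivity
      have h9 : y i - d1 p i (co (k + 1) a) = s i a * 2 ^ (k + 1) := by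
        simp only [hs]
        field_simp
      change |d1 p i (co (k + 1) a) - (y i - 2 ^ (k + 1) *
        ((if i = 0 then (m.1 : ℝ) else (m.2 : ℝ)) + 1 / 2))| ≤ _
      have h10 : d1 p i (co (k + 1) a) - (y i - 2 ^ (k + 1) *
          ((if i = 0 then (m.1 : ℝ) else (m.2 : ℝ)) + 1 / 2)) =
          2 ^ (k + 1) * (((if i = 0 then (m.1 : ℝ) else (m.2 : ℝ)) + 1 / 2) - s i a) := by
        linear_combination -h9
      rw [h10, abs_mul, abs_of_pos hP]
      refine mul_le_of_le_one_right hP.le ?_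
      rw [abs_le]
      constructor <;> linarith
    rw [div_le_iff₀ hN0]
    calc (((T p k l).filter fun a => cell a = m).card : ℝ) ≤ _ := by exact_mod_cast h5
      _ ≤ _ := h4
      _ = C0 * zz c k l * N := by rw [hN]; ring
  -- the sum of all
  have h4 : ∑ m ∈ (T p k l).image cell, ν m ≤ 4 := by
    have h5 : ∑ m ∈ (T p k l).image cell, ν m = ((T p k l).card : ℝ) / N := by
      simp only [ν]
      rw [← Finset.sum_div, ← Nat.cast_sum]
      congr 2
      exact (Finset.card_eq_sum_card_fiberwise fun a ha => Finset.mem_image_of_mem _ ha).symm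
    rw [h5, div_le_iff₀ hN0]
    exact Sup.card_T p k l
  have h5 : ∀ m, Sup.wt m * ν m ≤ (C0 * zz c k l) ^ (1 - δ) * (Sup.wt m ^ r + ν m) := by
    intro m
    have h6 : ν m = ν m ^ (1 - δ) * ν m ^ δ := by
      rw [← Real.rpow_add_of_nonneg (hν0 m) (by linarith) hδ.le, sub_add_cancel, Real.rpow_one]
    have h7 : ν m ^ (1 - δ) ≤ (C0 * zz c k l) ^ (1 - δ) :=
      Real.rpow_le_rpow (hν0 m) (h3 m) (by linarith)
    have h8 := Sup.young δ hδ hδ1 (Sup.wt m) (ν m) (Sup.wt_nonneg m) (hν0 m)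
    calc Sup.wt m * ν m = ν m ^ (1 - δ) * (Sup.wt m * ν m ^ δ) := by
          conv_lhs => rw [h6]
          ring
      _ ≤ (C0 * zz c k l) ^ (1 - δ) * (Sup.wt m ^ r + ν m) :=
          mul_le_mul h7 h8 (mul_nonneg (Sup.wt_nonneg m) (Real.rpow_nonneg (hν0 m) _))
            (Real.rpow_nonneg (by positivity) _)
  have h6 : ∑ m ∈ (T p k l).image cell, Sup.wt m ^ r ≤ W :=
    hsum.sum_le_tsum _ fun m _ => Real.rpow_nonneg (Sup.wt_nonneg m) r
  have h7 : ∑ m ∈ (T p k l).image cell, Sup.wt m * ν m ≤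
      (C0 * zz c k l) ^ (1 - δ) * (W + 4) := by
    refine (Finset.sum_le_sum fun m _ => h5 m).trans ?_
    rw [← Finset.mul_sum, Finset.sum_add_distrib]
    exact mul_le_mul_of_nonneg_left (add_le_add h6 h4) (Real.rpow_nonneg (by positivity) _)
  rw [Real.mul_rpow hC0.le hzz] at h7
  calc ‖∑ a ∈ T p k l, h a * ∫ x in sq (k + 1) a, ex (ev p x - ⟪x, y⟫)‖
      ≤ 100 * ∑ m ∈ (T p k l).image cell, Sup.wt m * ν m := h1.trans h2.le
    _ ≤ 100 * (C0 ^ (1 - δ) * zz c k l ^ (1 - δ) * (W + 4)) :=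
        mul_le_mul_of_nonneg_left h7 (by norm_num)
    _ = 100 * C0 ^ (1 - δ) * (W + 4) * zz c k l ^ (1 - δ) := by ring

end Pool.Agent.J4.H87.PP
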