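import Pool.Agent.J4.H87.PP.Sub

/-!
# The measure of the set of times for which a point lies in a square of a given class
-/

set_option autoImplicit false

namespace Pool.Agent.J4.H87.PP

open MeasureTheory Set MvPolynomial
open scoped ENNReal NNReal RealInnerProductSpace

namespace Tin

/-! ### Algebra -/

theorem degree_pderiv (i : Fin 2) (p : Pol) : (pderiv i p).totalDegree ≤ p.totalDegree := by
  classical
  unfold totalDegree
  apply Finset.sup_le
  intro m hm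
  rw [mem_support_iff, coeff_pderiv] at hm
  have h1 : m + Finsupp.single i 1 ∈ p.support := by
    rw [mem_support_iff]
    intro h0
    rw [h0, zero_mul] at hm
    exact hm rfl
  have h2 := Finset.le_sup (f := fun s : Fin 2 →₀ ℕ => s.sum fun _ e => e) h1
  refine le_trans ?_ h2
  rw [Finsupp.sum_add_index' (by simp) (by simp)]
  exact Nat.le_add_right _ _

theorem pderiv_comm (i j : Fin 2) (p : Pol) : pderiv i (pderiv j p) = pderiv j (pderiv i p) := by
  ext m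
  simp only [coeff_pderiv]
  by_cases h : i = j
  · subst h; rfl
  · have h1 : (m + Finsupp.single i 1 : Fin 2 →₀ ℕ) j = m j := by
      simp [h]
    have h2 : (m + Finsupp.single j 1 : Fin 2 →₀ ℕ) i = m i := by
      simp [Ne.symm h]
    rw [h1, h2, add_right_comm]; ring

theorem degree_ph (P : Pol) (t : ℝ) : (ph P t).totalDegree ≤ P.totalDegree + 2 := by
  unfold ph
  refine (totalDegree_sub _ _).trans (max_le (Nat.le_add_right _ _) ?_)
  refine (totalDegree_mul _ _).trans ?_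
  rw [totalDegree_C, zero_add]
  refine (totalDegree_add _ _).trans (max_le ?_ ?_) <;>
  · rw [totalDegree_X_pow]
    omega

theorem degree_d2 (P : Pol) (t : ℝ) (i j : Fin 2) :
    (pderiv i (pderiv j (ph P t))).totalDegree ≤ P.totalDegree + 2 :=
  (degree_pderiv _ _).trans ((degree_pderiv _ _).trans (degree_ph P t))

theorem d2_ph (P : Pol) (t : ℝ) (i j : Fin 2) (x : E 2) :
    d2 (ph P t) i j x = d2 P i j x - 2 * t * (if i = j then 1 else 0) := by
  have h2 : ∀ i : Fin 2, pderiv i (2 : Pol) = 0 := by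
    intro i
    rw [show (2 : Pol) = C 2 from rfl]
    exact pderiv_C
  unfold d2 ph ev
  fin_cases i <;> fin_cases j
  all_goals simp [h2]
  all_goals ring_nf

theorem ev_Jp (p : Pol) (x : E 2) :
    ev (Jp p) x = d2 p 0 0 x * d2 p 1 1 x - d2 p 0 1 x * d2 p 1 0 x := by
  unfold Jp d2 ev
  rw [map_sub, map_mul, map_mul]

theorem d2_symm (p : Pol) (x : E 2) : d2 p 1 0 x = d2 p 0 1 x := by
  unfold d2
  rw [pderiv_comm]

theorem ev_cont (p : Pol) : Continuous fun x : E 2 => ev p x := by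
  unfold ev
  have h1 : Continuous fun x : E 2 => (fun i => x i : Fin 2 → ℝ) := by
    refine continuous_pi fun i => ?_
    exact (EuclideanSpace.proj i : E 2 →L[ℝ] ℝ).continuous
  exact (MvPolynomial.continuous_eval p).comp h1

/-! ### The set of times for one point -/

theorem times {a b h c m : ℝ} (hc : 0 < c)
    (h1 : c ≤ |a| ∨ c ≤ |b| ∨ c ≤ |h|) (h2 : |a * b - h * h| ≤ m) :
    |(a + b) / 2 - √(((a - b) / 2) ^ 2 + h ^ 2)| ≤ m / c ∨
      |(a + b) / 2 + √(((a - b) / 2) ^ 2 + h ^ 2)| ≤ m / c := by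
  obtain ⟨D, hD⟩ : ∃ D : ℝ, D = √(((a - b) / 2) ^ 2 + h ^ 2) := ⟨_, rfl⟩
  rw [← hD]
  have hD0 : 0 ≤ D := by rw [hD]; exact Real.sqrt_nonneg _
  have hD2 : D ^ 2 = ((a - b) / 2) ^ 2 + h ^ 2 := by
    rw [hD, Real.sq_sqrt (by positivity)]
  have e1 : |(a - b) / 2| ≤ D := by
    apply abs_le_of_sq_le_sq _ hD0
    nlinarith [sq_nonneg h]
  have e2 : |h| ≤ D := by
    apply abs_le_of_sq_le_sq _ hD0
    nlinarith [sq_nonneg ((a - b) / 2)]
  have e3 : c ≤ |(a + b) / 2| + D := by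
    rcases h1 with h1 | h1 | h1
    · have : |a| ≤ |(a + b) / 2| + |(a - b) / 2| := by
        calc |a| = |(a + b) / 2 + (a - b) / 2| := by congr 1; ring
          _ ≤ _ := abs_add_le _ _
      linarith
    · have : |b| ≤ |(a + b) / 2| + |(a - b) / 2| := by
        calc |b| = |(a + b) / 2 - (a - b) / 2| := by congr 1; ring
          _ ≤ _ := abs_sub _ _
      linarith
    · have := abs_nonneg ((a + b) / 2)
      linarith
  have e4 : ((a + b) / 2 - D) * ((a + b) / 2 + D) = a * b - h * h := by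
    have : ((a + b) / 2 - D) * ((a + b) / 2 + D) = ((a + b) / 2) ^ 2 - D ^ 2 := by ring
    rw [this, hD2]
    ring
  have e5 : |(a + b) / 2 - D| * |(a + b) / 2 + D| ≤ m := by
    rw [← abs_mul, e4]
    exact h2
  rcases le_total 0 ((a + b) / 2) with h3 | h3
  · left
    rw [le_div_iff₀ hc]
    refine le_trans ?_ e5
    apply mul_le_mul_of_nonneg_left _ (abs_nonneg _)
    rw [abs_of_nonneg h3] at e3
    rw [abs_of_nonneg (by linarith)]
    exact e3
  · right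
    rw [le_div_iff₀ hc]
    rw [mul_comm] at e5
    refine le_trans ?_ e5
    apply mul_le_mul_of_nonneg_left _ (abs_nonneg _)
    rw [abs_of_nonpos h3] at e3
    rw [abs_of_nonpos (by linarith)]
    linarith

/-- the exceptional set of `(t, x)` -/
def BB (c : ℝ) (P : Pol) (k l : ℕ) : Set (ℝ × E 2) :=
  {z | z.2 ∈ SS ∧ (∃ i j : Fin 2, c * 4 ^ k ≤ |d2 P i j z.2 - 2 * z.1 * (if i = j then 1 else 0)|) ∧
    |(d2 P 0 0 z.2 - 2 * z.1) * (d2 P 1 1 z.2 - 2 * z.1) - d2 P 0 1 z.2 * d2 P 0 1 z.2| ≤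
      2 ^ l * 4 ^ (k + 1)}

theorem SS_meas : MeasurableSet SS := by
  have : SS = ⋂ i : Fin 2, {x : E 2 | -1 ≤ x i} ∩ {x : E 2 | x i < 1} := by
    ext x
    simp [SS]
  rw [this]
  refine MeasurableSet.iInter fun i => ?_
  have hc : Continuous fun x : E 2 => x i := (EuclideanSpace.proj i : E 2 →L[ℝ] ℝ).continuous
  exact (measurableSet_le measurable_const hc.measurable).inter
    (measurableSet_lt hc.measurable measurable_const)

theorem SS_fin : volume SS < ⊤ := by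
  apply Bornology.IsBounded.measure_lt_top
  rw [isBounded_iff_forall_norm_le]
  refine ⟨2, fun x hx => ?_⟩
  rw [EuclideanSpace.norm_eq, Fin.sum_univ_two]
  apply Real.sqrt_le_iff.2
  refine ⟨by norm_num, ?_⟩
  have h0 := hx 0
  have h1 := hx 1
  rw [Real.norm_eq_abs, Real.norm_eq_abs, sq_abs, sq_abs]
  nlinarith [h0.1, h0.2, h1.1, h1.2]

theorem BB_meas (c : ℝ) (P : Pol) (k l : ℕ) : MeasurableSet (BB c P k l) := by
  have hd : ∀ i j : Fin 2, Continuous fun z : ℝ × E 2 => d2 P i j z.2 := fun i j =>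
    (ev_cont (pderiv i (pderiv j P))).comp continuous_snd
  have h1 : MeasurableSet {z : ℝ × E 2 | z.2 ∈ SS} := measurable_snd SS_meas
  have h2 : ∀ i j : Fin 2, MeasurableSet {z : ℝ × E 2 |
      c * 4 ^ k ≤ |d2 P i j z.2 - 2 * z.1 * (if i = j then 1 else 0)|} := by
    intro i j
    apply measurableSet_le measurable_const
    apply Continuous.measurable
    exact ((hd i j).sub ((continuous_const.mul continuous_fst).mul continuous_const)).abs
  have h3 : MeasurableSet {z : ℝ × E 2 |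
      |(d2 P 0 0 z.2 - 2 * z.1) * (d2 P 1 1 z.2 - 2 * z.1) - d2 P 0 1 z.2 * d2 P 0 1 z.2| ≤
        2 ^ l * 4 ^ (k + 1)} := by
    apply measurableSet_le _ measurable_const
    apply Continuous.measurable
    exact ((((hd 0 0).sub (continuous_const.mul continuous_fst)).mul
      ((hd 1 1).sub (continuous_const.mul continuous_fst))).sub ((hd 0 1).mul (hd 0 1))).abs
  have h4 : BB c P k l = {z : ℝ × E 2 | z.2 ∈ SS} ∩ ((⋃ i : Fin 2, ⋃ j : Fin 2, {z : ℝ × E 2 |
      c * 4 ^ k ≤ |d2 P i j z.2 - 2 * z.1 * (if i = j then 1 else 0)|}) ∩ {z : ℝ × E 2 |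
      |(d2 P 0 0 z.2 - 2 * z.1) * (d2 P 1 1 z.2 - 2 * z.1) - d2 P 0 1 z.2 * d2 P 0 1 z.2| ≤
        2 ^ l * 4 ^ (k + 1)}) := by
    ext z
    simp only [BB, mem_ofPred_eq, mem_inter_iff, mem_iUnion]
  rw [h4]
  exact h1.inter ((MeasurableSet.iUnion fun i => MeasurableSet.iUnion fun j => h2 i j).inter h3)

/-- the times for the point `x` -/
theorem slice {c : ℝ} (hc : 0 < c) (P : Pol) (k l : ℕ) (x : E 2) :
    volume {t : ℝ | (t, x) ∈ BB c P k l} ≤ ENNReal.ofReal (8 / c) * 2 ^ l := by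
  obtain ⟨r, hr⟩ : ∃ r : ℝ, r = 2 * 2 ^ l / c := ⟨_, rfl⟩
  have hr0 : 0 ≤ r := by rw [hr]; positivity
  obtain ⟨D, hD⟩ : ∃ D : ℝ, D = √(((d2 P 0 0 x - d2 P 1 1 x) / 2) ^ 2 + (d2 P 0 1 x) ^ 2) :=
    ⟨_, rfl⟩
  obtain ⟨s, hs⟩ : ∃ s : ℝ, s = (d2 P 0 0 x + d2 P 1 1 x) / 2 := ⟨_, rfl⟩
  have hsub : {t : ℝ | (t, x) ∈ BB c P k l} ⊆
      Icc ((s - D) / 2 - r) ((s - D) / 2 + r) ∪ Icc ((s + D) / 2 - r) ((s + D) / 2 + r) := by
    intro t ht
    obtain ⟨-, ⟨i, j, hij⟩, hJ⟩ := ht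
    simp only at hij hJ
    have h4 : (0 : ℝ) < c * 4 ^ k := by positivity
    have hm := times (a := d2 P 0 0 x - 2 * t) (b := d2 P 1 1 x - 2 * t) (h := d2 P 0 1 x)
      (c := c * 4 ^ k) (m := 2 ^ l * 4 ^ (k + 1)) h4 (by
        fin_cases i <;> fin_cases j
        · left; simpa using hij
        · right; right; simpa using hij
        · right; right; simpa [d2_symm] using hij
        · right; left; simpa using hij) hJ
    have e1 : ((d2 P 0 0 x - 2 * t) + (d2 P 1 1 x - 2 * t)) / 2 = s - 2 * t := by rw [hs]; ring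
    have e2 : √(((d2 P 0 0 x - 2 * t - (d2 P 1 1 x - 2 * t)) / 2) ^ 2 + d2 P 0 1 x ^ 2) = D := by
      rw [hD]
      congr 2
      ring
    have e3 : (2 : ℝ) ^ l * 4 ^ (k + 1) / (c * 4 ^ k) = 2 * r := by
      rw [hr, pow_succ]
      field_simp
      ring
    rw [e1, e2, e3] at hm
    rcases hm with hm | hm
    · left
      rw [abs_le] at hm
      constructor <;> linarith [hm.1, hm.2]
    · right
      rw [abs_le] at hm
      constructor <;> linarith [hm.1, hm.2]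
  refine (measure_mono hsub).trans ((measure_union_le _ _).trans ?_)
  rw [Real.volume_Icc, Real.volume_Icc, ← ENNReal.ofReal_add (by linarith) (by linarith)]
  have e4 : (2 : ℝ≥0∞) ^ l = ENNReal.ofReal (2 ^ l) := by
    rw [ENNReal.ofReal_pow (by norm_num), ENNReal.ofReal_ofNat]
  rw [e4, ← ENNReal.ofReal_mul (by positivity)]
  apply ENNReal.ofReal_le_ofReal
  rw [hr]
  apply le_of_eq
  ring

/-! ### Squares -/

theorem sq_meas (k : ℕ) (a : Fin 2 → ℤ) : MeasurableSet (sq k a) := by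
  have : sq k a = ⋂ i : Fin 2, {x : E 2 | (a i : ℝ) / 2 ^ k ≤ x i} ∩
      {x : E 2 | x i < ((a i : ℝ) + 1) / 2 ^ k} := by
    ext x
    simp [sq]
  rw [this]
  refine MeasurableSet.iInter fun i => ?_
  have hc : Continuous fun x : E 2 => x i := (EuclideanSpace.proj i : E 2 →L[ℝ] ℝ).continuous
  exact (measurableSet_le measurable_const hc.measurable).inter
    (measurableSet_lt hc.measurable measurable_const)

theorem sq_disj (k : ℕ) {a b : Fin 2 → ℤ} (h : a ≠ b) : Disjoint (sq k a) (sq k b) := by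
  rw [Set.disjoint_left]
  intro x hx hx'
  apply h
  funext i
  have h2k : (0 : ℝ) < 2 ^ k := by positivity
  have key : ∀ u v : ℤ, (u : ℝ) / 2 ^ k ≤ x i → x i < ((v : ℝ) + 1) / 2 ^ k → u < v + 1 := by
    intro u v hu hv
    have h3 := hu.trans_lt hv
    rw [div_lt_div_iff_of_pos_right h2k] at h3
    exact_mod_cast h3
  have h3 := key _ _ (hx i).1 (hx' i).2
  have h4 := key _ _ (hx' i).1 (hx i).2
  omega

theorem sq_sub_cl (k : ℕ) (a : Fin 2 → ℤ) : sq k a ⊆ cl k a :=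
  fun _ hx i => ⟨(hx i).1, (hx i).2.le⟩

theorem sq_sub_SS {k : ℕ} {a : Fin 2 → ℤ}
    (ha : ∀ i, -2 ^ (k + 1) ≤ a i ∧ a i < 2 ^ (k + 1)) : sq (k + 1) a ⊆ SS := by
  intro x hx i
  have h2k : (0 : ℝ) < 2 ^ (k + 1) := by positivity
  have h1 : (-2 ^ (k + 1) : ℝ) ≤ a i := by exact_mod_cast (ha i).1
  have h2 : (a i : ℝ) + 1 ≤ 2 ^ (k + 1) := by exact_mod_cast (ha i).2
  constructor
  · refine le_trans ?_ (hx i).1
    rw [le_div_iff₀ h2k]
    linarith
  · refine (hx i).2.trans_le ?_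
    rw [div_le_one h2k]
    exact h2

theorem sq_fin (k : ℕ) (a : Fin 2 → ℤ) : volume (sq k a) < ⊤ := by
  apply Bornology.IsBounded.measure_lt_top
  rw [isBounded_iff_forall_norm_le]
  refine ⟨∑ i : Fin 2, (|(a i : ℝ) / 2 ^ k| + |((a i : ℝ) + 1) / 2 ^ k|), fun x hx => ?_⟩
  have h1 : ∀ i, |x i| ≤ |(a i : ℝ) / 2 ^ k| + |((a i : ℝ) + 1) / 2 ^ k| := by
    intro i
    have h2 := (hx i).1
    have h3 := (hx i).2.le
    have h4 := neg_abs_le ((a i : ℝ) / 2 ^ k)
    have h5 := le_abs_self (((a i : ℝ) + 1) / 2 ^ k)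
    have h6 := abs_nonneg ((a i : ℝ) / 2 ^ k)
    have h7 := abs_nonneg (((a i : ℝ) + 1) / 2 ^ k)
    rw [abs_le]
    constructor <;> linarith
  refine le_trans ?_ (Finset.sum_le_sum fun i _ => h1 i)
  rw [EuclideanSpace.norm_eq, Fin.sum_univ_two, Fin.sum_univ_two]
  apply Real.sqrt_le_iff.2
  refine ⟨by positivity, ?_⟩
  rw [Real.norm_eq_abs, Real.norm_eq_abs]
  nlinarith [abs_nonneg (x 0), abs_nonneg (x 1), mul_nonneg (abs_nonneg (x 0)) (abs_nonneg (x 1))]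

theorem par_close {k : ℕ} {a : Fin 2 → ℤ} {ξ : E 2} (hξ : ξ ∈ cl k (par a)) (i : Fin 2) :
    |ξ i - co (k + 1) a i| ≤ 2 / 2 ^ (k + 1) := by
  have h2k : (0 : ℝ) < 2 ^ (k + 1) := by positivity
  have h1 := (hξ i).1
  have h2 := (hξ i).2
  have h3 : 2 * (par a i) ≤ a i ∧ a i ≤ 2 * (par a i) + 1 := by
    unfold par
    constructor <;> omega
  have h4 : (2 * (par a i : ℝ)) ≤ a i := by exact_mod_cast h3.1
  have h5 : (a i : ℝ) ≤ 2 * (par a i : ℝ) + 1 := by exact_mod_cast h3.2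
  have e1 : ((par a i : ℤ) : ℝ) / 2 ^ k = 2 * (par a i : ℝ) / 2 ^ (k + 1) := by
    rw [pow_succ]; field_simp
  have e2 : (((par a i : ℤ) : ℝ) + 1) / 2 ^ k = (2 * (par a i : ℝ) + 2) / 2 ^ (k + 1) := by
    rw [pow_succ]; field_simp
  rw [e1] at h1
  rw [e2] at h2
  have hco : co (k + 1) a i = (a i : ℝ) / 2 ^ (k + 1) := rfl
  rw [hco, abs_le]
  constructor
  · have : -(2 / 2 ^ (k + 1)) ≤ 2 * (par a i : ℝ) / 2 ^ (k + 1) - (a i : ℝ) / 2 ^ (k + 1) := by
      rw [← sub_div, ← neg_div]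
      apply div_le_div_of_nonneg_right _ h2k.le
      linarith
    linarith
  · have : (2 * (par a i : ℝ) + 2) / 2 ^ (k + 1) - (a i : ℝ) / 2 ^ (k + 1) ≤ 2 / 2 ^ (k + 1) := by
      rw [← sub_div]
      apply div_le_div_of_nonneg_right _ h2k.le
      linarith
    linarith

theorem J_le {p : Pol} {k l : ℕ} {a : Fin 2 → ℤ} (hG : Good p (k + 1) a) (hl : lev p k a = l) :
    ∀ x ∈ cl (k + 1) a, |ev (Jp p) x| ≤ 2 ^ l * 4 ^ (k + 1) := by
  have hne : {l : ℕ | ∀ x ∈ cl (k + 1) a, |ev (Jp p) x| ≤ 2 ^ l * 4 ^ (k + 1)}.Nonempty := by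
    refine ⟨2 * (k + 1) + 1, fun x hx => ?_⟩
    rw [ev_Jp]
    have h1 := hG x hx
    have h2 : ∀ i j i' j', |d2 p i j x * d2 p i' j' x| ≤ 4 ^ (k + 1) * 4 ^ (k + 1) := by
      intro i j i' j'
      rw [abs_mul]
      exact mul_le_mul (h1 i j) (h1 i' j') (abs_nonneg _) (by positivity)
    calc |d2 p 0 0 x * d2 p 1 1 x - d2 p 0 1 x * d2 p 1 0 x|
        ≤ |d2 p 0 0 x * d2 p 1 1 x| + |d2 p 0 1 x * d2 p 1 0 x| := abs_sub _ _
      _ ≤ 4 ^ (k + 1) * 4 ^ (k + 1) + 4 ^ (k + 1) * 4 ^ (k + 1) := add_le_add (h2 _ _ _ _) (h2 _ _ _ _)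
      _ = 2 ^ (2 * (k + 1) + 1) * 4 ^ (k + 1) := by
          rw [pow_succ (2 : ℝ) (2 * (k + 1)), pow_mul]
          norm_num
          ring
  have h1 := Nat.sInf_mem hne
  have h2 : sInf {l : ℕ | ∀ x ∈ cl (k + 1) a, |ev (Jp p) x| ≤ 2 ^ l * 4 ^ (k + 1)} = l := hl
  rw [h2] at h1
  exact h1

/-- half of the square lies in the set -/
theorem sq_le {N : ℕ} {c : ℝ} (hh : ∀ p : Pol, p.totalDegree ≤ N →
      ∀ (k : ℕ) (a : Fin 2 → ℤ) (M : ℝ), 0 < M →
        (∃ ξ : E 2, (∀ i, |ξ i - co k a i| ≤ 2 / 2 ^ k) ∧ M ≤ |ev p ξ|) →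
        2 * volume {x : E 2 | x ∈ sq k a ∧ |ev p x| < c * M} ≤ volume (sq k a))
    {P : Pol} (hP : P.totalDegree + 2 ≤ N) (t : ℝ) {k l : ℕ} {a : Fin 2 → ℤ}
    (ha : a ∈ T (ph P t) k l) :
    volume (sq (k + 1) a) ≤ 2 * volume ({x | (t, x) ∈ BB c P k l} ∩ sq (k + 1) a) := by
  classical
  rw [T, Finset.mem_filter, Fintype.mem_piFinset] at ha
  obtain ⟨ha1, ⟨hG, hnG⟩, hl⟩ := ha
  have ha2 : ∀ i, -2 ^ (k + 1) ≤ a i ∧ a i < 2 ^ (k + 1) := fun i => Finset.mem_Ico.1 (ha1 i)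
  unfold Good at hnG
  push Not at hnG
  obtain ⟨ξ, hξ, i, j, hij⟩ := hnG
  have h1 := hh (pderiv i (pderiv j (ph P t))) ((degree_d2 P t i j).trans hP) (k + 1) a (4 ^ k)
    (by positivity) ⟨ξ, fun i => par_close hξ i, hij.le⟩
  have hJ := J_le hG hl
  have hset : sq (k + 1) a ⊆ {x : E 2 | x ∈ sq (k + 1) a ∧
      |ev (pderiv i (pderiv j (ph P t))) x| < c * 4 ^ k} ∪
      ({x | (t, x) ∈ BB c P k l} ∩ sq (k + 1) a) := by
    intro x hx
    by_cases h2 : |ev (pderiv i (pderiv j (ph P t))) x| < c * 4 ^ k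
    · exact Or.inl ⟨hx, h2⟩
    · right
      refine ⟨⟨sq_sub_SS ha2 hx, ⟨i, j, ?_⟩, ?_⟩, hx⟩
      · rw [not_lt] at h2
        have h3 : ev (pderiv i (pderiv j (ph P t))) x = d2 (ph P t) i j x := rfl
        rw [h3, d2_ph] at h2
        exact h2
      · have h3 := hJ x (sq_sub_cl _ _ hx)
        rw [ev_Jp, d2_symm, d2_ph, d2_ph, d2_ph] at h3
        simpa using h3
  have h3 : volume (sq (k + 1) a) ≤ volume {x : E 2 | x ∈ sq (k + 1) a ∧
      |ev (pderiv i (pderiv j (ph P t))) x| < c * 4 ^ k} +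
      volume ({x | (t, x) ∈ BB c P k l} ∩ sq (k + 1) a) :=
    (measure_mono hset).trans (measure_union_le _ _)
  have hfin : volume (sq (k + 1) a) ≠ ⊤ := (sq_fin (k + 1) a).ne
  have h4 : volume (sq (k + 1) a) + volume (sq (k + 1) a) ≤
      volume (sq (k + 1) a) + 2 * volume ({x | (t, x) ∈ BB c P k l} ∩ sq (k + 1) a) := by
    calc volume (sq (k + 1) a) + volume (sq (k + 1) a) = 2 * volume (sq (k + 1) a) := by
          rw [two_mul]
      _ ≤ 2 * (volume {x : E 2 | x ∈ sq (k + 1) a ∧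
            |ev (pderiv i (pderiv j (ph P t))) x| < c * 4 ^ k} +
            volume ({x | (t, x) ∈ BB c P k l} ∩ sq (k + 1) a)) := by gcongr
      _ = 2 * volume {x : E 2 | x ∈ sq (k + 1) a ∧
            |ev (pderiv i (pderiv j (ph P t))) x| < c * 4 ^ k} +
            2 * volume ({x | (t, x) ∈ BB c P k l} ∩ sq (k + 1) a) := by rw [mul_add]
      _ ≤ _ := by gcongr
  exact (ENNReal.add_le_add_iff_left hfin).1 h4

theorem A_le {N : ℕ} {c : ℝ} (hh : ∀ p : Pol, p.totalDegree ≤ N →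
      ∀ (k : ℕ) (a : Fin 2 → ℤ) (M : ℝ), 0 < M →
        (∃ ξ : E 2, (∀ i, |ξ i - co k a i| ≤ 2 / 2 ^ k) ∧ M ≤ |ev p ξ|) →
        2 * volume {x : E 2 | x ∈ sq k a ∧ |ev p x| < c * M} ≤ volume (sq k a))
    {P : Pol} (hP : P.totalDegree + 2 ≤ N) (t : ℝ) (k l : ℕ) :
    volume (A (ph P t) k l) ≤ 2 * volume {x | (t, x) ∈ BB c P k l} := by
  have hm : MeasurableSet {x : E 2 | (t, x) ∈ BB c P k l} :=
    measurable_prodMk_left (BB_meas c P k l)
  unfold A
  calc volume (⋃ a ∈ T (ph P t) k l, sq (k + 1) a)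
      ≤ ∑ a ∈ T (ph P t) k l, volume (sq (k + 1) a) := measure_biUnion_finset_le _ _
    _ ≤ ∑ a ∈ T (ph P t) k l, 2 * volume ({x | (t, x) ∈ BB c P k l} ∩ sq (k + 1) a) :=
        Finset.sum_le_sum fun a ha => sq_le hh hP t ha
    _ = 2 * ∑ a ∈ T (ph P t) k l, volume ({x | (t, x) ∈ BB c P k l} ∩ sq (k + 1) a) := by
        rw [Finset.mul_sum]
    _ = 2 * volume (⋃ a ∈ T (ph P t) k l, ({x | (t, x) ∈ BB c P k l} ∩ sq (k + 1) a)) := by
        rw [measure_biUnion_finset]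
        · intro a _ b _ hab
          exact (sq_disj (k + 1) hab).mono inter_subset_right inter_subset_right
        · intro a _
          exact hm.inter (sq_meas (k + 1) a)
    _ ≤ 2 * volume {x | (t, x) ∈ BB c P k l} := by
        gcongr
        exact iUnion₂_subset fun a _ => inter_subset_left

end Tin

/-- **The measure of the times**, from the estimate `half`. -/
theorem tin_of (half : ∀ n : ℕ, ∃ c : ℝ, 0 < c ∧ ∀ p : Pol, p.totalDegree ≤ n →
    ∀ (k : ℕ) (a : Fin 2 → ℤ) (M : ℝ), 0 < M →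
      (∃ ξ : E 2, (∀ i, |ξ i - co k a i| ≤ 2 / 2 ^ k) ∧ M ≤ |ev p ξ|) →
      2 * volume {x : E 2 | x ∈ sq k a ∧ |ev p x| < c * M} ≤ volume (sq k a))
    (n : ℕ) : ∃ C : ℝ≥0, ∀ P : Pol, P.totalDegree ≤ n → ∀ k l : ℕ,
    ∃ b : ℝ → ℝ≥0∞, Measurable b ∧ (∀ t, volume (A (ph P t) k l) ≤ b t) ∧ ∫⁻ t, b t ≤ C * 2 ^ l := by
  obtain ⟨c, hc, hh⟩ := half (n + 2)
  refine ⟨2 * (Real.toNNReal (8 / c) * (volume SS).toNNReal), fun P hP k l => ?_⟩
  refine ⟨fun t => 2 * volume {x : E 2 | (t, x) ∈ Tin.BB c P k l}, ?_, fun t => ?_, ?_⟩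
  · exact (measurable_measure_prodMk_left (Tin.BB_meas c P k l)).const_mul 2
  · exact Tin.A_le hh (by omega) t k l
  · have hmeas : Measurable fun t : ℝ => volume {x : E 2 | (t, x) ∈ Tin.BB c P k l} :=
      measurable_measure_prodMk_left (Tin.BB_meas c P k l)
    rw [lintegral_const_mul _ hmeas]
    have h1 : ∫⁻ t : ℝ, volume {x : E 2 | (t, x) ∈ Tin.BB c P k l} =
        (volume.prod volume : Measure (ℝ × E 2)) (Tin.BB c P k l) :=
      (Measure.prod_apply (Tin.BB_meas c P k l)).symm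
    rw [h1, Measure.prod_apply_symm (Tin.BB_meas c P k l)]
    have h2 : ∀ x : E 2, volume ((fun t : ℝ => (t, x)) ⁻¹' Tin.BB c P k l) ≤
        SS.indicator (fun _ => ENNReal.ofReal (8 / c) * 2 ^ l) x := by
      intro x
      by_cases hx : x ∈ SS
      · rw [indicator_of_mem hx]
        exact Tin.slice hc P k l x
      · rw [indicator_of_notMem hx]
        have : ((fun t : ℝ => (t, x)) ⁻¹' Tin.BB c P k l) = ∅ := by
          ext t
          simp only [mem_preimage, mem_empty_iff_false, iff_false]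
          intro h
          exact hx h.1
        rw [this, measure_empty]
    calc 2 * ∫⁻ x : E 2, volume ((fun t : ℝ => (t, x)) ⁻¹' Tin.BB c P k l)
        ≤ 2 * ∫⁻ x : E 2, SS.indicator (fun _ => ENNReal.ofReal (8 / c) * 2 ^ l) x := by
          gcongr with x
          exact h2 x
      _ = 2 * (ENNReal.ofReal (8 / c) * 2 ^ l * volume SS) := by
          rw [lintegral_indicator_const Tin.SS_meas]
      _ = ((2 * (Real.toNNReal (8 / c) * (volume SS).toNNReal) : ℝ≥0) : ℝ≥0∞) * 2 ^ l := by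
          push_cast
          rw [ENNReal.coe_toNNReal Tin.SS_fin.ne]
          rw [show ((Real.toNNReal (8 / c) : ℝ≥0) : ℝ≥0∞) = ENNReal.ofReal (8 / c) from rfl]
          ring
      _ ≤ _ := le_rfl

/-- **The measure of the set of times for which a point lies in a square of the class `l`.** -/
theorem tin (n : ℕ) : ∃ C : ℝ≥0, ∀ P : Pol, P.totalDegree ≤ n → ∀ k l : ℕ,
    ∃ b : ℝ → ℝ≥0∞, Measurable b ∧ (∀ t, volume (A (ph P t) k l) ≤ b t) ∧ ∫⁻ t, b t ≤ C * 2 ^ l :=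
  tin_of half n

end Pool.Agent.J4.H87.PP
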