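import Pool.Agent.J4.H87.PP.Defs
set_option autoImplicit false

/-! From `E 3` to time and space. -/

namespace Pool.Agent.J4.H87.PP

open MeasureTheory Set MvPolynomial
open scoped ENNReal NNReal RealInnerProductSpace

/-- the paraboloid `x ↦ (x_1, x_2, x_1^2 + x_2^2)` -/
noncomputable def Phi (x : E 2) : E 3 := !₂[x 0, x 1, x 0 ^ 2 + x 1 ^ 2]

/-- the Fourier extension operator of the paraboloid over `U` -/
noncomputable def ext (U : Set (E 2)) (f : E 2 → ℂ) (ξ : E 3) : ℂ :=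
  ∫ x in U, Complex.exp (-((⟪Phi x, ξ⟫ : ℝ) : ℂ) * Complex.I) * f x

theorem tr_norm_exp (r : ℝ) : ‖Complex.exp (-((r : ℝ) : ℂ) * Complex.I)‖ = 1 := by
  rw [← Complex.ofReal_neg, Complex.norm_exp_ofReal_mul_I]

theorem tr_Phi_cont : Continuous Phi := by
  unfold Phi
  refine (PiLp.continuous_toLp 2 _).comp (continuous_pi fun i => ?_)
  fin_cases i <;> simp <;> fun_prop

theorem tr_inner_eq (x : E 2) (ξ : E 3) :
    (⟪Phi x, ξ⟫ : ℝ) = x 0 * ξ 0 + x 1 * ξ 1 + (x 0 ^ 2 + x 1 ^ 2) * ξ 2 := by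
  rw [PiLp.inner_apply, Fin.sum_univ_three]
  simp [Phi, mul_comm]

theorem ext_cont {U : Set (E 2)} {f : E 2 → ℂ} (hf : Integrable f (volume.restrict U))
    (hU : MeasurableSet U) (hb : U ⊆ Metric.ball 0 1) : Continuous (ext U f) := by
  unfold ext
  refine continuous_of_dominated (bound := fun x => ‖f x‖) (fun ξ => ?_) (fun ξ => ?_) hf.norm ?_
  · refine AEStronglyMeasurable.mul ?_ hf.aestronglyMeasurable
    refine Continuous.aestronglyMeasurable ?_
    have := tr_Phi_cont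
    fun_prop
  · refine Filter.Eventually.of_forall fun x => ?_
    rw [norm_mul, tr_norm_exp, one_mul]
  · refine Filter.Eventually.of_forall fun x => ?_
    fun_prop

theorem tr_ev_cont (P : Pol) : Continuous (ev P) := by
  unfold ev
  exact (MvPolynomial.continuous_eval P).comp (PiLp.continuous_ofLp 2 _)

theorem tr_ex_norm (r : ℝ) : ‖ex r‖ = 1 := by
  unfold ex
  exact Complex.norm_exp_ofReal_mul_I r

theorem tr_ex_add (r s : ℝ) : ex (r + s) = ex r * ex s := by
  unfold ex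
  rw [← Complex.exp_add]
  congr 1
  push_cast
  ring

/-- the space -/
noncomputable def trt3 : E 3 ≃ᵐ ℝ × (ℝ × ℝ) :=
  ((MeasurableEquiv.toLp 2 (Fin 3 → ℝ)).symm.trans
    (MeasurableEquiv.piFinSuccAbove (fun _ : Fin 3 => ℝ) 2)).trans
    (MeasurableEquiv.prodCongr (MeasurableEquiv.refl ℝ) (MeasurableEquiv.finTwoArrow (α := ℝ)))

theorem trt3_mp : MeasurePreserving trt3 volume volume := by
  have h1 : MeasurePreserving (MeasurableEquiv.toLp 2 (Fin 3 → ℝ)).symm volume volume :=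
    (PiLp.volume_preserving_toLp (Fin 3)).symm
  have h2 := volume_preserving_piFinSuccAbove (fun _ : Fin 3 => ℝ) 2
  exact ((MeasurePreserving.id (volume : Measure ℝ)).prod
    (volume_preserving_finTwoArrow ℝ)).comp (h2.comp h1)

/-- the plane -/
noncomputable def trqe : (ℝ × ℝ) ≃ᵐ E 2 :=
  (MeasurableEquiv.finTwoArrow (α := ℝ)).symm.trans (MeasurableEquiv.toLp 2 (Fin 2 → ℝ))

theorem trqe_mp : MeasurePreserving trqe volume volume :=
  (PiLp.volume_preserving_toLp (Fin 2)).comp (volume_preserving_finTwoArrow ℝ).symm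

theorem trqe_int (F : E 2 → ℝ≥0∞) : ∫⁻ x, F x = ∫⁻ p : ℝ × ℝ, F (trqe p) :=
  (trqe_mp.lintegral_comp_emb trqe.measurableEmbedding F).symm

theorem trt3_symm (a b q : ℝ) : trt3.symm (q, (a, b)) = !₂[a, b, q] := by
  rw [MeasurableEquiv.symm_apply_eq]
  rfl

theorem tr_int (F : E 3 → ℝ≥0∞) (hF : Measurable F) :
    ∫⁻ P, F P = ∫⁻ t : ℝ, ∫⁻ y : E 2, F (!₂[y 0, y 1, t]) := by
  have hFm : AEMeasurable (fun z : ℝ × (ℝ × ℝ) => F (trt3.symm z)) (volume.prod volume) :=
    (hF.comp trt3.symm.measurable).aemeasurable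
  rw [← trt3_mp.symm.lintegral_comp_emb trt3.symm.measurableEmbedding, Measure.volume_eq_prod,
    lintegral_prod _ hFm]
  refine lintegral_congr fun t => ?_
  rw [trqe_int]
  refine lintegral_congr fun p => ?_
  show F (trt3.symm (t, (p.1, p.2))) = _
  rw [trt3_symm]
  rfl

/-- for a polynomial phase: `ext U (e^{iP} g) (y, t) = FF (e^{i(P - t|x|^2)} g) y` -/
theorem tr {U : Set (E 2)} (hU : MeasurableSet U) (hb : U ⊆ Metric.ball 0 1) (P : Pol) (g : E 2 → ℂ)
    (hg : Integrable g) (h0 : ∀ x, x ∉ U → g x = 0) (q : ℝ) (hq : 0 < q) :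
    ∫⁻ ξ : E 3, ‖ext U (fun x => ex (ev P x) * g x) ξ‖ₑ ^ q =
      ∫⁻ t : ℝ, ∫⁻ y : E 2, ‖FF (fun x => ex (ev (ph P t) x) * g x) y‖ₑ ^ q := by
  have hint : Integrable (fun x => ex (ev P x) * g x) := by
    refine hg.bdd_mul (c := 1) ?_ ?_
    · refine Continuous.aestronglyMeasurable ?_
      have := tr_ev_cont P
      unfold ex
      fun_prop
    · exact Filter.Eventually.of_forall fun x => (tr_ex_norm _).le
  have hcont := ext_cont (hint.restrict (s := U)) hU hb
  rw [tr_int _ ((hcont.enorm.measurable).pow_const q)]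
  refine lintegral_congr fun t => lintegral_congr fun y => ?_
  congr 2
  unfold ext FF
  rw [setIntegral_eq_integral_of_forall_compl_eq_zero]
  · refine integral_congr_ae (Filter.Eventually.of_forall fun x => ?_)
    simp only
    rw [tr_inner_eq, ← mul_assoc, ← mul_assoc]
    congr 1
    have h1 : Complex.exp (-((x 0 * (!₂[y 0, y 1, t] : E 3) 0 + x 1 * (!₂[y 0, y 1, t] : E 3) 1 +
        (x 0 ^ 2 + x 1 ^ 2) * (!₂[y 0, y 1, t] : E 3) 2 : ℝ) : ℂ) * Complex.I) =
        ex (-(x 0 * y 0 + x 1 * y 1 + (x 0 ^ 2 + x 1 ^ 2) * t)) := by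
      unfold ex
      congr 2
      simp
    rw [h1, ← tr_ex_add, ← tr_ex_add]
    congr 1
    have h2 : (⟪x, y⟫ : ℝ) = x 0 * y 0 + x 1 * y 1 := by
      rw [PiLp.inner_apply, Fin.sum_univ_two]
      simp [mul_comm]
    have h3 : ev (ph P t) x = ev P x - t * (x 0 ^ 2 + x 1 ^ 2) := by
      simp [ev, ph]
    rw [h2, h3]
    ring
  · intro x hx
    simp only
    rw [h0 x hx, mul_zero, mul_zero]

end Pool.Agent.J4.H87.PP
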