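import Pool.Agent.J4.H87.PP.Tin
import Pool.Agent.J4.H87.PP.Av
import Pool.Agent.J4.H87.PP.Gr
import Pool.Agent.J4.H87.PP.Ker
set_option autoImplicit false

/-! Polynomials on the disc `B(0, 1/2)`. -/

namespace Pool.Agent.J4.H87.PP

open MeasureTheory Set MvPolynomial
open scoped ENNReal NNReal RealInnerProductSpace

namespace Dl1

theorem coord_le (x : E 2) (i : Fin 2) : |x i| ≤ ‖x‖ := by
  have := PiLp.norm_apply_le x i
  rwa [Real.norm_eq_abs] at this

/-- the closed square -/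
def Q : Set (E 2) := {x | ∀ i, |x i| ≤ 1}

theorem coord_cont (i : Fin 2) : Continuous fun x : E 2 => x i :=
  (EuclideanSpace.proj i : E 2 →L[ℝ] ℝ).continuous

theorem Q_compact : IsCompact Q := by
  refine Metric.isCompact_of_isClosed_isBounded ?_ ?_
  · have : Q = ⋂ i : Fin 2, {x : E 2 | |x i| ≤ 1} := by
      ext x; simp [Q]
    rw [this]
    exact isClosed_iInter fun i => isClosed_le (coord_cont i).abs continuous_const
  · refine (Metric.isBounded_closedBall (x := (0 : E 2)) (r := 2)).subset ?_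
    intro x hx
    rw [mem_closedBall_zero_iff, EuclideanSpace.norm_eq, Fin.sum_univ_two]
    refine Real.sqrt_le_iff.2 ⟨by norm_num, ?_⟩
    have h0 := hx 0
    have h1 := hx 1
    rw [Real.norm_eq_abs, Real.norm_eq_abs]
    nlinarith [abs_nonneg (x 0), abs_nonneg (x 1)]

/-- the supremum and the gradient on the square -/
theorem sup_grad (n : ℕ) : ∃ K : ℝ, 0 < K ∧ ∀ u : Pol, u.totalDegree ≤ n → ∃ η ∈ Q,
    (∀ ξ ∈ Q, |ev u ξ| ≤ |ev u η|) ∧ ∀ ξ ∈ Q, ∀ j, |d1 u j ξ| ≤ K * |ev u η| := by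
  obtain ⟨K, hK, h⟩ := GrAux.large n
  refine ⟨K, hK, fun u hu => ?_⟩
  obtain ⟨η, hη, hm⟩ := Q_compact.exists_isMaxOn ⟨0, fun i => by simp⟩ (Tin.ev_cont u).abs.continuousOn
  refine ⟨η, hη, fun ξ hξ => hm hξ, fun ξ hξ j => ?_⟩
  rcases eq_or_lt_of_le (abs_nonneg (d1 u j ξ)) with h0 | h0
  · rw [← h0]; positivity
  · obtain ⟨ζ, hζ, hz⟩ := h u hu j _ h0 ⟨ξ, hξ, le_rfl⟩
    have h1 : |d1 u j ξ| / K ≤ |ev u η| := hz.trans (hm hζ)
    rw [div_le_iff₀ hK] at h1
    linarith

theorem Q_convex {x y : E 2} (hx : x ∈ Q) (hy : y ∈ Q) {s : ℝ} (hs : s ∈ Icc (0 : ℝ) 1) :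
    (WithLp.toLp 2 fun i => x i + s * (y i - x i) : E 2) ∈ Q := by
  intro i
  have h1 := abs_le.1 (hx i)
  have h2 := abs_le.1 (hy i)
  simp only
  rw [abs_le]
  constructor
  · nlinarith [hs.1, hs.2]
  · nlinarith [hs.1, hs.2]

theorem lip {u : Pol} {L : ℝ} (hL : ∀ ξ ∈ Q, ∀ j, |d1 u j ξ| ≤ L) {x y : E 2} (hx : x ∈ Q)
    (hy : y ∈ Q) : |ev u y - ev u x| ≤ 2 * L * ‖y - x‖ := by
  have hL0 : 0 ≤ L := (abs_nonneg _).trans (hL x hx 0)
  set p : ℝ → E 2 := fun s => WithLp.toLp 2 fun i => x i + s * (y i - x i) with hp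
  have hd : ∀ s : ℝ, HasDerivAt (fun s => ev u (p s))
      (d1 u 0 (p s) * (y 0 - x 0) + d1 u 1 (p s) * (y 1 - x 1)) s := by
    intro s
    have := Ker.hasDerivAt_eval u (fun s i => x i + s * (y i - x i)) (fun i => y i - x i) s
      (fun i => by
        have h1 : HasDerivAt (fun s : ℝ => s * (y i - x i)) (1 * (y i - x i)) s :=
          (hasDerivAt_id s).mul_const _
        rw [one_mul] at h1
        exact h1.const_add _)
    exact this
  have hb : ∀ s ∈ Ico (0 : ℝ) 1,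
      ‖d1 u 0 (p s) * (y 0 - x 0) + d1 u 1 (p s) * (y 1 - x 1)‖ ≤ 2 * L * ‖y - x‖ := by
    intro s hs
    have hps : p s ∈ Q := Q_convex hx hy ⟨hs.1, hs.2.le⟩
    have h0 := hL _ hps 0
    have h1 := hL _ hps 1
    have e0 : |y 0 - x 0| ≤ ‖y - x‖ := coord_le (y - x) 0
    have e1 : |y 1 - x 1| ≤ ‖y - x‖ := coord_le (y - x) 1
    calc ‖d1 u 0 (p s) * (y 0 - x 0) + d1 u 1 (p s) * (y 1 - x 1)‖
        ≤ |d1 u 0 (p s)| * |y 0 - x 0| + |d1 u 1 (p s)| * |y 1 - x 1| := by
          rw [← abs_mul, ← abs_mul]; exact norm_add_le _ _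
      _ ≤ L * ‖y - x‖ + L * ‖y - x‖ := by gcongr
      _ = 2 * L * ‖y - x‖ := by ring
  have h := norm_image_sub_le_of_norm_deriv_le_segment_01' (f := fun s => ev u (p s))
    (fun s _ => (hd s).hasDerivWithinAt) hb
  have e1 : ev u (p 1) = ev u y := by
    unfold ev
    congr 1
    congr 1
    funext i
    simp [hp]
  have e0 : ev u (p 0) = ev u x := by
    unfold ev
    congr 1
    congr 1
    funext i
    simp [hp]
  rw [e1, e0, Real.norm_eq_abs] at h
  exact h

theorem vol_ball (r : ℝ) (hr : 0 ≤ r) :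
    volume (Metric.ball (0 : E 2) r) = ENNReal.ofReal (r ^ 2 * Real.pi) := by
  rw [EuclideanSpace.volume_ball_fin_two, ENNReal.ofReal_mul (by positivity), ENNReal.ofReal_pow hr]

theorem volS (v : E 2) :
    volume {x : E 2 | x ∈ Metric.ball (0 : E 2) (1 / 2) ∧ x + v ∉ Metric.ball (0 : E 2) (1 / 2)} ≤
      ENNReal.ofReal (Real.pi * ‖v‖) := by
  have hpi := Real.pi_pos
  rcases lt_or_ge ‖v‖ (1 / 2) with hv | hv
  · have hsub : {x : E 2 | x ∈ Metric.ball (0 : E 2) (1 / 2) ∧ x + v ∉ Metric.ball (0 : E 2) (1 / 2)} ⊆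
        Metric.ball (0 : E 2) (1 / 2) \ Metric.ball (0 : E 2) (1 / 2 - ‖v‖) := by
      intro x hx
      refine ⟨hx.1, fun h => hx.2 ?_⟩
      rw [mem_ball_zero_iff] at h ⊢
      have := norm_add_le x v
      linarith
    refine (measure_mono hsub).trans ?_
    rw [measure_sdiff (Metric.ball_subset_ball (by linarith [norm_nonneg v]))
      measurableSet_ball.nullMeasurableSet (by rw [vol_ball _ (by linarith)]; exact ENNReal.ofReal_ne_top),
      vol_ball _ (by norm_num), vol_ball _ (by linarith), ← ENNReal.ofReal_sub _ (by positivity)]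
    refine ENNReal.ofReal_le_ofReal ?_
    nlinarith [norm_nonneg v, mul_nonneg hpi.le (mul_self_nonneg ‖v‖)]
  · refine (measure_mono fun x hx => hx.1).trans ?_
    rw [vol_ball _ (by norm_num)]
    refine ENNReal.ofReal_le_ofReal ?_
    nlinarith

theorem ball_sub_Q {x : E 2} (hx : x ∈ Metric.ball (0 : E 2) (1 / 2)) : x ∈ Q := by
  intro i
  rw [mem_ball_zero_iff] at hx
  have := coord_le x i
  linarith

/-- the modulus -/
theorem modulus {f : E 2 → ℂ} {M L : ℝ} (hM : 0 ≤ M) (hL : 0 ≤ L)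
    (h1 : ∀ x ∈ Metric.ball (0 : E 2) (1 / 2), ‖f x‖ ≤ M)
    (h2 : ∀ x ∈ Metric.ball (0 : E 2) (1 / 2), ∀ y ∈ Metric.ball (0 : E 2) (1 / 2),
      ‖f y - f x‖ ≤ L * ‖y - x‖) (v : E 2) :
    ∫⁻ x, ‖(Metric.ball (0 : E 2) (1 / 2)).indicator f (x + v) -
        (Metric.ball (0 : E 2) (1 / 2)).indicator f x‖ₑ ≤
      ENNReal.ofReal ((L + 2 * Real.pi * M) * ‖v‖) := by
  have hpi := Real.pi_pos
  set B := Metric.ball (0 : E 2) (1 / 2) with hB
  set S1 : Set (E 2) := {x | x ∈ B ∧ x + v ∉ B} with hS1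
  set S2 : Set (E 2) := {x | x ∉ B ∧ x + v ∈ B} with hS2
  have hBm : MeasurableSet B := measurableSet_ball
  have hB' : MeasurableSet {x : E 2 | x + v ∈ B} := hBm.preimage (measurable_add_const v)
  have hS1m : MeasurableSet S1 := hBm.inter hB'.compl
  have hS2m : MeasurableSet S2 := hBm.compl.inter hB'
  have hpt : ∀ x, ‖B.indicator f (x + v) - B.indicator f x‖ₑ ≤
      B.indicator (fun _ => ENNReal.ofReal (L * ‖v‖)) x +
        (S1.indicator (fun _ => ENNReal.ofReal M) x + S2.indicator (fun _ => ENNReal.ofReal M) x) := by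
    intro x
    by_cases hx : x ∈ B
    · by_cases hxv : x + v ∈ B
      · rw [indicator_of_mem hx, indicator_of_mem hxv, indicator_of_mem hx]
        refine le_trans ?_ le_self_add
        rw [← ofReal_norm]
        refine ENNReal.ofReal_le_ofReal ?_
        have := h2 x hx (x + v) hxv
        rwa [add_sub_cancel_left] at this
      · have hxS : x ∈ S1 := ⟨hx, hxv⟩
        rw [indicator_of_mem hx, indicator_of_notMem hxv, indicator_of_mem hxS, zero_sub, enorm_neg]
        refine le_trans ?_ (le_trans le_self_add le_add_self)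
        rw [← ofReal_norm]
        exact ENNReal.ofReal_le_ofReal (h1 x hx)
    · by_cases hxv : x + v ∈ B
      · have hxS : x ∈ S2 := ⟨hx, hxv⟩
        rw [indicator_of_notMem hx, indicator_of_mem hxv, indicator_of_mem hxS, sub_zero]
        refine le_trans ?_ (le_trans le_add_self le_add_self)
        rw [← ofReal_norm]
        exact ENNReal.ofReal_le_ofReal (h1 _ hxv)
      · rw [indicator_of_notMem hx, indicator_of_notMem hxv, sub_zero, enorm_zero]
        exact zero_le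
  refine (lintegral_mono hpt).trans ?_
  rw [lintegral_add_left (measurable_const.indicator hBm),
    lintegral_add_left (measurable_const.indicator hS1m), lintegral_indicator_const hBm,
    lintegral_indicator_const hS1m, lintegral_indicator_const hS2m]
  have hv1 : volume S1 ≤ ENNReal.ofReal (Real.pi * ‖v‖) := volS v
  have hv2 : volume S2 ≤ ENNReal.ofReal (Real.pi * ‖v‖) := by
    have : S2 = (fun x => x + v) ⁻¹' {y | y ∈ B ∧ y + -v ∉ B} := by
      ext x
      simp only [hS2, mem_ofPred_eq, mem_preimage, add_neg_cancel_right]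
      exact and_comm
    rw [this, measure_preimage_add_right]
    have h3 := volS (-v)
    rwa [norm_neg] at h3
  have hv0 : volume B ≤ ENNReal.ofReal 1 := by
    rw [hB, vol_ball _ (by norm_num)]
    refine ENNReal.ofReal_le_ofReal ?_
    have := Real.pi_le_four
    norm_num
    linarith
  calc ENNReal.ofReal (L * ‖v‖) * volume B + (ENNReal.ofReal M * volume S1 + ENNReal.ofReal M * volume S2)
      ≤ ENNReal.ofReal (L * ‖v‖) * ENNReal.ofReal 1 +
        (ENNReal.ofReal M * ENNReal.ofReal (Real.pi * ‖v‖) +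
          ENNReal.ofReal M * ENNReal.ofReal (Real.pi * ‖v‖)) := by gcongr
    _ = ENNReal.ofReal ((L + 2 * Real.pi * M) * ‖v‖) := by
        rw [← ENNReal.ofReal_mul (by positivity), ← ENNReal.ofReal_mul hM,
          ← ENNReal.ofReal_add (by positivity) (by positivity),
          ← ENNReal.ofReal_add (by positivity) (by positivity)]
        congr 1
        ring

/-- large on a large part of the disc -/
theorem mass (n : ℕ) : ∃ τ : ℝ, 0 < τ ∧ ∀ u : Pol, u.totalDegree ≤ n → ∀ η ∈ Q, ev u η ≠ 0 →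
    ENNReal.ofReal (49 / 200) ≤
      volume {x : E 2 | x ∈ Metric.ball (0 : E 2) (1 / 2) ∧ τ * |ev u η| ≤ |ev u x|} := by
  obtain ⟨C, c, hC, hc, -, h⟩ := sub n
  refine ⟨(1 / (2 * C)) ^ (1 / c), by positivity, ?_⟩
  intro u hu η hη hne
  set τ := (1 / (2 * C)) ^ (1 / c) with hτ
  have hm : 0 < |ev u η| := abs_pos.2 hne
  have h1 := h u hu (WithLp.toLp 2 fun _ => -(7 / 20)) (7 / 10) |ev u η| τ (by norm_num) hm
    (by positivity) ⟨η, fun i => by
      have := abs_le.1 (hη i)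
      simp only
      rw [abs_le]
      constructor <;> linarith [this.1, this.2], le_rfl⟩
  have h2 : τ ^ c = 1 / (2 * C) := by
    rw [hτ, ← Real.rpow_mul (by positivity), one_div_mul_cancel hc.ne', Real.rpow_one]
  have h3 : C * (1 / (2 * C)) * (7 / 10) ^ 2 = 49 / 200 := by
    field_simp
    norm_num
  rw [h2, h3] at h1
  have h4 := box_vol (fun _ => -(7 / 20)) (fun _ => -(7 / 20) + 7 / 10)
  simp only at h4
  rw [← ENNReal.ofReal_mul (by norm_num)] at h4
  have h5 : {x : E 2 | ∀ i, -(7 / 20) ≤ x i ∧ x i < -(7 / 20) + 7 / 10} ⊆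
      {x : E 2 | (∀ i, (WithLp.toLp 2 (fun _ : Fin 2 => (-(7 / 20) : ℝ)) : E 2) i ≤ x i ∧
        x i < (WithLp.toLp 2 (fun _ : Fin 2 => (-(7 / 20) : ℝ)) : E 2) i + 7 / 10) ∧
          |ev u x| < τ * |ev u η|} ∪
      {x : E 2 | x ∈ Metric.ball (0 : E 2) (1 / 2) ∧ τ * |ev u η| ≤ |ev u x|} := by
    intro x hx
    rcases lt_or_ge |ev u x| (τ * |ev u η|) with hlt | hge
    · left
      exact ⟨hx, hlt⟩
    · right
      refine ⟨?_, hge⟩
      rw [mem_ball_zero_iff, EuclideanSpace.norm_eq, Fin.sum_univ_two]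
      have a0 := hx 0
      have a1 := hx 1
      rw [Real.norm_eq_abs, Real.norm_eq_abs, sq_abs, sq_abs]
      rw [Real.sqrt_lt' (by norm_num)]
      nlinarith [a0.1, a0.2, a1.1, a1.2]
  have h6 := (measure_mono (μ := (volume : Measure (E 2))) h5).trans (measure_union_le _ _)
  rw [h4] at h6
  by_contra hcon
  rw [not_le] at hcon
  have h7 : ENNReal.ofReal ((-(7 / 20) + 7 / 10 - -(7 / 20)) * (-(7 / 20) + 7 / 10 - -(7 / 20))) <
      ENNReal.ofReal (49 / 200) + ENNReal.ofReal (49 / 200) :=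
    lt_of_le_of_lt h6 (ENNReal.add_lt_add_of_le_of_lt (ne_top_of_le_ne_top ENNReal.ofReal_ne_top h1)
      h1 hcon)
  rw [← ENNReal.ofReal_add (by norm_num) (by norm_num)] at h7
  have h8 : ((-(7 / 20) + 7 / 10 - -(7 / 20)) * (-(7 / 20) + 7 / 10 - -(7 / 20)) : ℝ) =
      49 / 200 + 49 / 200 := by norm_num
  rw [h8] at h7
  exact lt_irrefl _ h7

end Dl1

open Dl1

theorem dl1 (n : ℕ) (q : ℝ) (hq : 1 ≤ q) : ∃ K : ℝ, 0 < K ∧ ∀ a b : Pol, a.totalDegree ≤ n → b.totalDegree ≤ n →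
    ∃ M : ℝ, 0 ≤ M ∧ (∀ x : E 2, ‖x‖ < 1 / 2 → ‖(ev a x : ℂ) + (ev b x : ℂ) * Complex.I‖ ≤ M) ∧
      (∀ v : E 2, ∫⁻ x, ‖(Metric.ball (0 : E 2) (1 / 2)).indicator
          (fun x => (ev a x : ℂ) + (ev b x : ℂ) * Complex.I) (x + v) -
        (Metric.ball (0 : E 2) (1 / 2)).indicator
          (fun x => (ev a x : ℂ) + (ev b x : ℂ) * Complex.I) x‖ₑ ≤ ENNReal.ofReal (K * M * ‖v‖)) ∧
      ENNReal.ofReal M ^ q ≤ ENNReal.ofReal K *
        ∫⁻ x in Metric.ball (0 : E 2) (1 / 2), ‖(ev a x : ℂ) + (ev b x : ℂ) * Complex.I‖ₑ ^ q := by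
  have hpi := Real.pi_pos
  have hq0 : 0 < q := by linarith
  obtain ⟨K₁, hK₁, hsup⟩ := sup_grad n
  obtain ⟨τ, hτ, hmass⟩ := mass n
  refine ⟨2 * K₁ + 2 * Real.pi + (2 / τ) ^ q * (200 / 49), by positivity, ?_⟩
  intro a b ha hb
  obtain ⟨α, hα, hα1, hα2⟩ := hsup a ha
  obtain ⟨β, hβ, hβ1, hβ2⟩ := hsup b hb
  set M : ℝ := |ev a α| + |ev b β| with hM
  have hM0 : 0 ≤ M := by positivity
  have hnorm : ∀ s t : ℝ, ‖(s : ℂ) + (t : ℂ) * Complex.I‖ ≤ |s| + |t| := by
    intro s t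
    refine (norm_add_le _ _).trans ?_
    rw [norm_mul, Complex.norm_I, mul_one, Complex.norm_real, Complex.norm_real,
      Real.norm_eq_abs, Real.norm_eq_abs]
  refine ⟨M, hM0, ?_, ?_, ?_⟩
  · intro x hx
    have hxQ : x ∈ Q := ball_sub_Q (mem_ball_zero_iff.2 hx)
    exact (hnorm _ _).trans (add_le_add (hα1 x hxQ) (hβ1 x hxQ))
  · intro v
    refine (modulus (f := fun x => (ev a x : ℂ) + (ev b x : ℂ) * Complex.I) (M := M)
      (L := 2 * K₁ * M) hM0 (by positivity) ?_ ?_ v).trans (ENNReal.ofReal_le_ofReal ?_)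
    · intro x hx
      have hxQ : x ∈ Q := ball_sub_Q hx
      exact (hnorm _ _).trans (add_le_add (hα1 x hxQ) (hβ1 x hxQ))
    · intro x hx y hy
      have hxQ : x ∈ Q := ball_sub_Q hx
      have hyQ : y ∈ Q := ball_sub_Q hy
      have e1 := lip hα2 hxQ hyQ
      have e2 := lip hβ2 hxQ hyQ
      have e3 : ((ev a y : ℂ) + (ev b y : ℂ) * Complex.I) - ((ev a x : ℂ) + (ev b x : ℂ) * Complex.I) =
          ((ev a y - ev a x : ℝ) : ℂ) + ((ev b y - ev b x : ℝ) : ℂ) * Complex.I := by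
        push_cast; ring
      rw [e3]
      refine (hnorm _ _).trans ((add_le_add e1 e2).trans (le_of_eq ?_))
      rw [hM]
      ring
    · have h3 : 0 ≤ (2 / τ) ^ q * (200 / 49) := by positivity
      have h4 : 0 ≤ M * ‖v‖ := by positivity
      nlinarith [mul_nonneg h3 h4]
  · rcases eq_or_lt_of_le hM0 with h0 | h0
    · rw [← h0, ENNReal.ofReal_zero, ENNReal.zero_rpow_of_pos hq0]
      exact zero_le
    · -- one of the two polynomials is large
      obtain ⟨u, η, hu, hη, hun, hηM⟩ : ∃ (u : Pol) (η : E 2), u.totalDegree ≤ n ∧ η ∈ Q ∧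
          (∀ x, |ev u x| ≤ ‖(ev a x : ℂ) + (ev b x : ℂ) * Complex.I‖) ∧ M ≤ 2 * |ev u η| := by
        rcases le_total |ev a α| |ev b β| with hle | hle
        · refine ⟨b, β, hb, hβ, fun x => ?_, by rw [hM]; linarith⟩
          have := Complex.abs_im_le_norm ((ev a x : ℂ) + (ev b x : ℂ) * Complex.I)
          simpa using this
        · refine ⟨a, α, ha, hα, fun x => ?_, by rw [hM]; linarith⟩
          have := Complex.abs_re_le_norm ((ev a x : ℂ) + (ev b x : ℂ) * Complex.I)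
          simpa using this
      have hη0 : 0 < |ev u η| := by linarith
      set G : Set (E 2) := {x : E 2 | x ∈ Metric.ball (0 : E 2) (1 / 2) ∧ τ * |ev u η| ≤ |ev u x|} with hG
      have hGm : MeasurableSet G :=
        measurableSet_ball.inter (measurableSet_le measurable_const (Tin.ev_cont u).abs.measurable)
      have hGv := hmass u hu η hη (abs_pos.1 hη0)
      have h1 : ENNReal.ofReal (τ * |ev u η|) ^ q * ENNReal.ofReal (49 / 200) ≤
          ∫⁻ x in Metric.ball (0 : E 2) (1 / 2), ‖(ev a x : ℂ) + (ev b x : ℂ) * Complex.I‖ₑ ^ q := by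
        calc ENNReal.ofReal (τ * |ev u η|) ^ q * ENNReal.ofReal (49 / 200)
            ≤ ENNReal.ofReal (τ * |ev u η|) ^ q * volume G := by gcongr
          _ = ∫⁻ x in G, ENNReal.ofReal (τ * |ev u η|) ^ q := by rw [setLIntegral_const]
          _ ≤ ∫⁻ x in G, ‖(ev a x : ℂ) + (ev b x : ℂ) * Complex.I‖ₑ ^ q := by
              refine setLIntegral_mono' hGm fun x hx => ?_
              refine ENNReal.rpow_le_rpow ?_ hq0.le
              rw [← ofReal_norm]
              exact ENNReal.ofReal_le_ofReal (hx.2.trans (hun x))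
          _ ≤ _ := lintegral_mono_set fun x hx => hx.1
      have h2 : ENNReal.ofReal M ^ q ≤
          ENNReal.ofReal ((2 / τ) ^ q) * ENNReal.ofReal (τ * |ev u η|) ^ q := by
        rw [← ENNReal.ofReal_rpow_of_pos (by positivity), ← ENNReal.mul_rpow_of_nonneg _ _ hq0.le,
          ← ENNReal.ofReal_mul (by positivity)]
        refine ENNReal.rpow_le_rpow (ENNReal.ofReal_le_ofReal ?_) hq0.le
        have : 2 / τ * (τ * |ev u η|) = 2 * |ev u η| := by field_simp
        rw [this]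
        exact hηM
      calc ENNReal.ofReal M ^ q
          ≤ ENNReal.ofReal ((2 / τ) ^ q) * ENNReal.ofReal (τ * |ev u η|) ^ q := h2
        _ = ENNReal.ofReal ((2 / τ) ^ q * (200 / 49)) *
            (ENNReal.ofReal (τ * |ev u η|) ^ q * ENNReal.ofReal (49 / 200)) := by
            have h3 : ENNReal.ofReal ((2 / τ) ^ q * (200 / 49)) =
                ENNReal.ofReal ((2 / τ) ^ q) * ENNReal.ofReal (200 / 49) :=
              ENNReal.ofReal_mul (by positivity)
            rw [h3]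
            have : ENNReal.ofReal (200 / 49) * ENNReal.ofReal (49 / 200) = 1 := by
              rw [← ENNReal.ofReal_mul (by norm_num)]
              norm_num
            calc ENNReal.ofReal ((2 / τ) ^ q) * ENNReal.ofReal (τ * |ev u η|) ^ q
                = ENNReal.ofReal ((2 / τ) ^ q) * ENNReal.ofReal (τ * |ev u η|) ^ q * 1 := by rw [mul_one]
              _ = _ := by rw [← this]; ring
        _ ≤ ENNReal.ofReal (2 * K₁ + 2 * Real.pi + (2 / τ) ^ q * (200 / 49)) *
            ∫⁻ x in Metric.ball (0 : E 2) (1 / 2), ‖(ev a x : ℂ) + (ev b x : ℂ) * Complex.I‖ₑ ^ q := by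
            refine mul_le_mul' (ENNReal.ofReal_le_ofReal ?_) h1
            linarith

end Pool.Agent.J4.H87.PP
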