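import Pool.Agent.J4.H87.PP.Tin

/-!
# Parabolic rescaling for polynomial phases on discs (piece DL2)
-/

set_option autoImplicit false

namespace Pool.Agent.J4.H87.PP

open MeasureTheory Set MvPolynomial
open scoped ENNReal NNReal RealInnerProductSpace

namespace Dl2

/-- the affine substitution -/
noncomputable def sb (c : E 2) (s : ℝ) (p : Pol) : Pol := bind₁ (fun i => C (c i) + C s * X i) p

theorem ev_sb (c : E 2) (s : ℝ) (p : Pol) (x : E 2) : ev (sb c s p) x = ev p (c + s • x) := by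
  unfold ev sb
  have h1 := eval₂Hom_bind₁ (RingHom.id ℝ) (fun i => x i)
    (fun i => (C (c i) + C s * X i : MvPolynomial (Fin 2) ℝ)) p
  refine h1.trans ?_
  have h2 : (fun i => (eval₂Hom (RingHom.id ℝ) (fun i => x i))
      (C (c i) + C s * X i : MvPolynomial (Fin 2) ℝ)) = fun i => (c + s • x) i := by
    funext i
    simp
  rw [h2]
  rfl

theorem deg_sb (c : E 2) (s : ℝ) (p : Pol) : (sb c s p).totalDegree ≤ p.totalDegree := by
  unfold sb
  have h1 : ∀ i : Fin 2, (C (c i) + C s * X i : Pol).totalDegree ≤ 1 := by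
    intro i
    refine (totalDegree_add _ _).trans (max_le ?_ ?_)
    · rw [totalDegree_C]
      omega
    · refine (totalDegree_mul _ _).trans ?_
      rw [totalDegree_C, totalDegree_X]
  have h2 : bind₁ (fun i => (C (c i) + C s * X i : Pol)) p =
      ∑ d ∈ p.support, C (p.coeff d) * ∏ i, (C (c i) + C s * X i : Pol) ^ d i := by
    have := eval₂_eq' (C : ℝ →+* Pol) (fun i => (C (c i) + C s * X i : Pol)) p
    rw [← this]
    rfl
  rw [h2]
  refine totalDegree_finsetSum_le fun d hd => ?_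
  refine (totalDegree_mul _ _).trans ?_
  rw [totalDegree_C, zero_add]
  refine (totalDegree_finsetProd _ _).trans ?_
  have h3 : ∀ i : Fin 2, ((C (c i) + C s * X i : Pol) ^ d i).totalDegree ≤ d i := by
    intro i
    refine (totalDegree_pow _ _).trans ?_
    calc d i * (C (c i) + C s * X i : Pol).totalDegree ≤ d i * 1 :=
          Nat.mul_le_mul_left _ (h1 i)
      _ = d i := mul_one _
  refine (Finset.sum_le_sum fun i _ => h3 i).trans ?_
  have h4 := le_totalDegree hd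
  rwa [Finsupp.sum_fintype _ _ (fun _ => rfl)] at h4

theorem ex_add (u v : ℝ) : ex (u + v) = ex u * ex v := by
  unfold ex
  rw [← Complex.exp_add]
  congr 1
  push_cast
  ring

theorem norm_ex (u : ℝ) : ‖ex u‖ = 1 := Complex.norm_exp_ofReal_mul_I u

theorem ev_ph (P : Pol) (t : ℝ) (x : E 2) : ev (ph P t) x = ev P x - t * (x 0 ^ 2 + x 1 ^ 2) := by
  unfold ev ph
  simp

theorem inner2 (x y : E 2) : ⟪x, y⟫ = x 0 * y 0 + x 1 * y 1 := by
  rw [PiLp.inner_apply, Fin.sum_univ_two]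
  simp [mul_comm]

/-- scaling for the lower integral -/
theorem lsm (s : ℝ) (hs : 0 < s) (g : E 2 → ℝ≥0∞) :
    ∫⁻ y, g (s • y) = ENNReal.ofReal ((s ^ 2)⁻¹) * ∫⁻ y, g y := by
  have h1 := Measure.map_addHaar_smul (volume : Measure (E 2)) hs.ne'
  have h2 := MeasureTheory.lintegral_map_equiv (μ := (volume : Measure (E 2))) g
    (Homeomorph.smulOfNeZero s hs.ne' : E 2 ≃ₜ E 2).toMeasurableEquiv
  have h3 : (∫⁻ y, g (s • y)) = ∫⁻ y, g ((Homeomorph.smulOfNeZero s hs.ne' :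
      E 2 ≃ₜ E 2).toMeasurableEquiv y) := rfl
  have h4 : Measure.map (Homeomorph.smulOfNeZero s hs.ne' : E 2 ≃ₜ E 2).toMeasurableEquiv
      (volume : Measure (E 2)) = Measure.map (fun x => s • x) volume := rfl
  rw [h3, ← h2, h4, h1, lintegral_smul_measure, finrank_euclideanSpace_fin,
    abs_of_pos (by positivity), smul_eq_mul]

/-- scaling on the line -/
theorem lsr (s : ℝ) (hs : 0 < s) (g : ℝ → ℝ≥0∞) :
    ∫⁻ y, g (s * y) = ENNReal.ofReal (s⁻¹) * ∫⁻ y, g y := by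
  have h1 := Measure.map_addHaar_smul (volume : Measure ℝ) hs.ne'
  have h2 := MeasureTheory.lintegral_map_equiv (μ := (volume : Measure ℝ)) g
    (Homeomorph.smulOfNeZero s hs.ne' : ℝ ≃ₜ ℝ).toMeasurableEquiv
  have h3 : (∫⁻ y, g (s * y)) = ∫⁻ y, g ((Homeomorph.smulOfNeZero s hs.ne' :
      ℝ ≃ₜ ℝ).toMeasurableEquiv y) := rfl
  have h4 : Measure.map (Homeomorph.smulOfNeZero s hs.ne' : ℝ ≃ₜ ℝ).toMeasurableEquiv
      (volume : Measure ℝ) = Measure.map (fun x => s • x) volume := rfl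
  rw [h3, ← h2, h4, h1, lintegral_smul_measure, Module.finrank_self, pow_one,
    abs_of_pos (by positivity), smul_eq_mul]

theorem gen_sb (P Q : Pol) (c : E 2) (r : ℝ) (hQ : ∀ u : E 2, ev Q u = ev P (c + (2 * r) • u))
    (g : E 2 → ℂ) (t : ℝ) (y x : E 2) :
    ex (-⟪c + (2 * r) • x, y⟫) * (ex (ev (ph P t) (c + (2 * r) • x)) * g (c + (2 * r) • x)) =
      ex (-⟪c, y⟫ - t * (c 0 ^ 2 + c 1 ^ 2)) * (ex (-⟪x, (2 * r) • (y + (2 * t) • c)⟫) *
        (ex (ev (ph Q ((2 * r) ^ 2 * t)) x) * g (c + (2 * r) • x))) := by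
  simp only [← mul_assoc, ← ex_add]
  congr 2
  rw [ev_ph, ev_ph, hQ, inner2, inner2, inner2]
  simp only [PiLp.add_apply, PiLp.smul_apply, smul_eq_mul]
  ring

theorem FF_gen (P Q : Pol) (c : E 2) {r : ℝ} (hr : 0 < r)
    (hQ : ∀ u : E 2, ev Q u = ev P (c + (2 * r) • u)) (g : E 2 → ℂ) (t : ℝ) (y : E 2) :
    FF (fun x => ex (ev (ph P t) x) * g x) y =
      ((2 * r) ^ 2 : ℝ) • (ex (-⟪c, y⟫ - t * (c 0 ^ 2 + c 1 ^ 2)) *
      FF (fun u => ex (ev (ph Q ((2 * r) ^ 2 * t)) u) * g (c + (2 * r) • u))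
        ((2 * r) • (y + (2 * t) • c))) := by
  unfold FF
  have h1 : ∫ x, ex (-⟪x, y⟫) * (ex (ev (ph P t) x) * g x) =
      ∫ x, ex (-⟪c + x, y⟫) * (ex (ev (ph P t) (c + x)) * g (c + x)) :=
    (integral_add_left_eq_self (μ := (volume : Measure (E 2)))
      (fun x => ex (-⟪x, y⟫) * (ex (ev (ph P t) x) * g x)) c).symm
  have h2 := Measure.integral_comp_smul (μ := (volume : Measure (E 2)))
    (fun x => ex (-⟪c + x, y⟫) * (ex (ev (ph P t) (c + x)) * g (c + x))) (2 * r)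
  rw [finrank_euclideanSpace_fin] at h2
  have hpos : (0 : ℝ) < (2 * r) ^ 2 := by positivity
  rw [abs_of_pos (inv_pos.2 hpos)] at h2
  have h3 : ∫ x, ex (-⟪c + x, y⟫) * (ex (ev (ph P t) (c + x)) * g (c + x)) =
      ((2 * r) ^ 2 : ℝ) • ∫ x, ex (-⟪c + (2 * r) • x, y⟫) *
        (ex (ev (ph P t) (c + (2 * r) • x)) * g (c + (2 * r) • x)) := by
    rw [h2, smul_smul, mul_inv_cancel₀ hpos.ne', one_smul]
  rw [h1, h3, ← integral_const_mul]
  congr 1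
  refine integral_congr_ae (Filter.Eventually.of_forall fun x => ?_)
  exact gen_sb P Q c r hQ g t y x

theorem enorm_FF (P Q : Pol) (c : E 2) {r : ℝ} (hr : 0 < r)
    (hQ : ∀ u : E 2, ev Q u = ev P (c + (2 * r) • u)) (g : E 2 → ℂ) (t : ℝ) (y : E 2) :
    ‖FF (fun x => ex (ev (ph P t) x) * g x) y‖ₑ = ENNReal.ofReal ((2 * r) ^ 2) *
      ‖FF (fun u => ex (ev (ph Q ((2 * r) ^ 2 * t)) u) * g (c + (2 * r) • u))
        ((2 * r) • (y + (2 * t) • c))‖ₑ := by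
  rw [FF_gen P Q c hr hQ g t y, enorm_smul, enorm_mul, ← ofReal_norm (ex _), norm_ex,
    ENNReal.ofReal_one, one_mul, Real.enorm_eq_ofReal (by positivity)]

end Dl2

open Dl2 in
theorem aff_exists (P : Pol) (c : E 2) (r : ℝ) : ∃ Q : Pol, Q.totalDegree ≤ P.totalDegree ∧
    ∀ u : E 2, ev Q u = ev P (c + (2 * r) • u) :=
  ⟨sb c (2 * r) P, deg_sb c (2 * r) P, fun u => ev_sb c (2 * r) P u⟩

open Dl2 in
/-- parabolic rescaling, as an equality (no measurability is needed) -/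
theorem dl2_eq (q : ℝ) (hq : 0 < q) (P Q : Pol) (c : E 2) (r : ℝ) (hr : 0 < r)
    (hQ : ∀ u : E 2, ev Q u = ev P (c + (2 * r) • u)) (g : E 2 → ℂ) :
    ∫⁻ t : ℝ, ∫⁻ y, ‖FF (fun x => ex (ev (ph P t) x) * g x) y‖ₑ ^ q =
      ENNReal.ofReal ((2 * r) ^ (2 * q - 4)) *
        ∫⁻ t : ℝ, ∫⁻ y, ‖FF (fun u => ex (ev (ph Q t) u) * g (c + (2 * r) • u)) y‖ₑ ^ q := by
  have hq0 : 0 ≤ q := hq.le
  have hpos : (0 : ℝ) < (2 * r) ^ 2 := by positivity
  have h2r : 0 < 2 * r := by positivity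
  have h1 : ∀ t : ℝ, ∫⁻ y, ‖FF (fun x => ex (ev (ph P t) x) * g x) y‖ₑ ^ q =
      ENNReal.ofReal ((2 * r) ^ 2) ^ q * (ENNReal.ofReal (((2 * r) ^ 2)⁻¹) *
        ∫⁻ y, ‖FF (fun u => ex (ev (ph Q ((2 * r) ^ 2 * t)) u) * g (c + (2 * r) • u)) y‖ₑ ^ q) := by
    intro t
    have h2 : ∀ y : E 2, ‖FF (fun x => ex (ev (ph P t) x) * g x) y‖ₑ ^ q =
        ENNReal.ofReal ((2 * r) ^ 2) ^ q *
          ‖FF (fun u => ex (ev (ph Q ((2 * r) ^ 2 * t)) u) * g (c + (2 * r) • u))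
            ((2 * r) • (y + (2 * t) • c))‖ₑ ^ q := by
      intro y
      rw [enorm_FF P Q c hr hQ g t y, ENNReal.mul_rpow_of_nonneg _ _ hq0]
    simp only [h2]
    rw [lintegral_const_mul' _ _ (ENNReal.rpow_ne_top_of_nonneg hq0 ENNReal.ofReal_ne_top)]
    congr 1
    rw [lintegral_add_right_eq_self (fun y : E 2 =>
      ‖FF (fun u => ex (ev (ph Q ((2 * r) ^ 2 * t)) u) * g (c + (2 * r) • u))
        ((2 * r) • y)‖ₑ ^ q) ((2 * t) • c)]
    exact lsm (2 * r) h2r (fun y : E 2 =>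
      ‖FF (fun u => ex (ev (ph Q ((2 * r) ^ 2 * t)) u) * g (c + (2 * r) • u)) y‖ₑ ^ q)
  have hL : ∫⁻ t : ℝ, ∫⁻ y, ‖FF (fun x => ex (ev (ph P t) x) * g x) y‖ₑ ^ q =
      ENNReal.ofReal ((2 * r) ^ 2) ^ q * (ENNReal.ofReal (((2 * r) ^ 2)⁻¹) *
        (ENNReal.ofReal (((2 * r) ^ 2)⁻¹) *
          ∫⁻ t : ℝ, ∫⁻ y, ‖FF (fun u => ex (ev (ph Q t) u) * g (c + (2 * r) • u)) y‖ₑ ^ q)) := by
    simp only [h1]
    rw [lintegral_const_mul' _ _ (ENNReal.rpow_ne_top_of_nonneg hq0 ENNReal.ofReal_ne_top),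
      lintegral_const_mul' _ _ ENNReal.ofReal_ne_top]
    congr 2
    exact lsr ((2 * r) ^ 2) hpos (fun t : ℝ =>
      ∫⁻ y, ‖FF (fun u => ex (ev (ph Q t) u) * g (c + (2 * r) • u)) y‖ₑ ^ q)
  have hc : ENNReal.ofReal ((2 * r) ^ (2 * q - 4)) = ENNReal.ofReal ((2 * r) ^ 2) ^ q *
      (ENNReal.ofReal (((2 * r) ^ 2)⁻¹) * ENNReal.ofReal (((2 * r) ^ 2)⁻¹)) := by
    rw [ENNReal.ofReal_rpow_of_pos hpos, ← ENNReal.ofReal_mul (by positivity),
      ← ENNReal.ofReal_mul (by positivity)]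
    congr 1
    rw [← Real.rpow_natCast (2 * r) 2, ← Real.rpow_mul h2r.le, ← Real.rpow_neg h2r.le,
      ← Real.rpow_add h2r, ← Real.rpow_add h2r]
    congr 1
    push_cast
    ring
  rw [hL, hc]
  ring

theorem dl2 (q : ℝ) (hq : 0 < q) (P Q : Pol) (c : E 2) (r : ℝ) (hr : 0 < r)
    (hQ : ∀ u : E 2, ev Q u = ev P (c + (2 * r) • u)) (g : E 2 → ℂ) (_hg : Measurable g)
    (_hgi : Integrable g) :
    ∫⁻ t : ℝ, ∫⁻ y, ‖FF (fun x => ex (ev (ph P t) x) * g x) y‖ₑ ^ q ≤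
      ENNReal.ofReal ((2 * r) ^ (2 * q - 4)) *
        ∫⁻ t : ℝ, ∫⁻ y, ‖FF (fun u => ex (ev (ph Q t) u) * g (c + (2 * r) • u)) y‖ₑ ^ q :=
  (dl2_eq q hq P Q c r hr hQ g).le

end Pool.Agent.J4.H87.PP
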