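import Pool.Agent.J4.H87.PP.Defs

set_option autoImplicit false

/-! # Taylor polynomials of functions of two variables -/

namespace Pool.Agent.J4.H87.PP

open MeasureTheory Set MvPolynomial
open scoped ENNReal NNReal RealInnerProductSpace

namespace PBx

/-- the basis vectors -/
noncomputable def bv (i : Fin 2) : E 2 := EuclideanSpace.single i 1

/-- partial derivatives -/
noncomputable def pd (i : Fin 2) (ψ : E 2 → ℝ) (x : E 2) : ℝ := fderiv ℝ ψ x (bv i)

lemma norm_bv (i : Fin 2) : ‖bv i‖ = 1 := by simp [bv]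

lemma pd_contDiff (i : Fin 2) {ψ : E 2 → ℝ} {m : ℕ} (h : ContDiff ℝ (m + 1) ψ) :
    ContDiff ℝ m (pd i ψ) := by
  have h1 : ContDiff ℝ m (fderiv ℝ ψ) := h.fderiv_right (le_refl _)
  exact h1.clm_apply contDiff_const

lemma pd_iter (i : Fin 2) {ψ : E 2 → ℝ} {m : ℕ} (h : ContDiff ℝ (m + 1) ψ) (x : E 2) :
    ‖iteratedFDeriv ℝ m (pd i ψ) x‖ ≤ ‖iteratedFDeriv ℝ (m + 1) ψ x‖ := by
  have h1 : ContDiff ℝ m (fderiv ℝ ψ) := h.fderiv_right (le_refl _)
  let g : (E 2 →L[ℝ] ℝ) →L[ℝ] ℝ := ContinuousLinearMap.apply ℝ ℝ (bv i)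
  have h2 : pd i ψ = g ∘ fderiv ℝ ψ := rfl
  have h3 := g.norm_iteratedFDeriv_comp_left (f := fderiv ℝ ψ) (x := x) (N := m) h1.contDiffAt
    (n := m) (le_refl _)
  have h4 : ‖g‖ ≤ 1 := by
    apply ContinuousLinearMap.opNorm_le_bound _ zero_le_one
    intro f
    have := f.le_opNorm (bv i)
    rw [norm_bv, mul_one] at this
    rw [one_mul]
    exact this
  rw [h2]
  refine h3.trans ?_
  rw [norm_iteratedFDeriv_fderiv]
  calc ‖g‖ * ‖iteratedFDeriv ℝ (m + 1) ψ x‖ ≤ 1 * ‖iteratedFDeriv ℝ (m + 1) ψ x‖ :=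
        mul_le_mul_of_nonneg_right h4 (norm_nonneg _)
    _ = _ := one_mul _

lemma pd_comm {ψ : E 2 → ℝ} (h : ContDiff ℝ 2 ψ) (i j : Fin 2) : pd i (pd j ψ) = pd j (pd i ψ) := by
  funext x
  have h1 : ContDiff ℝ 1 (fderiv ℝ ψ) := h.fderiv_right (by norm_num)
  have h2 : ∀ k : Fin 2, HasFDerivAt (pd k ψ) ((fderiv ℝ (fderiv ℝ ψ) x).flip (bv k)) x := by
    intro k
    have h3 : HasFDerivAt (fderiv ℝ ψ) (fderiv ℝ (fderiv ℝ ψ) x) x :=
      (h1.differentiable (by norm_num) x).hasFDerivAt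
    have h4 := h3.clm_apply (hasFDerivAt_const (bv k) x)
    have h5 : (fderiv ℝ ψ x).comp (0 : E 2 →L[ℝ] E 2) + (fderiv ℝ (fderiv ℝ ψ) x).flip (bv k) =
        (fderiv ℝ (fderiv ℝ ψ) x).flip (bv k) := by
      rw [ContinuousLinearMap.comp_zero, zero_add]
    rw [h5] at h4
    exact h4
  have h6 : IsSymmSndFDerivAt ℝ ψ x := h.contDiffAt.isSymmSndFDerivAt (by simp)
  change fderiv ℝ (pd j ψ) x (bv i) = fderiv ℝ (pd i ψ) x (bv j)
  rw [(h2 j).fderiv, (h2 i).fderiv, ContinuousLinearMap.flip_apply, ContinuousLinearMap.flip_apply]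
  exact h6 (bv i) (bv j)

lemma pd_comm_iter : ∀ (b : ℕ) {ψ : E 2 → ℝ}, ContDiff ℝ (b + 1) ψ →
    pd 0 ((pd 1)^[b] ψ) = (pd 1)^[b] (pd 0 ψ) := by
  intro b
  induction b with
  | zero => intro ψ _; rfl
  | succ b ih =>
    intro ψ h
    rw [Function.iterate_succ_apply, Function.iterate_succ_apply]
    have h1 : ContDiff ℝ ((b + 1 : ℕ) + 1) ψ := by exact_mod_cast h
    have h2 := pd_contDiff 1 h1
    rw [ih (by exact_mod_cast h2)]
    have h3 : ContDiff ℝ 2 ψ := h1.of_le (by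
      have : 2 ≤ b + 1 + 1 := by omega
      exact_mod_cast this)
    rw [pd_comm h3]

/-- the iterated partial derivatives -/
noncomputable def DD (ψ : E 2 → ℝ) (a b : ℕ) : E 2 → ℝ := (pd 0)^[a] ((pd 1)^[b] ψ)

/-- the monomials -/
noncomputable def hh (c : E 2) (a b : ℕ) (x : E 2) : ℝ :=
  ((x 0 - c 0) ^ a / a.factorial) * ((x 1 - c 1) ^ b / b.factorial)

/-- the Taylor polynomial of degree less than `m` -/
noncomputable def TT (c : E 2) (m : ℕ) (ψ : E 2 → ℝ) (x : E 2) : ℝ :=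
  ∑ n ∈ Finset.range m, ∑ p ∈ Finset.HasAntidiagonal.antidiagonal n, DD ψ p.1 p.2 c * hh c p.1 p.2 x

lemma has_pow (c : ℝ) (i : Fin 2) (a : ℕ) (x : E 2) :
    HasFDerivAt (fun x : E 2 => (x i - c) ^ a / (a.factorial : ℝ))
      ((if a = 0 then 0 else (x i - c) ^ (a - 1) / ((a - 1).factorial : ℝ)) •
        (EuclideanSpace.proj i : E 2 →L[ℝ] ℝ)) x := by
  have h1 : HasFDerivAt (fun x : E 2 => x i - c) (EuclideanSpace.proj i : E 2 →L[ℝ] ℝ) x :=
    (EuclideanSpace.proj i : E 2 →L[ℝ] ℝ).hasFDerivAt.sub_const c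
  have h2 := (h1.pow a).mul_const ((a.factorial : ℝ)⁻¹)
  have h3 : (fun x : E 2 => (x i - c) ^ a / (a.factorial : ℝ)) =
      fun x : E 2 => (x i - c) ^ a * (a.factorial : ℝ)⁻¹ := by
    funext x
    rw [div_eq_mul_inv]
  rw [h3]
  refine h2.congr_fderiv ?_
  rw [smul_smul]
  congr 1
  rcases Nat.eq_zero_or_pos a with rfl | ha
  · simp
  · obtain ⟨k, rfl⟩ : ∃ k, a = k + 1 := ⟨a - 1, by omega⟩
    rw [if_neg (by omega), Nat.add_sub_cancel, Nat.factorial_succ]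
    push_cast
    have h4 : ((k.factorial : ℕ) : ℝ) ≠ 0 := by positivity
    have h5 : (k : ℝ) + 1 ≠ 0 := by positivity
    rw [nsmul_eq_mul]
    push_cast
    field_simp

lemma has_hh (c : E 2) (a b : ℕ) (x : E 2) :
    HasFDerivAt (hh c a b) ((if a = 0 then 0 else hh c (a - 1) b x) •
        (EuclideanSpace.proj 0 : E 2 →L[ℝ] ℝ) + (if b = 0 then 0 else hh c a (b - 1) x) •
        (EuclideanSpace.proj 1 : E 2 →L[ℝ] ℝ)) x := by
  have h1 := (has_pow (c 0) 0 a x).mul (has_pow (c 1) 1 b x)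
  refine h1.congr_fderiv ?_
  rw [smul_smul, smul_smul, add_comm]
  congr 1
  · congr 1
    split_ifs
    · simp
    · unfold hh
      ring
  · congr 1
    split_ifs
    · simp
    · unfold hh
      ring

lemma has_TT (c : E 2) (m : ℕ) (ψ : E 2 → ℝ) (x : E 2) :
    HasFDerivAt (TT c m ψ) (∑ n ∈ Finset.range m, ∑ p ∈ Finset.HasAntidiagonal.antidiagonal n, DD ψ p.1 p.2 c •
      ((if p.1 = 0 then 0 else hh c (p.1 - 1) p.2 x) •
        (EuclideanSpace.proj 0 : E 2 →L[ℝ] ℝ) + (if p.2 = 0 then 0 else hh c p.1 (p.2 - 1) x) •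
        (EuclideanSpace.proj 1 : E 2 →L[ℝ] ℝ))) x := by
  unfold TT
  apply HasFDerivAt.fun_sum
  intro n _
  apply HasFDerivAt.fun_sum
  intro p _
  exact (has_hh c p.1 p.2 x).const_mul _

lemma proj_bv (i j : Fin 2) : (EuclideanSpace.proj i : E 2 →L[ℝ] ℝ) (bv j) = if i = j then 1 else 0 := by
  simp [bv, EuclideanSpace.single_apply]

lemma DD_pd0 {ψ : E 2 → ℝ} {a b : ℕ} (h : ContDiff ℝ (b + 1) ψ) :
    DD ψ (a + 1) b = DD (pd 0 ψ) a b := by
  unfold DD
  rw [Function.iterate_succ_apply, pd_comm_iter b h]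

lemma DD_pd1 {ψ : E 2 → ℝ} {a b : ℕ} : DD ψ a (b + 1) = DD (pd 1 ψ) a b := by
  unfold DD
  rw [Function.iterate_succ_apply]

lemma fderiv_TT (c : E 2) (m : ℕ) {ψ : E 2 → ℝ} (h : ContDiff ℝ (m + 1) ψ) (i : Fin 2) (x : E 2) :
    fderiv ℝ (TT c (m + 1) ψ) x (bv i) = TT c m (pd i ψ) x := by
  rw [(has_TT c (m + 1) ψ x).fderiv]
  rw [ContinuousLinearMap.sum_apply, Finset.sum_range_succ']
  have h0 : (∑ p ∈ Finset.HasAntidiagonal.antidiagonal 0, DD ψ p.1 p.2 c •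
      ((if p.1 = 0 then 0 else hh c (p.1 - 1) p.2 x) •
        (EuclideanSpace.proj 0 : E 2 →L[ℝ] ℝ) + (if p.2 = 0 then 0 else hh c p.1 (p.2 - 1) x) •
        (EuclideanSpace.proj 1 : E 2 →L[ℝ] ℝ))) (bv i) = 0 := by
    simp
  rw [h0, add_zero]
  unfold TT
  apply Finset.sum_congr rfl
  intro n hn
  rw [Finset.mem_range] at hn
  rw [ContinuousLinearMap.sum_apply]
  obtain rfl | rfl : i = 0 ∨ i = 1 := by omega
  · rw [Finset.Nat.sum_antidiagonal_succ]
    have h1 : ∀ a b : ℕ, (DD ψ a b c • ((if a = 0 then 0 else hh c (a - 1) b x) •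
        (EuclideanSpace.proj 0 : E 2 →L[ℝ] ℝ) + (if b = 0 then 0 else hh c a (b - 1) x) •
        (EuclideanSpace.proj 1 : E 2 →L[ℝ] ℝ))) (bv 0) =
        DD ψ a b c * (if a = 0 then 0 else hh c (a - 1) b x) := by
      intro a b
      rw [ContinuousLinearMap.smul_apply, ContinuousLinearMap.add_apply,
        ContinuousLinearMap.smul_apply, ContinuousLinearMap.smul_apply, proj_bv, proj_bv]
      simp
    rw [h1 0 (n + 1), if_pos rfl, mul_zero, zero_add]
    apply Finset.sum_congr rfl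
    intro p hp
    rw [h1 (p.1 + 1) p.2]
    rw [Finset.HasAntidiagonal.mem_antidiagonal] at hp
    rw [if_neg (by omega), Nat.add_sub_cancel]
    have h3 : ContDiff ℝ (p.2 + 1) ψ := h.of_le (by
      have : p.2 + 1 ≤ m + 1 := by omega
      exact_mod_cast this)
    rw [DD_pd0 h3]
  · rw [Finset.Nat.sum_antidiagonal_succ']
    have h1 : ∀ a b : ℕ, (DD ψ a b c • ((if a = 0 then 0 else hh c (a - 1) b x) •
        (EuclideanSpace.proj 0 : E 2 →L[ℝ] ℝ) + (if b = 0 then 0 else hh c a (b - 1) x) •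
        (EuclideanSpace.proj 1 : E 2 →L[ℝ] ℝ))) (bv 1) =
        DD ψ a b c * (if b = 0 then 0 else hh c a (b - 1) x) := by
      intro a b
      rw [ContinuousLinearMap.smul_apply, ContinuousLinearMap.add_apply,
        ContinuousLinearMap.smul_apply, ContinuousLinearMap.smul_apply, proj_bv, proj_bv]
      simp
    rw [h1 (n + 1) 0, if_pos rfl, mul_zero, zero_add]
    apply Finset.sum_congr rfl
    intro p hp
    rw [h1 p.1 (p.2 + 1)]
    rw [if_neg (by omega), Nat.add_sub_cancel, DD_pd1]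

lemma clm_bound (ℓ : E 2 →L[ℝ] ℝ) : ‖ℓ‖ ≤ |ℓ (bv 0)| + |ℓ (bv 1)| := by
  apply ContinuousLinearMap.opNorm_le_bound _ (by positivity)
  intro v
  have h1 : v = v 0 • bv 0 + v 1 • bv 1 := by
    ext i
    fin_cases i <;> simp [bv, EuclideanSpace.single_apply]
  have h2 : ℓ v = v 0 * ℓ (bv 0) + v 1 * ℓ (bv 1) := by
    conv_lhs => rw [h1]
    rw [map_add, map_smul, map_smul, smul_eq_mul, smul_eq_mul]
  have h3 : ∀ i, |v i| ≤ ‖v‖ := fun i => by
    have := PiLp.norm_apply_le v i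
    rwa [Real.norm_eq_abs] at this
  rw [h2, Real.norm_eq_abs]
  calc |v 0 * ℓ (bv 0) + v 1 * ℓ (bv 1)| ≤ |v 0 * ℓ (bv 0)| + |v 1 * ℓ (bv 1)| := abs_add_le _ _
    _ = |v 0| * |ℓ (bv 0)| + |v 1| * |ℓ (bv 1)| := by rw [abs_mul, abs_mul]
    _ ≤ ‖v‖ * |ℓ (bv 0)| + ‖v‖ * |ℓ (bv 1)| := by
        gcongr
        · exact h3 0
        · exact h3 1
    _ = _ := by ring

lemma contDiff_TT (c : E 2) (m : ℕ) (ψ : E 2 → ℝ) (x : E 2) : DifferentiableAt ℝ (TT c m ψ) x :=
  (has_TT c m ψ x).differentiableAt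

/-- the error of the Taylor polynomial -/
lemma taylor (c : E 2) (hc : ‖c‖ ≤ 1) (L : ℝ) : ∀ (m : ℕ) (ψ : E 2 → ℝ), ContDiff ℝ m ψ →
    (∀ x, ‖x‖ ≤ 1 → ‖iteratedFDeriv ℝ m ψ x‖ ≤ L) → ∀ x : E 2, ‖x‖ ≤ 1 →
      |ψ x - TT c m ψ x| ≤ 2 ^ m * L * ‖x - c‖ ^ m := by
  intro m
  induction m with
  | zero =>
    intro ψ _ h x hx
    have h1 := h x hx
    rw [norm_iteratedFDeriv_zero] at h1
    simp only [TT, Finset.range_zero, Finset.sum_empty, sub_zero, pow_zero, one_mul, mul_one]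
    exact h1
  | succ m ih =>
    intro ψ hψ h x hx
    have hψ' : ContDiff ℝ (m + 1) ψ := by exact_mod_cast hψ
    have hL : 0 ≤ L := (norm_nonneg _).trans (h x hx)
    have hseg : ∀ z ∈ segment ℝ c x, ‖z‖ ≤ 1 ∧ ‖z - c‖ ≤ ‖x - c‖ := by
      intro z hz
      constructor
      · have h1 : segment ℝ c x ⊆ Metric.closedBall (0 : E 2) 1 :=
          (convex_closedBall (0 : E 2) 1).segment_subset (by simpa using hc) (by simpa using hx)
        simpa using h1 hz
      · have h1 : segment ℝ c x ⊆ Metric.closedBall c ‖x - c‖ :=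
          (convex_closedBall c _).segment_subset (by simp) (by simp [dist_eq_norm])
        have := h1 hz
        rwa [Metric.mem_closedBall, dist_eq_norm] at this
    have hdiff : ∀ z, DifferentiableAt ℝ (fun y => ψ y - TT c (m + 1) ψ y) z := fun z =>
      (hψ'.differentiable (by simp) z).sub (contDiff_TT c (m + 1) ψ z)
    have hbd : ∀ z ∈ segment ℝ c x, ‖fderiv ℝ (fun y => ψ y - TT c (m + 1) ψ y) z‖ ≤
        2 ^ (m + 1) * L * ‖x - c‖ ^ m := by
      intro z hz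
      obtain ⟨hz1, hz2⟩ := hseg z hz
      refine (clm_bound _).trans ?_
      have h2 : ∀ i : Fin 2, |fderiv ℝ (fun y => ψ y - TT c (m + 1) ψ y) z (bv i)| ≤
          2 ^ m * L * ‖x - c‖ ^ m := by
        intro i
        have h3 : fderiv ℝ (fun y => ψ y - TT c (m + 1) ψ y) z (bv i) =
            pd i ψ z - TT c m (pd i ψ) z := by
          rw [fderiv_fun_sub (hψ'.differentiable (by simp) z) (contDiff_TT c (m + 1) ψ z),
            ContinuousLinearMap.sub_apply, fderiv_TT c m hψ' i z]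
          rfl
        rw [h3]
        refine (ih (pd i ψ) (pd_contDiff i hψ') (fun y hy => (pd_iter i hψ' y).trans (h y hy)) z
          hz1).trans ?_
        have h4 : ‖z - c‖ ^ m ≤ ‖x - c‖ ^ m := pow_le_pow_left₀ (norm_nonneg _) hz2 m
        exact mul_le_mul_of_nonneg_left h4 (by positivity)
      have h5 := h2 0
      have h6 := h2 1
      calc _ ≤ 2 ^ m * L * ‖x - c‖ ^ m + 2 ^ m * L * ‖x - c‖ ^ m := add_le_add h5 h6
        _ = _ := by ring
    have h7 := (convex_segment c x).norm_image_sub_le_of_norm_fderiv_le (𝕜 := ℝ)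
      (fun z _ => hdiff z) hbd (left_mem_segment ℝ c x) (right_mem_segment ℝ c x)
    have h8 : TT c (m + 1) ψ c = ψ c := by
      unfold TT
      rw [Finset.sum_range_succ']
      have h9 : ∀ n ∈ Finset.range m, ∑ p ∈ Finset.HasAntidiagonal.antidiagonal (n + 1),
          DD ψ p.1 p.2 c * hh c p.1 p.2 c = 0 := by
        intro n _
        apply Finset.sum_eq_zero
        intro p hp
        rw [Finset.HasAntidiagonal.mem_antidiagonal] at hp
        unfold hh
        rcases Nat.eq_zero_or_pos p.1 with h10 | h10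
        · have h11 : p.2 ≠ 0 := by omega
          simp [h11]
        · have h11 : p.1 ≠ 0 := by omega
          simp [h11]
      rw [Finset.sum_eq_zero h9]
      simp [DD, hh]
    rw [h8, sub_self, sub_zero, Real.norm_eq_abs] at h7
    calc |ψ x - TT c (m + 1) ψ x| ≤ 2 ^ (m + 1) * L * ‖x - c‖ ^ m * ‖x - c‖ := h7
      _ = _ := by rw [pow_succ ‖x - c‖]; ring

/-- the error of the gradient -/
lemma taylor_grad (c : E 2) (hc : ‖c‖ ≤ 1) (L : ℝ) (m : ℕ) (ψ : E 2 → ℝ) (hψ : ContDiff ℝ (m + 1) ψ)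
    (h : ∀ x, ‖x‖ ≤ 1 → ‖iteratedFDeriv ℝ (m + 1) ψ x‖ ≤ L) (z : E 2) (hz : ‖z‖ ≤ 1) :
    ‖fderiv ℝ (fun y => ψ y - TT c (m + 1) ψ y) z‖ ≤ 2 ^ (m + 1) * L * ‖z - c‖ ^ m := by
  refine (clm_bound _).trans ?_
  have h2 : ∀ i : Fin 2, |fderiv ℝ (fun y => ψ y - TT c (m + 1) ψ y) z (bv i)| ≤
      2 ^ m * L * ‖z - c‖ ^ m := by
    intro i
    have h3 : fderiv ℝ (fun y => ψ y - TT c (m + 1) ψ y) z (bv i) =
        pd i ψ z - TT c m (pd i ψ) z := by
      rw [fderiv_fun_sub (hψ.differentiable (by simp) z) (contDiff_TT c (m + 1) ψ z),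
        ContinuousLinearMap.sub_apply, fderiv_TT c m hψ i z]
      rfl
    rw [h3]
    exact taylor c hc L m (pd i ψ) (pd_contDiff i hψ) (fun y hy => (pd_iter i hψ y).trans (h y hy)) z hz
  calc _ ≤ 2 ^ m * L * ‖z - c‖ ^ m + 2 ^ m * L * ‖z - c‖ ^ m := add_le_add (h2 0) (h2 1)
    _ = _ := by ring

/-- the Taylor polynomial is a polynomial -/
lemma exists_pol (c : E 2) (m : ℕ) (ψ : E 2 → ℝ) :
    ∃ P : Pol, P.totalDegree ≤ m ∧ ∀ x, ev P x = TT c m ψ x := by
  refine ⟨∑ n ∈ Finset.range m, ∑ p ∈ Finset.HasAntidiagonal.antidiagonal n,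
    C (DD ψ p.1 p.2 c / (p.1.factorial * p.2.factorial)) *
      ((X 0 - C (c 0)) ^ p.1 * (X 1 - C (c 1)) ^ p.2), ?_, ?_⟩
  · apply MvPolynomial.totalDegree_finsetSum_le
    intro n hn
    apply MvPolynomial.totalDegree_finsetSum_le
    intro p hp
    rw [Finset.mem_range] at hn
    rw [Finset.HasAntidiagonal.mem_antidiagonal] at hp
    have h1 : ∀ (i : Fin 2) (t : ℝ) (k : ℕ), ((X i - C t : Pol) ^ k).totalDegree ≤ k := by
      intro i t k
      refine (MvPolynomial.totalDegree_pow _ _).trans ?_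
      have h2 : (X i - C t : Pol).totalDegree ≤ 1 := by
        refine (MvPolynomial.totalDegree_sub_C_le _ _).trans ?_
        rw [MvPolynomial.totalDegree_X]
      calc k * (X i - C t : Pol).totalDegree ≤ k * 1 := Nat.mul_le_mul_left k h2
        _ = k := mul_one k
    refine (MvPolynomial.totalDegree_mul _ _).trans ?_
    rw [MvPolynomial.totalDegree_C, zero_add]
    refine (MvPolynomial.totalDegree_mul _ _).trans ?_
    have h3 := h1 0 (c 0) p.1
    have h4 := h1 1 (c 1) p.2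
    omega
  · intro x
    unfold ev TT hh
    rw [map_sum]
    apply Finset.sum_congr rfl
    intro n _
    rw [map_sum]
    apply Finset.sum_congr rfl
    intro p _
    simp only [map_mul, map_pow, map_sub, eval_C, eval_X]
    have h1 : ((p.1.factorial : ℕ) : ℝ) ≠ 0 := by positivity
    have h2 : ((p.2.factorial : ℕ) : ℝ) ≠ 0 := by positivity
    field_simp

end PBx

end Pool.Agent.J4.H87.PP
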