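import Pool.Agent.J4.H87.PP.Defs
import Pool.Agent.Helper404.Sublevel

set_option autoImplicit false

/-!
# Sublevel sets of polynomials in two variables
-/

namespace Pool.Agent.J4.H87.PP

open MeasureTheory Set MvPolynomial
open scoped ENNReal NNReal

namespace SubA

theorem eval_line (p : Pol) (f : Fin 2 → Polynomial ℝ) (u : ℝ) :
    Polynomial.eval u (aeval f p) = eval (fun i => (f i).eval u) p := by
  induction p using MvPolynomial.induction_on with
  | C c => simp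
  | add p q hp hq => rw [map_add, Polynomial.eval_add, hp, hq, map_add]
  | mul_X p i hp => rw [map_mul, Polynomial.eval_mul, hp, map_mul, aeval_X, eval_X]

/-- one variable -/
theorem one (n : ℕ) (p : Pol) (hp : p.totalDegree ≤ n) (f : Fin 2 → Polynomial ℝ)
    (hf : ∀ i, (f i).natDegree ≤ 1) (a l z ρ ε : ℝ) (hl : 0 < l) (hz : z ∈ Ico a (a + l))
    (hρ : 0 < ρ) (hρz : ρ ≤ |eval (fun i => (f i).eval z) p|) (hε : 0 < ε) :
    volume {u ∈ Ico a (a + l) | |eval (fun i => (f i).eval u) p| < ε} ≤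
      ENNReal.ofReal ((4 * (((n + 1 : ℕ) : ℝ) + 1) ^ 2) *
        (ε / ρ) ^ (1 / ((n + 1 : ℕ) : ℝ)) * l) := by
  have h1 : (aeval f p).natDegree ≤ n + 1 := by
    have := MvPolynomial.aeval_natDegree_le p hp f hf
    omega
  have h2 := Pool.Agent.Helper404.sublevel (n + 1) (by omega) (aeval f p) h1 a l hl z ρ ε hz hρ
    (by rw [eval_line]; exact hρz) hε
  simp only [eval_line] at h2
  exact h2

/-- the identification with the plane -/
noncomputable def g : E 2 ≃ᵐ ℝ × ℝ :=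
  (MeasurableEquiv.toLp 2 (Fin 2 → ℝ)).symm.trans MeasurableEquiv.finTwoArrow

theorem g_apply (x : E 2) : g x = (x 0, x 1) := rfl

theorem g_mp : MeasurePreserving g volume volume :=
  (volume_preserving_finTwoArrow ℝ).comp (EuclideanSpace.volume_preserving_symm_measurableEquiv_toLp
    (Fin 2))

theorem vol_g (T : Set (ℝ × ℝ)) : volume (g ⁻¹' T) = volume T :=
  g_mp.measure_preimage_equiv T

theorem fn_eq (x : E 2) : (fun i => x i) = ![x 0, x 1] := by
  funext i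
  fin_cases i <;> rfl

theorem ev_eq (p : Pol) (x : E 2) : ev p x = eval ![x 0, x 1] p := by
  unfold ev
  rw [fn_eq]

theorem cont (p : Pol) : Continuous fun q : ℝ × ℝ => eval ![q.1, q.2] p := by
  have h : Continuous fun q : ℝ × ℝ => (![q.1, q.2] : Fin 2 → ℝ) := by
    refine continuous_pi fun i => ?_
    fin_cases i
    · exact continuous_fst
    · exact continuous_snd
  exact (MvPolynomial.continuous_eval p).comp h

theorem line0 (u v : ℝ) : (fun i => ((![Polynomial.X, Polynomial.C v] : Fin 2 → Polynomial ℝ)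
    i).eval u) = ![u, v] := by
  funext i
  fin_cases i <;> simp

theorem line1 (u v : ℝ) : (fun i => ((![Polynomial.C u, Polynomial.X] : Fin 2 → Polynomial ℝ)
    i).eval v) = ![u, v] := by
  funext i
  fin_cases i <;> simp

theorem deg0 (v : ℝ) : ∀ i, ((![Polynomial.X, Polynomial.C v] : Fin 2 → Polynomial ℝ)
    i).natDegree ≤ 1 := by
  intro i
  fin_cases i <;> simp

theorem deg1 (u : ℝ) : ∀ i, ((![Polynomial.C u, Polynomial.X] : Fin 2 → Polynomial ℝ)
    i).natDegree ≤ 1 := by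
  intro i
  fin_cases i <;> simp

end SubA

open SubA

theorem sub (n : ℕ) : ∃ C c : ℝ, 0 < C ∧ 0 < c ∧ c ≤ 1 ∧ ∀ p : Pol, p.totalDegree ≤ n →
    ∀ (x₀ : E 2) (s M τ : ℝ), 0 < s → 0 < M → 0 < τ →
      (∃ ξ : E 2, (∀ i, |ξ i - x₀ i| ≤ 2 * s) ∧ M ≤ |ev p ξ|) →
      volume {x : E 2 | (∀ i, x₀ i ≤ x i ∧ x i < x₀ i + s) ∧ |ev p x| < τ * M} ≤
        ENNReal.ofReal (C * τ ^ c * s ^ 2) := by
  obtain ⟨D, hD⟩ : ∃ D : ℝ, D = ((n + 1 : ℕ) : ℝ) := ⟨_, rfl⟩
  have hD1 : 1 ≤ D := by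
    rw [hD]
    exact_mod_cast Nat.le_add_left 1 n
  obtain ⟨K, hK⟩ : ∃ K : ℝ, K = 4 * (D + 1) ^ 2 := ⟨_, rfl⟩
  have hK0 : 0 < K := by rw [hK]; positivity
  refine ⟨10 * K + 1, 1 / (2 * D), by positivity, by positivity, ?_, ?_⟩
  · rw [div_le_one (by positivity)]
    linarith
  intro p hp x₀ s M τ hs hM hτ ⟨ξ, hξ, hMξ⟩
  obtain ⟨T, hT⟩ : ∃ T : Set (ℝ × ℝ), T = {q | q.1 ∈ Ico (x₀ 0) (x₀ 0 + s) ∧
      q.2 ∈ Ico (x₀ 1) (x₀ 1 + s) ∧ |eval ![q.1, q.2] p| < τ * M} := ⟨_, rfl⟩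
  have hST : {x : E 2 | (∀ i, x₀ i ≤ x i ∧ x i < x₀ i + s) ∧ |ev p x| < τ * M} = g ⁻¹' T := by
    ext x
    rw [hT, mem_preimage, g_apply, mem_ofPred_eq, mem_ofPred_eq, ev_eq, Fin.forall_fin_two]
    simp only [mem_Ico]
    tauto
  rw [hST, vol_g]
  have hTm : MeasurableSet T := by
    rw [hT]
    refine (measurableSet_Ico.preimage measurable_fst).inter
      ((measurableSet_Ico.preimage measurable_snd).inter ?_)
    exact (isOpen_lt (cont p).abs continuous_const).measurableSet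
  have hTs : T ⊆ Ico (x₀ 0) (x₀ 0 + s) ×ˢ Ico (x₀ 1) (x₀ 1 + s) := by
    rw [hT]
    rintro q ⟨h1, h2, -⟩
    exact ⟨h1, h2⟩
  have hsq : volume (Ico (x₀ 0) (x₀ 0 + s) ×ˢ Ico (x₀ 1) (x₀ 1 + s)) = ENNReal.ofReal (s ^ 2) := by
    rw [Measure.volume_eq_prod, Measure.prod_prod, Real.volume_Ico, Real.volume_Ico,
      add_sub_cancel_left, add_sub_cancel_left, ← ENNReal.ofReal_mul hs.le, pow_two]
  have hx0 : 0 ≤ s ^ 2 := by positivity
  rcases le_or_gt 1 τ with h1τ | hτ1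
  · refine (measure_mono hTs).trans ?_
    rw [hsq]
    apply ENNReal.ofReal_le_ofReal
    have h1 : 1 ≤ τ ^ (1 / (2 * D)) := Real.one_le_rpow h1τ (by positivity)
    have h2 : 1 ≤ (10 * K + 1) * τ ^ (1 / (2 * D)) := by nlinarith
    nlinarith
  obtain ⟨σ, hσ⟩ : ∃ σ : ℝ, σ = √τ := ⟨_, rfl⟩
  have hσ0 : 0 < σ := by rw [hσ]; exact Real.sqrt_pos.2 hτ
  have hσσ : σ * σ = τ := by rw [hσ]; exact Real.mul_self_sqrt hτ.le
  have hσD : σ ^ (1 / D) = τ ^ (1 / (2 * D)) := by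
    rw [hσ, Real.sqrt_eq_rpow, ← Real.rpow_mul hτ.le]
    congr 1
    field_simp
  obtain ⟨κ, hκ⟩ : ∃ κ : ℝ, κ = K * σ ^ (1 / D) * (5 * s) := ⟨_, rfl⟩
  have hκ0 : 0 ≤ κ := by rw [hκ]; positivity
  have hz : ∀ i, ξ i ∈ Ico (x₀ i - 2 * s) (x₀ i - 2 * s + 5 * s) := by
    intro i
    have := abs_le.1 (hξ i)
    exact ⟨by linarith, by linarith⟩
  obtain ⟨B, hB⟩ : ∃ B : Set ℝ, B = {u ∈ Ico (x₀ 0 - 2 * s) (x₀ 0 - 2 * s + 5 * s) |
      |eval ![u, ξ 1] p| < σ * M} := ⟨_, rfl⟩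
  have hBv : volume B ≤ ENNReal.ofReal κ := by
    have h1 := one n p hp _ (deg0 (ξ 1)) (x₀ 0 - 2 * s) (5 * s) (ξ 0) M (σ * M) (by positivity)
      (hz 0) hM (by rw [line0]; rw [ev_eq] at hMξ; exact hMξ) (by positivity)
    simp only [line0] at h1
    rw [hB, hκ, hK]
    have e : σ * M / M = σ := by field_simp
    rw [e, ← hD] at h1
    exact h1
  have hBm : MeasurableSet B := by
    rw [hB]
    have h1 : Continuous fun u : ℝ => |eval ![u, ξ 1] p| :=
      ((cont p).comp (continuous_id.prodMk continuous_const)).abs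
    exact measurableSet_Ico.inter (isOpen_lt h1 continuous_const).measurableSet
  have hslice : ∀ u : ℝ, volume (Prod.mk u ⁻¹' T) ≤ B.indicator (fun _ => ENNReal.ofReal s) u +
      (Ico (x₀ 0) (x₀ 0 + s)).indicator (fun _ => ENNReal.ofReal κ) u := by
    intro u
    by_cases hu : u ∈ Ico (x₀ 0) (x₀ 0 + s)
    · by_cases huB : u ∈ B
      · rw [indicator_of_mem huB]
        refine le_add_right ?_
        have h1 : Prod.mk u ⁻¹' T ⊆ Ico (x₀ 1) (x₀ 1 + s) := fun v hv => (hTs hv).2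
        refine (measure_mono h1).trans ?_
        rw [Real.volume_Ico, add_sub_cancel_left]
      · rw [indicator_of_mem hu]
        refine le_add_left ?_
        have h2 : σ * M ≤ |eval ![u, ξ 1] p| := by
          by_contra hcon
          push Not at hcon
          apply huB
          rw [hB]
          exact ⟨⟨by linarith [hu.1], by linarith [hu.2]⟩, hcon⟩
        have h1 := one n p hp _ (deg1 u) (x₀ 1 - 2 * s) (5 * s) (ξ 1) (σ * M) (τ * M)
          (by positivity) (hz 1) (by positivity) (by rw [line1]; exact h2) (by positivity)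
        simp only [line1] at h1
        have e : τ * M / (σ * M) = σ := by
          rw [← hσσ]
          field_simp
        rw [e, ← hD, ← hK, ← hκ] at h1
        refine (measure_mono ?_).trans h1
        intro v hv
        have hv' : (u, v) ∈ T := hv
        rw [hT] at hv'
        obtain ⟨-, hv1, hv2⟩ := hv'
        exact ⟨⟨by linarith [hv1.1], by linarith [hv1.2]⟩, hv2⟩
    · have h1 : Prod.mk u ⁻¹' T = ∅ := by
        ext v
        simp only [mem_preimage, mem_empty_iff_false, iff_false]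
        intro hv
        exact hu (hTs hv).1
      rw [h1, measure_empty]
      exact zero_le
  rw [Measure.volume_eq_prod, Measure.prod_apply hTm]
  refine (lintegral_mono hslice).trans ?_
  rw [lintegral_add_left ((measurable_const).indicator hBm), lintegral_indicator hBm,
    lintegral_indicator measurableSet_Ico, setLIntegral_const, setLIntegral_const, Real.volume_Ico,
    add_sub_cancel_left]
  refine (add_le_add_left (mul_le_mul_right hBv _) _).trans ?_
  rw [← ENNReal.ofReal_mul hs.le, ← ENNReal.ofReal_mul hκ0, ← ENNReal.ofReal_add (by positivity)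
    (by positivity)]
  apply ENNReal.ofReal_le_ofReal
  rw [hκ, ← hσD]
  have h1 : 0 ≤ σ ^ (1 / D) * s ^ 2 := by positivity
  nlinarith

theorem sq_eq (k : ℕ) (a : Fin 2 → ℤ) :
    sq k a = {x | ∀ i, co k a i ≤ x i ∧ x i < co k a i + 1 / 2 ^ k} := by
  ext x
  unfold sq co
  rw [mem_ofPred_eq, mem_ofPred_eq]
  refine forall_congr' fun i => ?_
  show _ ↔ (a i : ℝ) / 2 ^ k ≤ x i ∧ x i < (a i : ℝ) / 2 ^ k + 1 / 2 ^ k
  rw [← add_div]

theorem SubA.vol_sq (k : ℕ) (a : Fin 2 → ℤ) : volume (sq k a) = ENNReal.ofReal ((1 / 2 ^ k) ^ 2) := by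
  have h : sq k a = g ⁻¹' (Ico (co k a 0) (co k a 0 + 1 / 2 ^ k) ×ˢ
      Ico (co k a 1) (co k a 1 + 1 / 2 ^ k)) := by
    ext x
    rw [sq_eq, mem_preimage, g_apply, mem_ofPred_eq, Fin.forall_fin_two]
    rfl
  rw [h, vol_g, Measure.volume_eq_prod, Measure.prod_prod, Real.volume_Ico, Real.volume_Ico,
    add_sub_cancel_left, add_sub_cancel_left, ← ENNReal.ofReal_mul (by positivity), pow_two]

theorem half (n : ℕ) : ∃ c : ℝ, 0 < c ∧ ∀ p : Pol, p.totalDegree ≤ n →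
    ∀ (k : ℕ) (a : Fin 2 → ℤ) (M : ℝ), 0 < M →
      (∃ ξ : E 2, (∀ i, |ξ i - co k a i| ≤ 2 / 2 ^ k) ∧ M ≤ |ev p ξ|) →
      2 * volume {x : E 2 | x ∈ sq k a ∧ |ev p x| < c * M} ≤ volume (sq k a) := by
  obtain ⟨C, c, hC, hc, hc1, h⟩ := sub n
  refine ⟨(1 / (2 * C)) ^ (1 / c), by positivity, ?_⟩
  intro p hp k a M hM ⟨ξ, hξ, hMξ⟩
  have h1 := h p hp (co k a) (1 / 2 ^ k) M ((1 / (2 * C)) ^ (1 / c)) (by positivity) hM
    (by positivity) ⟨ξ, fun i => by rw [mul_one_div]; exact hξ i, hMξ⟩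
  have e1 : {x : E 2 | x ∈ sq k a ∧ |ev p x| < (1 / (2 * C)) ^ (1 / c) * M} =
      {x : E 2 | (∀ i, co k a i ≤ x i ∧ x i < co k a i + 1 / 2 ^ k) ∧
        |ev p x| < (1 / (2 * C)) ^ (1 / c) * M} := by
    ext x
    rw [mem_ofPred_eq, sq_eq, mem_ofPred_eq, mem_ofPred_eq]
  rw [e1, SubA.vol_sq]
  have e2 : ((1 / (2 * C)) ^ (1 / c)) ^ c = 1 / (2 * C) := by
    rw [← Real.rpow_mul (by positivity), one_div_mul_cancel hc.ne', Real.rpow_one]
  rw [e2] at h1
  refine (mul_le_mul_right h1 2).trans ?_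
  have e3 : (2 : ℝ≥0∞) = ENNReal.ofReal 2 := by simp
  rw [e3, ← ENNReal.ofReal_mul (by norm_num)]
  apply ENNReal.ofReal_le_ofReal
  have : 2 * (C * (1 / (2 * C)) * (1 / 2 ^ k) ^ 2) = (1 / 2 ^ k : ℝ) ^ 2 := by
    field_simp
  rw [this]

end Pool.Agent.J4.H87.PP
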