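import Pool.Agent.J4.H87.PP.Sup
import Pool.Agent.J4.H87.PP.Ker
import Pool.Agent.J4.H87.PP.Cnt
import Pool.Agent.J4.H87.PP.Ar
import Pool.Agent.J4.H87.PP.Gr
import Pool.Agent.J4.H87.PP.Sub
set_option autoImplicit false

/-! Polynomial phases: the pointwise bound for the Fourier transform of the squares of one class,
with logarithms. -/

namespace Pool.Agent.J4.H87.PP

open MeasureTheory Set MvPolynomial
open scoped ENNReal NNReal RealInnerProductSpace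

namespace Supl

/-- the harmonic sum over `|t| ≤ 2 ^ L` -/
theorem line_sum (L : ℕ) :
    ∑ t ∈ Finset.Icc (-2 ^ L : ℤ) (2 ^ L), (1 + |(t : ℝ)|)⁻¹ ≤ 2 * (1 + (L : ℝ)) := by
  induction L with
  | zero =>
    have h1 : Finset.Icc (-2 ^ 0 : ℤ) (2 ^ 0) = {-1, 0, 1} := by decide
    rw [h1, Finset.sum_insert (by decide), Finset.sum_insert (by decide), Finset.sum_singleton]
    norm_num
  | succ L ih =>
    have hsub : Finset.Icc (-2 ^ L : ℤ) (2 ^ L) ⊆ Finset.Icc (-2 ^ (L + 1) : ℤ) (2 ^ (L + 1)) := by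
      intro t ht
      rw [Finset.mem_Icc] at ht ⊢
      have h0 : (0 : ℤ) < 2 ^ L := by positivity
      rw [pow_succ]
      constructor <;> linarith [ht.1, ht.2]
    rw [← Finset.sum_sdiff hsub]
    have hN : (0 : ℝ) < 2 ^ L := by positivity
    have h2 : ∑ t ∈ Finset.Icc (-2 ^ (L + 1) : ℤ) (2 ^ (L + 1)) \
        Finset.Icc (-2 ^ L : ℤ) (2 ^ L), (1 + |(t : ℝ)|)⁻¹ ≤ 2 := by
      have h3 : ∀ t ∈ Finset.Icc (-2 ^ (L + 1) : ℤ) (2 ^ (L + 1)) \
          Finset.Icc (-2 ^ L : ℤ) (2 ^ L), (1 + |(t : ℝ)|)⁻¹ ≤ (2 ^ L)⁻¹ := by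
        intro t ht
        have h40 := (Finset.mem_sdiff.1 ht).2
        have h4 : (2 : ℤ) ^ L < |t| :=
          not_le.1 fun h => h40 (Finset.mem_Icc.2 (abs_le.1 h))
        have h5 : (2 : ℝ) ^ L < |(t : ℝ)| := by exact_mod_cast h4
        exact inv_anti₀ hN (by linarith)
      refine (Finset.sum_le_card_nsmul _ _ _ h3).trans ?_
      rw [nsmul_eq_mul, Finset.card_sdiff_of_subset hsub, Int.card_Icc, Int.card_Icc]
      have h6 : (2 ^ (L + 1) + 1 - -2 ^ (L + 1) : ℤ).toNat = 4 * 2 ^ L + 1 := by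
        have : (2 ^ (L + 1) + 1 - -2 ^ (L + 1) : ℤ) = ((4 * 2 ^ L + 1 : ℕ) : ℤ) := by
          push_cast
          ring
        rw [this, Int.toNat_natCast]
      have h7 : (2 ^ L + 1 - -2 ^ L : ℤ).toNat = 2 * 2 ^ L + 1 := by
        have : (2 ^ L + 1 - -2 ^ L : ℤ) = ((2 * 2 ^ L + 1 : ℕ) : ℤ) := by
          push_cast
          ring
        rw [this, Int.toNat_natCast]
      rw [h6, h7]
      have h8 : 4 * 2 ^ L + 1 - (2 * 2 ^ L + 1) = 2 * 2 ^ L := by omega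
      rw [h8]
      push_cast
      rw [mul_assoc, mul_inv_cancel₀ hN.ne', mul_one]
    push_cast
    linarith

theorem box_sum (L : ℕ) :
    ∑ m ∈ Finset.Icc (-2 ^ L : ℤ) (2 ^ L) ×ˢ Finset.Icc (-2 ^ L : ℤ) (2 ^ L), Sup.wt m ≤
      16 * (1 + (L : ℝ)) ^ 2 := by
  rw [Finset.sum_product]
  simp only [Sup.wt]
  simp_rw [← Finset.mul_sum, ← Finset.sum_mul]
  rw [← Finset.mul_sum]
  have h1 := line_sum L
  have h0 : 0 ≤ ∑ t ∈ Finset.Icc (-2 ^ L : ℤ) (2 ^ L), (1 + |(t : ℝ)|)⁻¹ :=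
    Finset.sum_nonneg fun t _ => by positivity
  nlinarith

theorem wt_out (L : ℕ) (m : ℤ × ℤ)
    (hm : m ∉ Finset.Icc (-2 ^ L : ℤ) (2 ^ L) ×ˢ Finset.Icc (-2 ^ L : ℤ) (2 ^ L)) :
    Sup.wt m ≤ 4 * ((2 : ℝ) ^ L)⁻¹ := by
  have hN : (0 : ℝ) < 2 ^ L := by positivity
  have h1 : ∀ t : ℤ, (1 + |(t : ℝ)|)⁻¹ ≤ 1 := fun t =>
    inv_le_one_of_one_le₀ (by linarith [abs_nonneg (t : ℝ)])
  have h2 : ∀ t : ℤ, ¬ |t| ≤ 2 ^ L → (1 + |(t : ℝ)|)⁻¹ ≤ ((2 : ℝ) ^ L)⁻¹ := by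
    intro t ht
    have h5 : (2 : ℝ) ^ L < |(t : ℝ)| := by exact_mod_cast not_le.1 ht
    exact inv_anti₀ hN (by linarith)
  have h3 : ∀ t : ℤ, 0 ≤ (1 + |(t : ℝ)|)⁻¹ := fun t => by positivity
  rw [Finset.mem_product, Finset.mem_Icc, Finset.mem_Icc, ← abs_le, ← abs_le, not_and_or] at hm
  unfold Sup.wt
  rcases hm with hm | hm
  · have := mul_le_mul (h2 _ hm) (h1 m.2) (h3 _) (by positivity)
    nlinarith
  · have := mul_le_mul (h1 m.1) (h2 _ hm) (h3 _) (by positivity)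
    nlinarith

end Supl

open Classical in
/-- The pointwise bound; `hker` and `hcnt` are the statements of `ker` and `cnt`. -/
theorem supl_of (hker : ∀ (p : Pol) (k : ℕ) (a : Fin 2 → ℤ), Good p k a → ∀ y : E 2,
      ‖∫ x in sq k a, ex (ev p x - ⟪x, y⟫)‖ ≤
      100 / 4 ^ k * (kap ((y 0 - d1 p 0 (co k a)) / 2 ^ k) * kap ((y 1 - d1 p 1 (co k a)) / 2 ^ k)))
    (n : ℕ)
    (hcnt : ∃ C c : ℝ, 0 < C ∧ 0 < c ∧ c ≤ 1 ∧ ∀ p : Pol, p.totalDegree ≤ n →
      ∀ (k l : ℕ) (z : E 2),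
        (((T p k l).filter fun a => ∀ i, |d1 p i (co (k + 1) a) - z i| ≤ 2 ^ (k + 1)).card : ℝ) ≤
          C * 4 ^ (k + 1) * zz c k l)
    : ∃ C c : ℝ, 0 < C ∧ 0 < c ∧ c ≤ 1 ∧
    ∀ p : Pol, p.totalDegree ≤ n → ∀ (k l : ℕ) (h : (Fin 2 → ℤ) → ℂ), (∀ a, ‖h a‖ ≤ 1) →
      ∀ y : E 2, ‖∑ a ∈ T p k l, h a * ∫ x in sq (k + 1) a, ex (ev p x - ⟪x, y⟫)‖ ≤
        C * zz c k l * (1 + max (l : ℝ) k) ^ 2 := by
  obtain ⟨C0, c, hC0, hc, hc1, hcnt⟩ := hcnt
  refine ⟨100 * (16 * C0 + 16), c, by positivity, hc, hc1, ?_⟩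
  intro p hp k l h hh y
  set N : ℝ := 4 ^ (k + 1) with hN
  have hN0 : 0 < N := by positivity
  set s : Fin 2 → (Fin 2 → ℤ) → ℝ := fun i a => (y i - d1 p i (co (k + 1) a)) / 2 ^ (k + 1)
    with hs
  let cell : (Fin 2 → ℤ) → ℤ × ℤ := fun a => (⌊s 0 a⌋, ⌊s 1 a⌋)
  let ν : ℤ × ℤ → ℝ := fun m => (((T p k l).filter fun a => cell a = m).card : ℝ) / N
  have hν0 : ∀ m, 0 ≤ ν m := fun m => by positivity
  have hzz : 0 ≤ zz c k l := by unfold zz; positivity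
  -- the terms
  have hterm : ∀ a ∈ T p k l, ‖h a * ∫ x in sq (k + 1) a, ex (ev p x - ⟪x, y⟫)‖ ≤
      100 / N * Sup.wt (cell a) := by
    intro a ha
    have hG : Good p (k + 1) a := (Finset.mem_filter.1 ha).2.1.1
    rw [norm_mul]
    have h1 := hker p (k + 1) a hG y
    have h2 : ‖h a‖ * ‖∫ x in sq (k + 1) a, ex (ev p x - ⟪x, y⟫)‖ ≤
        1 * (100 / 4 ^ (k + 1) * (kap (s 0 a) * kap (s 1 a))) :=
      mul_le_mul (hh a) h1 (norm_nonneg _) zero_le_one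
    rw [one_mul] at h2
    refine h2.trans (mul_le_mul_of_nonneg_left ?_ (by positivity))
    exact mul_le_mul (Sup.kap_le _) (Sup.kap_le _) (Sup.kap_nonneg _) (by positivity)
  have h1 : ‖∑ a ∈ T p k l, h a * ∫ x in sq (k + 1) a, ex (ev p x - ⟪x, y⟫)‖ ≤
      ∑ a ∈ T p k l, 100 / N * Sup.wt (cell a) := norm_sum_le_of_le _ hterm
  have h2 : ∑ a ∈ T p k l, 100 / N * Sup.wt (cell a) =
      100 * ∑ m ∈ (T p k l).image cell, Sup.wt m * ν m := by
    rw [← Finset.sum_fiberwise_of_maps_to (g := cell) (t := (T p k l).image cell)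
      (fun a ha => Finset.mem_image_of_mem _ ha), Finset.mul_sum]
    refine Finset.sum_congr rfl fun m _ => ?_
    have h3 : ∀ a ∈ (T p k l).filter (fun a => cell a = m), 100 / N * Sup.wt (cell a) =
        100 / N * Sup.wt m := fun a ha => by rw [(Finset.mem_filter.1 ha).2]
    rw [Finset.sum_congr rfl h3, Finset.sum_const, nsmul_eq_mul]
    simp only [ν]
    ring
  -- the bound for a cell
  have h3 : ∀ m, ν m ≤ C0 * zz c k l := by
    intro m
    have h4 := hcnt p hp k l (WithLp.toLp 2 fun i => y i - 2 ^ (k + 1) *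
      ((if i = 0 then (m.1 : ℝ) else (m.2 : ℝ)) + 1 / 2))
    have h5 : ((T p k l).filter fun a => cell a = m).card ≤
        ((T p k l).filter fun a => ∀ i, |d1 p i (co (k + 1) a) -
          (WithLp.toLp 2 (fun i => y i - 2 ^ (k + 1) *
      ((if i = 0 then (m.1 : ℝ) else (m.2 : ℝ)) + 1 / 2)) : E 2) i| ≤ 2 ^ (k + 1)).card := by
      refine Finset.card_le_card fun a ha => ?_
      rw [Finset.mem_filter] at ha ⊢
      refine ⟨ha.1, fun i => ?_⟩
      have h6 : ((⌊s i a⌋ : ℤ) : ℝ) = if i = 0 then (m.1 : ℝ) else (m.2 : ℝ) := by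
        rw [← ha.2]
        fin_cases i
        · simp [cell]
        · simp [cell]
      have h7 := Int.floor_le (s i a)
      have h8 := Int.lt_floor_add_one (s i a)
      rw [h6] at h7 h8
      have hP : (0 : ℝ) < 2 ^ (k + 1) := by positivity
      have h9 : y i - d1 p i (co (k + 1) a) = s i a * 2 ^ (k + 1) := by
        simp only [hs]
        field_simp
      change |d1 p i (co (k + 1) a) - (y i - 2 ^ (k + 1) *
        ((if i = 0 then (m.1 : ℝ) else (m.2 : ℝ)) + 1 / 2))| ≤ _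
      have h10 : d1 p i (co (k + 1) a) - (y i - 2 ^ (k + 1) *
          ((if i = 0 then (m.1 : ℝ) else (m.2 : ℝ)) + 1 / 2)) =
          2 ^ (k + 1) * (((if i = 0 then (m.1 : ℝ) else (m.2 : ℝ)) + 1 / 2) - s i a) := by
        linear_combination -h9
      rw [h10, abs_mul, abs_of_pos hP]
      refine mul_le_of_le_one_right hP.le ?_
      rw [abs_le]
      constructor <;> linarith
    rw [div_le_iff₀ hN0]
    calc (((T p k l).filter fun a => cell a = m).card : ℝ) ≤ _ := by exact_mod_cast h5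
      _ ≤ _ := h4
      _ = C0 * zz c k l * N := by rw [hN]; ring
  -- the sum of all
  have h4 : ∑ m ∈ (T p k l).image cell, ν m ≤ 4 := by
    have h5 : ∑ m ∈ (T p k l).image cell, ν m = ((T p k l).card : ℝ) / N := by
      simp only [ν]
      rw [← Finset.sum_div, ← Nat.cast_sum]
      congr 2
      exact (Finset.card_eq_sum_card_fiberwise fun a ha => Finset.mem_image_of_mem _ ha).symm
    rw [h5, div_le_iff₀ hN0]
    exact Sup.card_T p k l
  -- the two parts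
  set L : ℕ := max l k with hL
  have hLr : max (l : ℝ) k = (L : ℝ) := by rw [hL]; push_cast; rfl
  have hzL : ((2 : ℝ) ^ L)⁻¹ ≤ zz c k l := by
    unfold zz
    rw [← Real.rpow_natCast, ← Real.rpow_neg (by norm_num)]
    refine Real.rpow_le_rpow_of_exponent_le (by norm_num) (neg_le_neg ?_)
    rw [← hLr]
    refine max_le_max le_rfl ?_
    exact mul_le_of_le_one_left (Nat.cast_nonneg k) hc1
  set box : Finset (ℤ × ℤ) := Finset.Icc (-2 ^ L : ℤ) (2 ^ L) ×ˢ Finset.Icc (-2 ^ L : ℤ) (2 ^ L)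
    with hbox
  set I := (T p k l).image cell with hI
  have hin : ∑ m ∈ I.filter (· ∈ box), Sup.wt m * ν m ≤ C0 * zz c k l * (16 * (1 + (L : ℝ)) ^ 2) := by
    calc ∑ m ∈ I.filter (· ∈ box), Sup.wt m * ν m
        ≤ ∑ m ∈ I.filter (· ∈ box), Sup.wt m * (C0 * zz c k l) :=
          Finset.sum_le_sum fun m _ => mul_le_mul_of_nonneg_left (h3 m) (Sup.wt_nonneg m)
      _ = C0 * zz c k l * ∑ m ∈ I.filter (· ∈ box), Sup.wt m := by
          rw [← Finset.sum_mul, mul_comm]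
      _ ≤ C0 * zz c k l * ∑ m ∈ box, Sup.wt m := by
          refine mul_le_mul_of_nonneg_left ?_ (by positivity)
          exact Finset.sum_le_sum_of_subset_of_nonneg
            (fun m hm => (Finset.mem_filter.1 hm).2) fun m _ _ => Sup.wt_nonneg m
      _ ≤ _ := mul_le_mul_of_nonneg_left (Supl.box_sum L) (by positivity)
  have hout : ∑ m ∈ I.filter (¬ · ∈ box), Sup.wt m * ν m ≤ 16 * zz c k l := by
    calc ∑ m ∈ I.filter (¬ · ∈ box), Sup.wt m * ν m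
        ≤ ∑ m ∈ I.filter (¬ · ∈ box), 4 * zz c k l * ν m := by
          refine Finset.sum_le_sum fun m hm => mul_le_mul_of_nonneg_right ?_ (hν0 m)
          refine (Supl.wt_out L m (Finset.mem_filter.1 hm).2).trans ?_
          linarith
      _ = 4 * zz c k l * ∑ m ∈ I.filter (¬ · ∈ box), ν m := by rw [Finset.mul_sum]
      _ ≤ 4 * zz c k l * 4 := by
          refine mul_le_mul_of_nonneg_left ((Finset.sum_le_sum_of_subset_of_nonneg
            (Finset.filter_subset _ _) fun m _ _ => hν0 m).trans h4) (by positivity)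
      _ = 16 * zz c k l := by ring
  have hall : ∑ m ∈ I, Sup.wt m * ν m ≤
      C0 * zz c k l * (16 * (1 + (L : ℝ)) ^ 2) + 16 * zz c k l := by
    rw [← Finset.sum_filter_add_sum_filter_not I (· ∈ box)]
    exact add_le_add hin hout
  have hone : (1 : ℝ) ≤ (1 + (L : ℝ)) ^ 2 := by
    have : (0 : ℝ) ≤ L := Nat.cast_nonneg L
    nlinarith
  rw [hLr]
  calc ‖∑ a ∈ T p k l, h a * ∫ x in sq (k + 1) a, ex (ev p x - ⟪x, y⟫)‖
      ≤ 100 * ∑ m ∈ I, Sup.wt m * ν m := h1.trans h2.le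
    _ ≤ 100 * (C0 * zz c k l * (16 * (1 + (L : ℝ)) ^ 2) + 16 * zz c k l) :=
        mul_le_mul_of_nonneg_left hall (by norm_num)
    _ ≤ 100 * (C0 * zz c k l * (16 * (1 + (L : ℝ)) ^ 2) + 16 * zz c k l * (1 + (L : ℝ)) ^ 2) := by
        have := mul_le_mul_of_nonneg_left hone (mul_nonneg (by norm_num : (0:ℝ) ≤ 16) hzz)
        linarith
    _ = 100 * (16 * C0 + 16) * zz c k l * (1 + (L : ℝ)) ^ 2 := by ring

theorem supl (n : ℕ) : ∃ C c : ℝ, 0 < C ∧ 0 < c ∧ c ≤ 1 ∧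
    ∀ p : Pol, p.totalDegree ≤ n → ∀ (k l : ℕ) (h : (Fin 2 → ℤ) → ℂ), (∀ a, ‖h a‖ ≤ 1) →
      ∀ y : E 2, ‖∑ a ∈ T p k l, h a * ∫ x in sq (k + 1) a, ex (ev p x - ⟪x, y⟫)‖ ≤
        C * zz c k l * (1 + max (l : ℝ) k) ^ 2 :=
  supl_of ker n (cnt_of ar half gr n)

end Pool.Agent.J4.H87.PP
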